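import Pool.Agent.Work.MP_2482e4_mp.Defs

open MeasureTheory

namespace Pool.Agent.Work.MP_2482e4_mp

/-- For every finite set of points `t > 1`, the derivatives of `f` of all large orders at these
points are algebraically independent over `ℚ`. -/
def IsGeneric (f : ℝ → ℝ) : Prop :=
  ∀ s : Finset ℝ, (∀ t ∈ s, 1 < t) → ∃ K : ℕ,
    AlgebraicIndependent ℚ fun p : s × ℕ => iteratedDeriv (K + p.2) f p.1

/-- `f (t) = ∫ (1 + s) / 2 * (t / (t + s) + t / (1 + t s)) dν (s)` for a probability measure `ν`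
on `[0, 1]`. -/
noncomputable def fMeas (ν : ProbabilityMeasure (Set.Icc (0 : ℝ) 1)) (t : ℝ) : ℝ :=
  ∫ s, (1 + (s : ℝ)) / 2 * (t / (t + s) + t / (1 + t * s)) ∂(ν : Measure (Set.Icc (0 : ℝ) 1))

variable {n : Type} [Fintype n] [DecidableEq n]

/-- A spin factor: `[[X, Y], Z] = c (tr (Y Z) X - tr (X Z) Y)`. -/
def IsSpin (L : Set (Matrix n n ℂ)) : Prop :=
  ∃ c : ℝ, ∀ X ∈ L, ∀ Y ∈ L, ∀ Z ∈ L,
    ⁅⁅X, Y⁆, Z⁆ = c • ((Y * Z).trace.re • X - (X * Z).trace.re • Y)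

/-- There are pairwise commuting Lie triple systems `L i` of Hermitian matrices and subspaces
`B i ≤ L i` with `H ∈ ∑ L i` and `𝒜 ⊆ ∑ B i` such that for each `i` either `L i ⊆ 𝒜`, or `L i` is
a spin factor and `B i ⊆ 𝒜`, or `B i` has dimension at most one. -/
def IsProductType (H : Matrix n n ℂ) (𝒜 : Set (Matrix n n ℂ)) : Prop :=
  ∃ (r : ℕ) (L B : Fin r → Submodule ℝ (Matrix n n ℂ)),
    (∀ i, ∀ X ∈ L i, X.IsHermitian) ∧ (∀ i, IsLieTriple (L i : Set (Matrix n n ℂ))) ∧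
    (∀ i j, i ≠ j → ∀ X ∈ L i, ∀ Y ∈ L j, Commute X Y) ∧ (∀ i, B i ≤ L i) ∧
    H ∈ ⨆ i, L i ∧ (∀ A ∈ 𝒜, A ∈ ⨆ i, B i) ∧
    ∀ i, (∀ X ∈ L i, X ∈ 𝒜) ∨ (IsSpin (L i : Set (Matrix n n ℂ)) ∧ ∀ X ∈ B i, X ∈ 𝒜) ∨
      Module.finrank ℝ (B i) ≤ 1

end Pool.Agent.Work.MP_2482e4_mp
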