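import Pool.Agent.Work.MP_2482e4_mp.FamSmooth

-- merged part: Pool.Agent.Work.MP_2482e4_mp.CommAlg
section
open scoped ComplexOrder Topology ContDiff Matrix.Norms.L2Operator
open Matrix NormedSpace Filter Module

namespace Pool.Agent.Work.MP_2482e4_mp

/-- The weight `w (u) = (e ^ u - 1) / (u f (e ^ u))`. -/
noncomputable def wt (f : ℝ → ℝ) (u : ℝ) : ℝ := ddExp u 0 / f (Real.exp u)

theorem wt_eq (f : ℝ → ℝ) (x y : ℝ) :
    (Real.exp y * f (Real.exp x / Real.exp y))⁻¹ * ddExp x y = wt f (x - y) := by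
  rw [wt, ← ddExp_mul, Real.exp_sub, Real.exp_neg]
  ring

theorem wt_neg {f : ℝ → ℝ} (hfs : ∀ t, 0 < t → f t = t * f t⁻¹) (u : ℝ) : wt f (-u) = wt f u := by
  have h1 := wt_eq f 0 u
  have h2 := wt_eq f u 0
  rw [zero_sub] at h1
  rw [sub_zero] at h2
  rw [← h1, ← h2, ddExp_comm 0 u, Real.exp_zero, one_mul, div_one, hfs _ (Real.exp_pos u), one_div]

theorem wt_abs {f : ℝ → ℝ} (hfs : ∀ t, 0 < t → f t = t * f t⁻¹) (u : ℝ) : wt f |u| = wt f u := by
  rcases abs_choice u with h | h <;> rw [h]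
  exact wt_neg hfs u

theorem injOn_of_analytic {w : ℝ → ℝ} (hw : AnalyticAt ℝ w 0) (hne : ¬ ∀ᶠ u in 𝓝 0, w u = w 0) :
    ∃ ε : ℝ, 0 < ε ∧ Set.InjOn w (Set.Ico 0 ε) := by
  rcases hw.deriv.eventually_eq_zero_or_eventually_ne_zero with h | h
  · exfalso
    apply hne
    obtain ⟨ε, hε, hb⟩ := Metric.eventually_nhds_iff_ball.1 (h.and hw.eventually_analyticAt)
    filter_upwards [Metric.ball_mem_nhds (0 : ℝ) hε] with u hu
    exact Metric.isOpen_ball.is_const_of_deriv_eq_zero (convex_ball _ _).isPreconnected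
      (fun x hx => (hb x hx).2.differentiableAt.differentiableWithinAt) (fun x hx => (hb x hx).1)
      hu (Metric.mem_ball_self hε)
  · obtain ⟨ε, hε, hb⟩ := Metric.eventually_nhds_iff_ball.1
      ((eventually_nhdsWithin_iff.1 h).and hw.eventually_analyticAt)
    refine ⟨ε, hε, ?_⟩
    have key : ∀ u ∈ Set.Ico 0 ε, ∀ v ∈ Set.Ico 0 ε, u < v → w u ≠ w v := by
      intro u hu v hv huv heq
      have hin : ∀ x ∈ Set.Icc u v, x ∈ Metric.ball (0 : ℝ) ε := fun x hx => by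
        rw [Metric.mem_ball, Real.dist_eq, sub_zero, abs_of_nonneg (hu.1.trans hx.1)]
        exact hx.2.trans_lt hv.2
      obtain ⟨c, hc, hc0⟩ := exists_deriv_eq_zero huv
        (fun x hx => (hb x (hin x hx)).2.continuousAt.continuousWithinAt) heq
      exact (hb c (hin c ⟨hc.1.le, hc.2.le⟩)).1 (hu.1.trans_lt hc.1).ne' hc0
    intro u hu v hv heq
    rcases lt_trichotomy u v with h | h | h
    · exact absurd heq (key u hu v hv h)
    · exact h
    · exact absurd heq.symm (key v hv u hu h)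

theorem wt_injOn {f : ℝ → ℝ} (hf1 : f 1 = 1) (hfa : AnalyticAt ℝ f 1)
    (hne : ¬ ∀ᶠ t in 𝓝[≠] (1 : ℝ), f t = (t - 1) / Real.log t) :
    ∃ ε : ℝ, 0 < ε ∧ Set.InjOn (wt f) (Set.Ico 0 ε) := by
  have h1 : (fun u => ddExp u 0) = dslope Real.exp 0 := by
    funext u
    by_cases h : u = 0
    · simp [h, ddExp]
    · rw [dslope_of_ne _ h, ddExp, if_neg h, slope_def_field]
  have h2 : AnalyticAt ℝ (fun u => ddExp u 0) 0 := by
    obtain ⟨p, hp⟩ := analyticAt_rexp (x := (0 : ℝ))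
    rw [h1]
    exact ⟨_, hp.has_fpower_series_dslope_fslope⟩
  have h3 : AnalyticAt ℝ (fun u => f (Real.exp u)) 0 :=
    AnalyticAt.comp_of_eq hfa analyticAt_rexp Real.exp_zero
  refine injOn_of_analytic (h2.div h3 (by simp [hf1])) fun h => hne ?_
  have ht : Tendsto Real.log (𝓝 1) (𝓝 0) := by
    simpa using (Real.continuousAt_log one_ne_zero).tendsto
  filter_upwards [mem_nhdsWithin_of_mem_nhds (ht.eventually h), self_mem_nhdsWithin,
    mem_nhdsWithin_of_mem_nhds (lt_mem_nhds (zero_lt_one' ℝ))] with t h1 h2 h3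
  have h4 : Real.log t ≠ 0 := Real.log_ne_zero_of_pos_of_ne_one h3 h2
  change ddExp (Real.log t) 0 / f (Real.exp (Real.log t)) = ddExp 0 0 / f (Real.exp 0) at h1
  simp only [Real.exp_log h3, Real.exp_zero, hf1, ddExp, if_neg h4, if_true, div_one,
    sub_zero] at h1
  have h5 : f t ≠ 0 := by
    rintro h5
    simp [h5] at h1
  exact ((div_eq_one_iff_eq h5).1 h1).symm

variable {n : Type} [Fintype n] [DecidableEq n] {U U' : Matrix n n ℂ}

theorem exists_poly (s : Finset ℝ) (φ : ℝ → ℝ) : ∃ p : Polynomial ℝ, ∀ x ∈ s, p.eval x = φ x := by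
  classical
  exact ⟨Lagrange.interpolate s id φ, fun x hx =>
    Lagrange.eval_interpolate_at_node (s := s) (v := id) φ (Set.injOn_id _) hx⟩

theorem Sch_transfer (hU : U * star U = 1) (hU' : U' * star U' = 1) (P : Matrix n n ℂ → Prop)
    (μ μ' : n → n → ℝ) (h : ∀ B, P B → Sch U μ B = Sch U' μ' B ∧ P (Sch U μ B)) (φ : ℝ → ℝ)
    {B : Matrix n n ℂ} (hB : P B) :
    Sch U (fun i j => φ (μ i j)) B = Sch U' (fun i j => φ (μ' i j)) B := by
  classical
  have h0 : ∀ m : ℕ, ∀ B, P B → Sch U (fun i j => μ i j ^ m) B = Sch U' (fun i j => μ' i j ^ m) B := by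
    intro m
    induction m with
    | zero => intro B _; simp only [pow_zero, Sch_one hU, Sch_one hU']
    | succ m ih =>
      intro B hB
      simp only [pow_succ]
      rw [← Sch_Sch hU, ← Sch_Sch hU', ih _ (h B hB).2, (h B hB).1]
  have h1 : ∀ p : Polynomial ℝ,
      Sch U (fun i j => p.eval (μ i j)) B = Sch U' (fun i j => p.eval (μ' i j)) B := by
    intro p
    induction p using Polynomial.induction_on' with
    | add p q hp hq => simp only [Polynomial.eval_add, Sch_add hU, Sch_add hU', hp, hq]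
    | monomial m a =>
      simp only [Polynomial.eval_monomial, Sch_const_mul hU, Sch_const_mul hU', h0 m B hB]
  obtain ⟨p, hp⟩ := exists_poly ((Finset.univ.image fun ij : n × n => μ ij.1 ij.2) ∪
    (Finset.univ.image fun ij : n × n => μ' ij.1 ij.2)) φ
  have h2 : ∀ i j, p.eval (μ i j) = φ (μ i j) := fun i j => hp _ (Finset.mem_union_left _
    (Finset.mem_image.2 ⟨(i, j), Finset.mem_univ _, rfl⟩))
  have h3 : ∀ i j, p.eval (μ' i j) = φ (μ' i j) := fun i j => hp _ (Finset.mem_union_right _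
    (Finset.mem_image.2 ⟨(i, j), Finset.mem_univ _, rfl⟩))
  simpa only [h2, h3] using h1 p

theorem Sch_of_commute (hU : U * star U = 1) {d : n → ℝ} {A : Matrix n n ℂ}
    (hA : Commute (Dg U d) A) {k l : n → n → ℝ} (h : ∀ i j, d i = d j → k i j = l i j) :
    Sch U k A = Sch U l A := by
  refine conj_ext hU fun i j => ?_
  rw [conj_Sch hU, conj_Sch hU]
  by_cases hd : d i = d j
  · rw [h i j hd]
  · have h1 : Sch U (fun i _ => d i) A = Sch U (fun _ j => d j) A := by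
      rw [← Dg_mul hU, ← mul_Dg hU]; exact hA
    have h2 := congrArg (fun M => (star U * M * U) i j) h1
    simp only [conj_Sch hU] at h2
    have h3 : (star U * A * U) i j = 0 := by
      by_contra h3
      exact hd (by exact_mod_cast mul_right_cancel₀ h3 h2)
    simp [h3]

theorem commute_Dg_comp (hU : U * star U = 1) {d : n → ℝ} {A : Matrix n n ℂ}
    (hA : Commute (Dg U d) A) (φ : ℝ → ℝ) : Commute (Dg U fun i => φ (d i)) A := by
  change _ * _ = _ * _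
  rw [Dg_mul hU, mul_Dg hU]
  exact Sch_of_commute hU hA fun i j h => by rw [h]

theorem lieTriple_of_sq {𝒜 : Submodule ℝ (Matrix n n ℂ)}
    (h : ∀ a ∈ 𝒜, ∀ B ∈ 𝒜, ⁅a, ⁅a, B⁆⁆ ∈ 𝒜) : IsLieTriple (𝒜 : Set (Matrix n n ℂ)) := by
  have h1 : ∀ a ∈ 𝒜, ∀ b ∈ 𝒜, ∀ c ∈ 𝒜, ⁅a, ⁅b, c⁆⁆ + ⁅b, ⁅a, c⁆⁆ ∈ 𝒜 := by
    intro a ha b hb c hc
    have := 𝒜.sub_mem (𝒜.sub_mem (h _ (𝒜.add_mem ha hb) c hc) (h a ha c hc)) (h b hb c hc)
    convert this using 1
    simp only [Ring.lie_def]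
    noncomm_ring
  intro a ha b hb c hc
  have h2 := 𝒜.sub_mem (h1 b hb c hc a ha) (h1 a ha c hc b hb)
  have h3 : (3 : ℝ) • ⁅⁅a, b⁆, c⁆ ∈ 𝒜 := by
    convert h2 using 1
    rw [show (3 : ℝ) = 1 + 1 + 1 by norm_num, add_smul, add_smul, one_smul]
    simp only [Ring.lie_def]
    noncomm_ring
  exact (𝒜.smul_mem_iff (by norm_num)).1 h3

end Pool.Agent.Work.MP_2482e4_mp
end

-- merged part: Pool.Agent.Work.MP_2482e4_mp.Stay
section
open scoped Topology ContDiff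
open Filter Module

namespace Pool.Agent.Work.MP_2482e4_mp

variable {E : Type} [NormedAddCommGroup E] [NormedSpace ℝ E] [FiniteDimensional ℝ E]

omit [FiniteDimensional ℝ E] in
theorem lip_near {E' : Type*} [NormedAddCommGroup E'] [NormedSpace ℝ E'] {f : E → E'} {p : E}
    (hf : ContDiffAt ℝ ∞ f p) :
    ∃ K : ℝ, 0 ≤ K ∧ ∃ s ∈ 𝓝 p, ∀ x ∈ s, ∀ y ∈ s, ‖f x - f y‖ ≤ K * ‖x - y‖ := by
  obtain ⟨K, t, ht, hK⟩ := (hf.of_le (by simp : (1 : WithTop ℕ∞) ≤ ∞)).exists_lipschitzOnWith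
  exact ⟨K, K.2, t, ht, fun x hx y hy => by simpa [dist_eq_norm] using hK.dist_le_mul x hx y hy⟩

theorem stay_in {N : Set E} {ρ : E} {Φ : OpenPartialHomeomorph E E} {F : Submodule ℝ E}
    (hρs : ρ ∈ Φ.source) (hΦ : ContDiffOn ℝ ∞ Φ Φ.source) (hΦ' : ContDiffOn ℝ ∞ Φ.symm Φ.target)
    (hN : ∀ q ∈ Φ.source, q ∈ N ↔ Φ q ∈ F) (hρ : ρ ∈ N) {G : E → E →L[ℝ] E}
    (hG : ContDiffAt ℝ ∞ G ρ) {W : Set E} (hW : ∀ᶠ p in 𝓝[N] ρ, ∀ a ∈ W, G p a ∈ tangent N p)
    {Γ : E → E} (hΓ : ContinuousAt Γ 0) (hΓ0 : Γ 0 = ρ)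
    (hd : ∀ a ∈ W, ∀ t : ℝ, HasDerivAt (fun t : ℝ => Γ (t • a)) (G (Γ (t • a)) a) t) :
    ∀ᶠ a in 𝓝 (0 : E), a ∈ W → Γ a ∈ N := by
  obtain ⟨Q, hQ, hQ'⟩ := exists_Q F
  set R : E → E →L[ℝ] E := fun q => Q.comp ((fderiv ℝ Φ q).comp (G q)) with hR
  have hRcd : ContDiffAt ℝ ∞ R ρ := cdAt_clm' fun a =>
    Q.contDiff.contDiffAt.comp ρ (((chart_cd hΦ hρs).fderiv_right (by simp)).clm_apply
      (hG.clm_apply contDiffAt_const))
  obtain ⟨L, hL0, s, hs, hL⟩ := lip_near hRcd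
  obtain ⟨K, hK0, s', hs', hK⟩ := lip_near (chart_cd' hΦ' (Φ.map_source hρs))
  have hQρ : Q (Φ ρ) = 0 := (hQ _).2 ((hN ρ hρs).1 hρ)
  have hc : Tendsto Φ (𝓝 ρ) (𝓝 (Φ ρ)) := Φ.continuousAt hρs
  have hc1 : Tendsto (fun q => Φ q - Q (Φ q)) (𝓝 ρ) (𝓝 (Φ ρ)) := by
    have := hc.sub ((Q.continuous.tendsto _).comp hc)
    rwa [hQρ, sub_zero] at this
  have hc2 : Tendsto (fun q => Φ.symm (Φ q - Q (Φ q))) (𝓝 ρ) (𝓝 ρ) :=
    (Φ.tendsto_symm hρs).comp hc1
  have hev : ∀ᶠ q in 𝓝 ρ, (q ∈ Φ.source ∧ q ∈ s ∧ Φ q ∈ s') ∧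
      (Φ q - Q (Φ q) ∈ s' ∧ Φ q - Q (Φ q) ∈ Φ.target) ∧ Φ.symm (Φ q - Q (Φ q)) ∈ s ∧
      (Φ.symm (Φ q - Q (Φ q)) ∈ N → ∀ a ∈ W,
        G (Φ.symm (Φ q - Q (Φ q))) a ∈ tangent N (Φ.symm (Φ q - Q (Φ q)))) := by
    filter_upwards [Φ.open_source.mem_nhds hρs, hs, hc.eventually hs', hc1.eventually hs',
      hc1.eventually (Φ.open_target.mem_nhds (Φ.map_source hρs)), hc2.eventually hs,
      hc2.eventually (eventually_nhdsWithin_iff.1 hW)] with q h1 h2 h3 h4 h5 h6 h7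
    exact ⟨⟨h1, h2, h3⟩, ⟨h4, h5⟩, h6, h7⟩
  obtain ⟨r, hr, hball⟩ := Metric.eventually_nhds_iff_ball.1
    ((show Tendsto Γ (𝓝 0) (𝓝 ρ) from hΓ0 ▸ hΓ).eventually hev)
  filter_upwards [Metric.ball_mem_nhds (0 : E) hr] with a ha haW
  have hb : ∀ t ∈ Set.Icc (0 : ℝ) 1, t • a ∈ Metric.ball (0 : E) r := fun t ht => by
    rw [mem_ball_zero_iff] at ha ⊢
    rw [norm_smul, Real.norm_of_nonneg ht.1]
    exact (mul_le_of_le_one_left (norm_nonneg _) ht.2).trans_lt ha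
  have hyd : ∀ t ∈ Set.Icc (0 : ℝ) 1,
      HasDerivAt (fun t : ℝ => Q (Φ (Γ (t • a)))) (R (Γ (t • a)) a) t := fun t ht => by
    have := (Q.hasFDerivAt.comp _ ((chart_cd hΦ (hball _ (hb t ht)).1.1).differentiableAt
      (by simp)).hasFDerivAt).comp_hasDerivAt t (hd a haW t)
    exact this
  have hbound : ∀ t ∈ Set.Icc (0 : ℝ) 1,
      ‖R (Γ (t • a)) a‖ ≤ (L * K * ‖a‖) * ‖Q (Φ (Γ (t • a)))‖ := by
    intro t ht
    obtain ⟨⟨h1, h2, h3⟩, ⟨h4, h5⟩, h6, h7⟩ := hball _ (hb t ht)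
    set q := Γ (t • a)
    set p := Φ.symm (Φ q - Q (Φ q)) with hp
    have hps : p ∈ Φ.source := Φ.map_target h5
    have hpN : p ∈ N := by rw [hN p hps, hp, Φ.right_inv h5]; exact hQ' _
    have h8 : R p a = 0 := (hQ _).2 ((tangent_iff hΦ hΦ' hN hps hpN _).1 (h7 hpN a haW))
    have h9 : ‖q - p‖ ≤ K * ‖Q (Φ q)‖ := by
      have := hK _ h3 _ h4
      rwa [Φ.left_inv h1, sub_sub_cancel] at this
    calc ‖R q a‖ = ‖(R q - R p) a‖ := by rw [_root_.sub_apply, h8, sub_zero]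
      _ ≤ ‖R q - R p‖ * ‖a‖ := (R q - R p).le_opNorm a
      _ ≤ L * (K * ‖Q (Φ q)‖) * ‖a‖ := by
          gcongr
          exact (hL _ h2 _ h6).trans (by gcongr)
      _ = _ := by ring
  have hy1 := eq_zero_of_abs_deriv_le_mul_abs_self_of_eq_zero_right
    (f := fun t : ℝ => Q (Φ (Γ (t • a)))) (f' := fun t => R (Γ (t • a)) a) (K := L * K * ‖a‖)
    (a := 0) (b := 1) (fun t ht => (hyd t ht).continuousAt.continuousWithinAt)
    (fun t ht => (hyd t ⟨ht.1, ht.2.le⟩).hasDerivWithinAt) (by simp [hΓ0, hQρ])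
    (fun t ht => hbound t ⟨ht.1, ht.2.le⟩) 1 ⟨zero_le_one, le_rfl⟩
  rw [one_smul] at hy1
  exact (hN _ (hball a ha).1.1).2 ((hQ _).1 hy1)

end Pool.Agent.Work.MP_2482e4_mp
end

-- merged part: Pool.Agent.Work.MP_2482e4_mp.Comm
section
open scoped ComplexOrder Topology ContDiff Matrix.Norms.L2Operator
open Matrix NormedSpace Filter Module

namespace Pool.Agent.Work.MP_2482e4_mp

variable {n : Type} [Fintype n] [DecidableEq n]
variable {E : Type} [NormedAddCommGroup E] [NormedSpace ℝ E] [FiniteDimensional ℝ E]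
variable {ι : E →ₗ[ℝ] Matrix n n ℂ} {g : E → E →L[ℝ] E →L[ℝ] ℝ} {f : ℝ → ℝ} {U : Matrix n n ℂ}

/-- The normalised exponential. -/
noncomputable def chi (ι : E →ₗ[ℝ] Matrix n n ℂ) (H : E) : E := nrm ι (ex ι H)

theorem chi_cd [Nonempty n] (hι : IsHermModel ι) (H : E) : ContDiffAt ℝ ω (chi ι) H :=
  (nrm_cd (trL_pos (ex_posDef hι H)).ne').comp H (ex_cd H)

theorem fderiv_chi [Nonempty n] (hι : IsHermModel ι) (H v : E) :
    fderiv ℝ (chi ι) H v = fderiv ℝ (nrm ι) (ex ι H) (fderiv ℝ (ex ι) H v) := by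
  have h1 : HasFDerivAt (chi ι) _ H :=
    ((nrm_cd (trL_pos (ex_posDef hι H)).ne').differentiableAt (by simp)).hasFDerivAt.comp H
      ((ex_cd H).differentiableAt (by simp)).hasFDerivAt
  rw [h1.fderiv]; rfl

theorem chi_D_iff [Nonempty n] (hι : IsHermModel ι) (hg : IsPetz ι f g)
    (hfs : ∀ t, 0 < t → f t = t * f t⁻¹) {ρ : E} {V : Submodule ℝ E}
    (hpos : ∀ X, X ≠ 0 → 0 < g ρ X X) (hV : ∀ X ∈ V, trL ι X = 0) (hU : U * star U = 1) {H : E}
    {x : n → ℝ} (hH : ι H = Dg U x) (v : E) :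
    fderiv ℝ (chi ι) H v ∈ orth (trL ι) (g (chi ι H)).flip (orth (trL ι) (g ρ) V) ↔
      Sch U (fun i j => wt f (x i - x j)) (ι v) ∈ eRep ι g ρ V := by
  rw [fderiv_chi hι, chi, nrm_D_iff hι hg hfs hpos hV hU (ι_ex_Dg hι hU hH)
    (fun i => Real.exp_pos _), ι_fderiv_ex hι hU hH, Sch_Sch hU]
  simp only [wt_eq]

theorem m_ne (hf : ∀ t, 0 < t → 0 < f t) {d : n → ℝ} (hd : ∀ i, 0 < d i) (i j : n) :
    d j * f (d i / d j) ≠ 0 := (mul_pos (hd j) (hf _ (div_pos (hd i) (hd j)))).ne'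

theorem m_symm (hfs : ∀ t, 0 < t → f t = t * f t⁻¹) {d : n → ℝ} (hd : ∀ i, 0 < d i) (i j : n) :
    d j * f (d i / d j) = d i * f (d j / d i) := by
  rw [hfs _ (div_pos (hd i) (hd j)), inv_div, ← mul_assoc, mul_div_cancel₀ _ (hd j).ne']

theorem eRep_commute [Nonempty n] (hι : IsHermModel ι) (hg : IsPetz ι f g)
    (hf : ∀ t, 0 < t → 0 < f t) (hfs : ∀ t, 0 < t → f t = t * f t⁻¹) {ρ : E} (hρ : ρ ∈ states ι)
    {V : Submodule ℝ E} (hV : ∀ X ∈ V, trL ι X = 0) (hc : ∀ X ∈ V, Commute (ι ρ) (ι X))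
    {A : Matrix n n ℂ} (hA : A ∈ eRep ι g ρ V) : Commute (ι ρ) A := by
  obtain ⟨U, d, hU, hx, hd⟩ := exists_Dg_pos hρ.1
  have hρ1 := nrm_of_states hι hρ
  have hpos := petz_pos hι hg hf hρ.1
  have h1 : ι (jL ι (Sch U (fun i j => d j * f (d i / d j)) A)) = _ :=
    ι_jL hι (Sch_herm hU (m_symm hfs hd) hA.1)
  have h2 := (nrm_D_iff hι hg hfs hpos hV hU hx hd
    (jL ι (Sch U (fun i j => d j * f (d i / d j)) A))).2 (by
      rw [h1, Sch_Sch hU, Sch_congr (l := fun _ _ => 1)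
        (fun i j => inv_mul_cancel₀ (m_ne hf hd i j)), Sch_one hU]
      exact hA)
  rw [show nrm ι ρ = ρ by simp [nrm, hρ1], orth_orth _ _ V hpos hV,
    fderiv_nrm (by simp [hρ1])] at h2
  have h3 := (hc _ h2).add_right ((Commute.refl (ι ρ)).smul_right
    ((trL ι ρ)⁻¹ ^ 2 * trL ι (jL ι (Sch U (fun i j => d j * f (d i / d j)) A))))
  rw [map_sub, map_smul, map_smul, sub_add_cancel, hρ1, inv_one, one_smul, h1, hx] at h3
  change _ * _ = _ * _ at h3
  rw [Dg_mul hU, mul_Dg hU, Sch_Sch hU, Sch_Sch hU] at h3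
  change _ * _ = _ * _
  rw [hx, Dg_mul hU, mul_Dg hU]
  refine Sch_inj hU (m_ne hf hd) ?_
  rw [Sch_Sch hU, Sch_Sch hU]
  simpa only [mul_comm] using h3

theorem comm_suf (hι : IsHermModel ι) (hg : IsPetz ι f g) (hf : ∀ t, 0 < t → 0 < f t)
    (hfs : ∀ t, 0 < t → f t = t * f t⁻¹) (hf1 : f 1 = 1) {ρ : E} (hρ : ρ ∈ states ι)
    {V : Submodule ℝ E} (hV : ∀ X ∈ V, trL ι X = 0) (hc : ∀ X ∈ V, Commute (ι ρ) (ι X))
    (hL : IsLieTriple (eRep ι g ρ V)) : Admissible ι g ρ V := by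
  have := nonempty_of_states hρ
  obtain ⟨U, d, hU, hx, hd⟩ := exists_Dg_pos hρ.1
  have hρ1 := nrm_of_states hι hρ
  have hpos := petz_pos hι hg hf hρ.1
  set H0 := lg ι ρ with hH0
  have hH0' : ι H0 = _ := (ι_lg_Dg hι hU hx hd).1
  have hcom : ∀ A ∈ eRep ι g ρ V, Commute (ι H0) A := fun A hA =>
    hH0' ▸ commute_Dg_comp hU (hx ▸ eRep_commute hι hg hf hfs hρ hV hc hA) Real.log
  have hχ0 : chi ι H0 = ρ := by rw [chi, ex_lg hι hρ.1, nrm, hρ1]; simp
  obtain ⟨C, hC, hCT⟩ := exists_section (V := V) (𝒜 := eRepS ι g ρ V)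
    ((fderiv ℝ (chi ι) H0).comp (jL ι)) fun v hv => by
      have hA := (mem_V_iff hι hg hfs hpos hV hU hx hd hρ1 (hV v hv)).1 hv
      refine ⟨_, hA, ?_⟩
      have h1 : fderiv ℝ (ex ι) H0 (jL ι (Sch U (fun i j => (d j * f (d i / d j))⁻¹) (ι v))) =
          v := by
        apply hι.1
        rw [ι_fderiv_ex hι hU hH0', ι_jL hι hA.1, Sch_Sch hU,
          Sch_of_commute hU (hx ▸ hc v hv) (l := fun _ _ => 1), Sch_one hU]
        intro i j h
        simp [h, ddExp, Real.exp_log (hd j), (hd j).ne', hf1]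
      rw [ContinuousLinearMap.comp_apply, fderiv_chi hι, h1, ex_lg hι hρ.1,
        fderiv_nrm (by simp [hρ1])]
      simp [hρ1, hV v hv]
  set Γ : E → E := fun x => H0 + jL ι (C x) with hΓ
  have hΓd : ∀ x, HasFDerivAt Γ ((jL ι).comp C) x := fun x =>
    ((jL ι).comp C).hasFDerivAt.const_add H0
  have hΨd : ∀ x v, fderiv ℝ (chi ι ∘ Γ) x v = fderiv ℝ (chi ι) (Γ x) (jL ι (C v)) :=
    fun x v => by
      rw [(((chi_cd hι (Γ x)).differentiableAt (by simp)).hasFDerivAt.comp x (hΓd x)).fderiv]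
      rfl
  have hΓ0 : Γ 0 = H0 := by simp [hΓ]
  refine admissible_of (trL_iff hι) hV (fun q hq => petz_pos hι hg hf hq.1)
    (Ψ := chi ι ∘ Γ) ((chi_cd hι _).comp 0 (contDiffAt_const.add
      ((jL ι).comp C).contDiff.contDiffAt)) (by simp [hΓ0, hχ0])
    (fun v hv => ?_) (Eventually.of_forall fun x => ⟨nrm_states hι (ex_posDef hι _), fun v => ?_⟩)
  · rw [hΨd, hΓ0]
    exact hCT v hv
  · obtain ⟨U', y, hU', hy⟩ := exists_Dg (herm_ι hι (Γ x))
    rw [hΨd, Function.comp, chi_D_iff hι hg hfs hpos hV hU' hy, ι_jL hι (hC v).1]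
    have h1 : ι (Γ x) = ι H0 + C x := by rw [hΓ, map_add, ι_jL hι (hC x).1]
    have h2 := Sch_comp_mem hU' (eRepS ι g ρ V) (fun i j => (y i - y j) * (y i - y j))
      (fun B hB => ?_) (fun t => wt f (√t)) (hC v)
    · simp only [Real.sqrt_mul_self_eq_abs, wt_abs hfs] at h2
      exact h2
    · rw [← Sch_Sch hU', ← lie_Dg hU', ← lie_Dg hU', ← hy, h1]
      have h3 := (hcom B hB).eq
      have h4 := (hcom _ (hC x)).eq
      have h5 : ⁅ι H0 + C x, ⁅ι H0 + C x, B⁆⁆ = ⁅⁅B, C x⁆, C x⁆ := by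
        simp only [Ring.lie_def]
        have e1 : ι H0 * (C x * B) = C x * B * ι H0 := by
          rw [← mul_assoc, h4, mul_assoc, h3, mul_assoc]
        have e2 : ι H0 * (B * C x) = B * C x * ι H0 := by
          rw [← mul_assoc, h3, mul_assoc, h4, mul_assoc]
        rw [add_mul _ _ B, mul_add B, h3, add_sub_add_left_eq_sub, add_mul, mul_sub, e1, e2]
        noncomm_ring
      rw [h5]
      exact hL B hB _ (hC x) _ (hC x)

theorem exists_K (hι : IsHermModel ι) (hg : IsPetz ι f g) (hf : ∀ t, 0 < t → 0 < f t)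
    (hfs : ∀ t, 0 < t → f t = t * f t⁻¹) {ρ : E} (hρ : (ι ρ).PosDef) (hsm : ContDiffAt ℝ ∞ g ρ) :
    ∃ K : E → E →L[ℝ] E, ContDiffAt ℝ ∞ K ρ ∧ ∀ (q : E) (U : Matrix n n ℂ) (d : n → ℝ),
      U * star U = 1 → ι q = Dg U d → (∀ i, 0 < d i) → ∀ a,
        ι (K q a) = Sch U (fun i j => d j * f (d i / d j)) (ι a) := by
  have : CompleteSpace E := FiniteDimensional.complete ℝ E
  let β : E →ₗ[ℝ] E →L[ℝ] ℝ :=
    { toFun := fun a => LinearMap.toContinuousLinearMap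
        (Complex.reLm ∘ₗ (Matrix.traceLinearMap n ℝ ℂ) ∘ₗ LinearMap.mulRight ℝ (ι a) ∘ₗ ι)
      map_add' := fun x y => by ext; simp [Matrix.mul_add]
      map_smul' := fun c x => by ext; simp }
  have hβ : β.ker = ⊥ := by
    rw [LinearMap.ker_eq_bot']
    intro a ha
    have h1 : (ι a * ι a).trace.re = 0 := congrArg (fun L : E →L[ℝ] ℝ => L a) ha
    have h2 : ((ι a)ᴴ * ι a).trace = 0 := by
      have h3 := (posSemidef_conjTranspose_mul_self (ι a)).trace_nonneg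
      rw [(herm_ι hι a).eq] at h3 ⊢
      exact Complex.ext h1 (Complex.nonneg_iff.1 h3).2.symm
    exact hι.1 (by rw [trace_conjTranspose_mul_self_eq_zero_iff.1 h2, map_zero])
  let Db : (E →L[ℝ] ℝ) →L[ℝ] E := LinearMap.toContinuousLinearMap β.leftInverse
  let Gm : E → E →L[ℝ] E := fun q => Db.comp (g q).flip
  have hGm : ContDiffAt ℝ ∞ Gm ρ := cdAt_clm' fun X =>
    Db.contDiff.contDiffAt.comp ρ (cd_flip hsm contDiffAt_const)
  have hGι : ∀ (q : E) (U : Matrix n n ℂ) (d : n → ℝ), U * star U = 1 → ι q = Dg U d →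
      (∀ i, 0 < d i) → ∀ X, ι (Gm q X) = Sch U (fun i j => (d j * f (d i / d j))⁻¹) (ι X) := by
    intro q U d hU hq hd X
    have h1 := ι_jL hι (Sch_herm hU (k := fun i j => (d j * f (d i / d j))⁻¹)
      (fun i j => by rw [m_symm hfs hd]) (herm_ι hι X))
    have h2 : (g q).flip X = β (jL ι (Sch U (fun i j => (d j * f (d i / d j))⁻¹) (ι X))) := by
      ext Y
      rw [ContinuousLinearMap.flip_apply, petz_rep hι hg hU hq hd]
      change _ = (ι Y * ι _).trace.re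
      rw [h1]
    change ι (β.leftInverse ((g q).flip X)) = _
    rw [h2, LinearMap.leftInverse_apply_of_inj hβ, h1]
  have hinv : ∀ q, (ι q).PosDef → (Gm q).IsInvertible := fun q hq => by
    obtain ⟨U, d, hU, hx, hd⟩ := exists_Dg_pos hq
    have hinj : Function.Injective (Gm q).toLinearMap := fun a b h =>
      hι.1 (Sch_inj hU (fun i j => inv_ne_zero (m_ne hf hd i j)) (by
        rw [← hGι q U d hU hx hd, ← hGι q U d hU hx hd]; exact congrArg ι h))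
    exact ⟨(LinearEquiv.ofInjectiveEndo _ hinj).toContinuousLinearEquiv, rfl⟩
  refine ⟨fun q => (Gm q).inverse, ContDiffAt.comp (g := ContinuousLinearMap.inverse) (f := Gm) ρ
    (hinv ρ hρ).contDiffAt_map_inverse hGm, fun q U d hU hq hd a => ?_⟩
  have h6 : Gm q ((Gm q).inverse a) = a :=
    ((hinv _ (hq ▸ (posDef_Dg hU d).2 hd)).inverse_apply_eq.1 rfl).symm
  conv_rhs => rw [← h6, hGι q U d hU hq hd, Sch_Sch hU]
  rw [Sch_congr (l := fun _ _ => 1) (fun i j => mul_inv_cancel₀ (m_ne hf hd i j)), Sch_one hU]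

theorem comm_nec (hι : IsHermModel ι) (hg : IsPetz ι f g) (hf : ∀ t, 0 < t → 0 < f t)
    (hfs : ∀ t, 0 < t → f t = t * f t⁻¹) (hf1 : f 1 = 1) {ε : ℝ} (hε : 0 < ε)
    (hinj : Set.InjOn (wt f) (Set.Ico 0 ε)) (hsm : ∀ q ∈ states ι, ContDiffAt ℝ ∞ g q) {ρ : E}
    (hρ : ρ ∈ states ι) {V : Submodule ℝ E} (hV : ∀ X ∈ V, trL ι X = 0)
    (hc : ∀ X ∈ V, Commute (ι ρ) (ι X)) (h : Admissible ι g ρ V) :
    IsLieTriple (eRep ι g ρ V) := by
  have := nonempty_of_states hρ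
  obtain ⟨N, hNs, hNm, hauto, hρN, hT⟩ := h
  obtain ⟨Φ, F, hρs, hΦ, hΦ', hN⟩ := hNm ρ hρN
  have hN1 : ∀ q ∈ N, trL ι q = 1 := fun q hq => nrm_of_states hι (hNs hq)
  have hA := tangent_eq_near (trL_iff hι) hN1 (fun q hq => hsm q (hNs hq))
    (fun q hq => petz_pos hι hg hf (hNs hq).1) hρs hΦ hΦ' hN hauto hρN hT
  obtain ⟨U, d, hU, hx, hd⟩ := exists_Dg_pos hρ.1
  have hρ1 := nrm_of_states hι hρ
  have hpos := petz_pos hι hg hf hρ.1
  set H0 := lg ι ρ with hH0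
  have hH0' : ι H0 = _ := (ι_lg_Dg hι hU hx hd).1
  have hcom : ∀ A ∈ eRep ι g ρ V, Commute (ι H0) A := fun A hA =>
    hH0' ▸ commute_Dg_comp hU (hx ▸ eRep_commute hι hg hf hfs hρ hV hc hA) Real.log
  have hχ0 : chi ι H0 = ρ := by rw [chi, ex_lg hι hρ.1, nrm, hρ1]; simp
  obtain ⟨K, hKcd, hK⟩ := exists_K hι hg hf hfs hρ.1 (hsm ρ hρ)
  set G : E → E →L[ℝ] E := fun q => K q - ((trL ι).comp (K q)).smulRight q with hG
  have hGcd : ContDiffAt ℝ ∞ G ρ := cdAt_clm' fun a =>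
    (hKcd.clm_apply contDiffAt_const).sub (((trL ι).contDiff.contDiffAt.comp ρ
      (hKcd.clm_apply contDiffAt_const)).smul contDiffAt_id)
  have hGn : ∀ q, trL ι q = 1 → ∀ a, G q a = fderiv ℝ (nrm ι) q (K q a) := fun q hq a => by
    rw [fderiv_nrm (by simp [hq])]
    simp [hq, hG]
  have hΓc : ContinuousAt (fun a => chi ι (H0 + a)) 0 :=
    ContinuousAt.comp (f := fun a => H0 + a) (chi_cd hι _).continuousAt (by fun_prop)
  have hstay := stay_in hρs hΦ hΦ' hN hρN hGcd (W := {a | ι a ∈ eRep ι g ρ V})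
    (by
      filter_upwards [hA, self_mem_nhdsWithin] with p hp hpN a ha
      obtain ⟨U', d', hU', hx', hd'⟩ := exists_Dg_pos (hNs hpN).1
      have h1 := nrm_D_iff hι hg hfs hpos hV hU' hx' hd' (K p a)
      rw [hK p U' d' hU' hx' hd', Sch_Sch hU', Sch_congr (l := fun _ _ => 1)
        (fun i j => inv_mul_cancel₀ (m_ne hf hd' i j)), Sch_one hU',
        show nrm ι p = p by simp [nrm, hN1 p hpN]] at h1
      rw [hp, hGn p (hN1 p hpN)]
      exact h1.2 ha)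
    hΓc (by simp [hχ0]) (by
      intro a ha t
      have hl : HasDerivAt (fun t : ℝ => H0 + t • a) a t := by
        simpa using ((hasDerivAt_id t).smul_const a).const_add H0
      refine (((chi_cd hι _).differentiableAt (by simp)).hasFDerivAt.comp_hasDerivAt t
        hl).congr_deriv ?_
      obtain ⟨U', y, hU', hy⟩ := exists_Dg (herm_ι hι (H0 + t • a))
      have hca : Commute (Dg U' y) (ι a) := by
        rw [← hy, map_add, map_smul]
        exact (hcom _ ha).add_left ((Commute.refl _).smul_left t)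
      set q := ex ι (H0 + t • a) with hq
      have hT := trL_pos (ex_posDef hι (H0 + t • a))
      rw [← hq] at hT
      have h1 : ι (nrm ι q) = Dg U' fun i => (trL ι q)⁻¹ * Real.exp (y i) := by
        rw [nrm, map_smul, ι_ex_Dg hι hU' hy, Dg_smul]
      have h2 : K (nrm ι q) a = (trL ι q)⁻¹ • fderiv ℝ (ex ι) (H0 + t • a) a := by
        apply hι.1
        rw [hK _ U' _ hU' h1 (fun i => by positivity), map_smul, ι_fderiv_ex hι hU' hy,
          ← Sch_const_mul hU']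
        refine Sch_of_commute hU' hca fun i j h => ?_
        rw [h, div_self (by positivity), hf1]
        simp [ddExp]
      rw [fderiv_chi hι, chi, ← hq, fderiv_nrm hT.ne']
      simp only [hG, _root_.sub_apply, ContinuousLinearMap.smulRight_apply,
        ContinuousLinearMap.comp_apply, h2, map_smul, smul_eq_mul]
      rw [nrm, smul_smul]
      congr 2
      ring)
  have hten : Tendsto (fun a => chi ι (H0 + a)) (𝓝 0) (𝓝 ρ) := by
    simpa [hχ0] using hΓc.tendsto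
  have hev := (eventually_eventually_nhds.2 hstay).and
    (hten.eventually (eventually_nhdsWithin_iff.1 hA))
  refine lieTriple_of_sq (𝒜 := eRepS ι g ρ V) fun A hA B hB => ?_
  obtain ⟨U', c, hU', hAc⟩ := exists_Dg hA.1
  have hs1 : Tendsto (fun s : ℝ => s • jL ι A) (𝓝 0) (𝓝 0) := by
    have : Continuous fun s : ℝ => s • jL ι A := by fun_prop
    simpa using this.tendsto 0
  have hs2 : ∀ᶠ s : ℝ in 𝓝 0, ∀ ij : n × n, |s * c ij.1 - s * c ij.2| < ε := by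
    refine eventually_all.2 fun ij => ?_
    have : ContinuousAt (fun s : ℝ => |s * c ij.1 - s * c ij.2|) 0 := by fun_prop
    exact this.eventually (gt_mem_nhds (by simpa using hε))
  obtain ⟨s, ⟨⟨h1, h2⟩, h3⟩, hs0⟩ := (((hs1.eventually hev).and hs2).filter_mono
    (nhdsWithin_le_nhds (s := {0}ᶜ))).and self_mem_nhdsWithin |>.exists
  set a := s • jL ι A with ha
  have hιa : ι a = s • A := by rw [ha, map_smul, ι_jL hι hA.1]
  have haA : ι a ∈ eRepS ι g ρ V := hιa ▸ (eRepS ι g ρ V).smul_mem s hA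
  have haD : ι a = Dg U' fun i => s * c i := by rw [hιa, hAc, Dg_smul]
  obtain ⟨U1, y, hU1, hy⟩ := exists_Dg (herm_ι hι (H0 + a))
  have hinv : ∀ B ∈ eRepS ι g ρ V,
      Sch U' (fun i j => wt f (s * c i - s * c j)) B ∈ eRepS ι g ρ V := by
    intro B hB
    have hl : HasDerivAt (fun t : ℝ => a + t • jL ι B) (jL ι B) 0 := by
      simpa using ((hasDerivAt_id (0 : ℝ)).smul_const (jL ι B)).const_add a
    have htan : fderiv ℝ (chi ι) (H0 + a) (jL ι B) ∈ tangent N (chi ι (H0 + a)) := by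
      refine ⟨fun t => chi ι (H0 + (a + t • jL ι B)), by simp, ?_, ?_⟩
      · have h4 : Tendsto (fun t : ℝ => a + t • jL ι B) (𝓝 0) (𝓝 a) := by
          simpa using hl.continuousAt.tendsto
        filter_upwards [h4.eventually h1] with t ht
        refine ht ?_
        change ι _ ∈ eRepS ι g ρ V
        rw [map_add, map_smul ι t, ι_jL hι hB.1]
        exact add_mem haA ((eRepS ι g ρ V).smul_mem t hB)
      · have := HasFDerivAt.comp_hasDerivAt_of_eq (0 : ℝ)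
          ((chi_cd hι (H0 + a)).differentiableAt (by simp)).hasFDerivAt (hl.const_add H0) (by simp)
        exact this
    rw [h2 (h1.self_of_nhds haA), SetLike.mem_coe, chi_D_iff hι hg hfs hpos hV hU1 hy,
      ι_jL hι hB.1] at htan
    rw [← Sch_transfer hU1 hU' (fun B => Commute (ι H0) B) (fun i j => y i - y j) _
      (fun C hC => ?_) (wt f) (hcom B hB)]
    · exact htan
    · rw [← lie_Dg hU1, ← lie_Dg hU', ← hy, ← haD, map_add]
      have e1 : ⁅ι H0 + ι a, C⁆ = ⁅ι a, C⁆ := by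
        simp only [Ring.lie_def]
        rw [add_mul, mul_add, hC.eq, add_sub_add_left_eq_sub]
      rw [e1, Ring.lie_def]
      exact ⟨rfl, ((hcom _ haA).mul_right hC).sub_right (hC.mul_right (hcom _ haA))⟩
  have h5 := Sch_comp_mem hU' _ _ hinv
    (fun y => (Function.invFunOn (wt f) (Set.Ico 0 ε) y) ^ 2) hB
  have h6 : ∀ i j, (Function.invFunOn (wt f) (Set.Ico 0 ε) (wt f (s * c i - s * c j))) ^ 2 =
      s ^ 2 * ((c i - c j) * (c i - c j)) := fun i j => by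
    rw [← wt_abs hfs, hinj.leftInvOn_invFunOn ⟨abs_nonneg _, h3 (i, j)⟩, sq_abs]
    ring
  rw [Sch_congr h6, Sch_const_mul hU', ← Sch_Sch hU', ← lie_Dg hU', ← lie_Dg hU', ← hAc] at h5
  exact ((eRepS ι g ρ V).smul_mem_iff (pow_ne_zero 2 hs0)).1 h5

theorem comm_iff {E : Type} [NormedAddCommGroup E] [NormedSpace ℝ E]
    {ι : E →ₗ[ℝ] Matrix n n ℂ} {g : E → E →L[ℝ] E →L[ℝ] ℝ} (hι : IsHermModel ι)
    (hf : ∀ t, 0 < t → 0 < f t) (hfs : ∀ t, 0 < t → f t = t * f t⁻¹) (hf1 : f 1 = 1)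
    (hfa : AnalyticAt ℝ f 1) (hne : ¬ ∀ᶠ t in 𝓝[≠] (1 : ℝ), f t = (t - 1) / Real.log t)
    (hg : IsPetz ι f g) (hsm : ∀ q ∈ states ι, ContDiffAt ℝ ∞ g q) {ρ : E} (hρ : ρ ∈ states ι)
    {V : Submodule ℝ E} (hV : ∀ X ∈ V, (ι X).trace = 0) (hc : ∀ X ∈ V, Commute (ι ρ) (ι X)) :
    Admissible ι g ρ V ↔ IsLieTriple (eRep ι g ρ V) := by
  have : FiniteDimensional ℝ E := FiniteDimensional.of_injective ι hι.1
  have hV' : ∀ X ∈ V, trL ι X = 0 := fun X hX => (trL_iff hι X).1 (hV X hX)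
  obtain ⟨ε, hε, hinj⟩ := wt_injOn hf1 hfa hne
  exact ⟨comm_nec hι hg hf hfs hf1 hε hinj hsm hρ hV' hc, comm_suf hι hg hf hfs hf1 hρ hV' hc⟩

end Pool.Agent.Work.MP_2482e4_mp
end
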