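import Mathlib

open scoped Topology ContDiff ComplexOrder

namespace Pool.Agent.Work.MP_2482e4_mp

section
variable {E : Type} [NormedAddCommGroup E] [NormedSpace ℝ E]

/-- `N` is an embedded smooth submanifold of `E`: near each of its points a local
diffeomorphism of `E` carries it to a linear subspace. -/
def IsSubmanifold (N : Set E) : Prop :=
  ∀ p ∈ N, ∃ (Φ : OpenPartialHomeomorph E E) (F : Submodule ℝ E), p ∈ Φ.source ∧
    ContDiffOn ℝ ∞ Φ Φ.source ∧ ContDiffOn ℝ ∞ Φ.symm Φ.target ∧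
    ∀ q ∈ Φ.source, q ∈ N ↔ Φ q ∈ F

/-- The tangent space of `N` at `p`: velocities at `p` of curves in `N`. -/
def tangent (N : Set E) (p : E) : Set E :=
  {v | ∃ γ : ℝ → E, γ 0 = p ∧ (∀ᶠ t in 𝓝 (0 : ℝ), γ t ∈ N) ∧ HasDerivAt γ v 0}

/-- The vector field `X` is tangent to `N` at the points of `N` near `p`. -/
def TangentTo (N : Set E) (p : E) (X : E → E) : Prop :=
  ∀ᶠ q in 𝓝[N] p, X q ∈ tangent N q

variable {n : Type} [Fintype n] [DecidableEq n]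

/-- `ι` identifies `E` with the real vector space of Hermitian matrices. -/
def IsHermModel (ι : E →ₗ[ℝ] Matrix n n ℂ) : Prop :=
  Function.Injective ι ∧ ∀ A : Matrix n n ℂ, A.IsHermitian ↔ ∃ x, ι x = A

/-- Strictly positive density matrices. -/
def states (ι : E →ₗ[ℝ] Matrix n n ℂ) : Set E :=
  {q | (ι q).PosDef ∧ (ι q).trace = 1}

/-- A smooth vector field near `p` with traceless values. -/
def IsField (ι : E →ₗ[ℝ] Matrix n n ℂ) (p : E) (X : E → E) : Prop :=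
  ContDiffAt ℝ ∞ X p ∧ ∀ᶠ q in 𝓝 p, (ι (X q)).trace = 0

/-- `W` is the value at `p` of the covariant derivative `∇^(e)_X Z`, defined by duality with the
flat connection: `X g(Y, Z) = g(∇^(m)_X Y, Z) + g(Y, W)` at `p` for all vector fields `Y`. -/
def IsEDeriv (ι : E →ₗ[ℝ] Matrix n n ℂ) (g : E → E →L[ℝ] E →L[ℝ] ℝ) (p : E) (X Z : E → E)
    (W : E) : Prop :=
  (ι W).trace = 0 ∧ ∀ Y, IsField ι p Y →
    fderiv ℝ (fun q => g q (Y q) (Z q)) p (X p) = g p (fderiv ℝ Y p (X p)) (Z p) + g p (Y p) W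

/-- `N` is autoparallel for `∇^(e)`. -/
def IsEAutoparallel (ι : E →ₗ[ℝ] Matrix n n ℂ) (g : E → E →L[ℝ] E →L[ℝ] ℝ) (N : Set E) : Prop :=
  ∀ p ∈ N, ∀ X Z : E → E, IsField ι p X → IsField ι p Z → TangentTo N p X → TangentTo N p Z →
    ∀ W, IsEDeriv ι g p X Z W → W ∈ tangent N p

/-- There is an autoparallel submanifold of the state space through `ρ` with tangent space `V`. -/
def Admissible (ι : E →ₗ[ℝ] Matrix n n ℂ) (g : E → E →L[ℝ] E →L[ℝ] ℝ) (ρ : E)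
    (V : Submodule ℝ E) : Prop :=
  ∃ N : Set E, N ⊆ states ι ∧ IsSubmanifold N ∧ IsEAutoparallel ι g N ∧ ρ ∈ N ∧ tangent N ρ = V

/-- The value `∑ i j, Re (conj X_ij * Y_ij) / (d_j f (d_i / d_j))`. -/
noncomputable def petzSum (f : ℝ → ℝ) (d : n → ℝ) (X Y : Matrix n n ℂ) : ℝ :=
  ∑ i, ∑ j, ((starRingEnd ℂ) (X i j) * Y i j).re / (d j * f (d i / d j))

/-- `g` is the metric attached to `f` in the Petz classification: in an orthonormal eigenbasis of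
the base point with eigenvalues `d`, it is given by `petzSum f d`. -/
def IsPetz (ι : E →ₗ[ℝ] Matrix n n ℂ) (f : ℝ → ℝ) (g : E → E →L[ℝ] E →L[ℝ] ℝ) : Prop :=
  ∀ (q X Y : E) (U : Matrix n n ℂ) (d : n → ℝ), U * star U = 1 → (∀ i, 0 < d i) →
    ι q = U * Matrix.diagonal (fun i => (d i : ℂ)) * star U →
    g q X Y = petzSum f d (star U * ι X * U) (star U * ι Y * U)

/-- The `e`-representations (modulo scalars) of the vectors of `V` at `ρ`: Hermitian `A` with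
`g_ρ(Y, X) = Re tr (Y A)` for all traceless `Y`, for some `X ∈ V`. -/
def eRep (ι : E →ₗ[ℝ] Matrix n n ℂ) (g : E → E →L[ℝ] E →L[ℝ] ℝ) (ρ : E) (V : Submodule ℝ E) :
    Set (Matrix n n ℂ) :=
  {A | A.IsHermitian ∧ ∃ X ∈ V, ∀ Y, (ι Y).trace = 0 → g ρ Y X = (ι Y * A).trace.re}

/-- A Lie triple system of matrices: closed under `[[A, B], C]`. -/
def IsLieTriple (𝒜 : Set (Matrix n n ℂ)) : Prop :=
  ∀ A ∈ 𝒜, ∀ B ∈ 𝒜, ∀ C ∈ 𝒜, ⁅⁅A, B⁆, C⁆ ∈ 𝒜

end

/-- `f_κ (t) = (κ / 2) (t - 1) (t ^ κ + 1) / (t ^ κ - 1)`, with `f_κ (1) = 1`. -/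
noncomputable def fKappa (κ t : ℝ) : ℝ :=
  if t = 1 then 1 else κ / 2 * (t - 1) * (t ^ κ + 1) / (t ^ κ - 1)

end Pool.Agent.Work.MP_2482e4_mp
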