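import Pool.Agent.Work.MP_2482e4_mp.Defs

namespace Pool.Agent.Work.MP_2482e4_mp

/-- `f (t) = 2 κ (t - 1) t ^ κ / (t ^ (2 κ) - 1)`, with `f (1) = 1`. -/
noncomputable def fHarm (κ t : ℝ) : ℝ :=
  if t = 1 then 1 else 2 * κ * (t - 1) * t ^ κ / (t ^ (2 * κ) - 1)

/-- The Hermitian matrices `B` with `S B S⁻¹ + S⁻¹ B S ∈ 𝒜`. -/
def twist {n : Type} [Fintype n] [DecidableEq n] (S : Matrix n n ℂ) (𝒜 : Set (Matrix n n ℂ)) :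
    Set (Matrix n n ℂ) :=
  {B | B.IsHermitian ∧ S * B * S⁻¹ + S⁻¹ * B * S ∈ 𝒜}

end Pool.Agent.Work.MP_2482e4_mp
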