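import Pool.Agent.Work.MP_2482e4_mp.Defs

-- merged part: Pool.Agent.Work.MP_2482e4_mp.Sch
section
open scoped ComplexOrder
open Matrix NormedSpace

namespace Pool.Agent.Work.MP_2482e4_mp

variable {n : Type} [Fintype n] [DecidableEq n]

/-- The matrix with eigenbasis `U` and eigenvalues `d`. -/
def Dg (U : Matrix n n ℂ) (d : n → ℝ) : Matrix n n ℂ :=
  U * Matrix.diagonal (fun i => (d i : ℂ)) * star U

/-- Schur multiplier in the basis `U`. -/
def Sch (U : Matrix n n ℂ) (k : n → n → ℝ) : Matrix n n ℂ →ₗ[ℂ] Matrix n n ℂ where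
  toFun B := U * Matrix.of (fun i j => (k i j : ℂ) * (star U * B * U) i j) * star U
  map_add' A B := by
    rw [← Matrix.add_mul, ← Matrix.mul_add]
    congr 2
    ext i j
    simp [Matrix.mul_add, Matrix.add_mul, mul_add]
  map_smul' c B := by
    rw [RingHom.id_apply, ← Matrix.smul_mul, ← Matrix.mul_smul]
    congr 2
    ext i j
    simp [mul_left_comm]

variable {U : Matrix n n ℂ}

theorem Sch_apply (k : n → n → ℝ) (B : Matrix n n ℂ) :
    Sch U k B = U * Matrix.of (fun i j => (k i j : ℂ) * (star U * B * U) i j) * star U := rfl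

theorem unit_comm (hU : U * star U = 1) : star U * U = 1 := mul_eq_one_comm.1 hU

theorem conj_back (hU : U * star U = 1) (B : Matrix n n ℂ) : U * (star U * B * U) * star U = B := by
  calc _ = (U * star U) * B * (U * star U) := by simp only [Matrix.mul_assoc]
    _ = B := by simp [hU]

theorem conj_back' (hU : U * star U = 1) (B : Matrix n n ℂ) :
    star U * (U * B * star U) * U = B := by
  calc _ = (star U * U) * B * (star U * U) := by simp only [Matrix.mul_assoc]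
    _ = B := by simp [unit_comm hU]

theorem conj_Sch (hU : U * star U = 1) (k : n → n → ℝ) (B : Matrix n n ℂ) (i j : n) :
    (star U * Sch U k B * U) i j = k i j * (star U * B * U) i j := by
  rw [Sch_apply, conj_back' hU]; rfl

theorem conj_ext (hU : U * star U = 1) {A B : Matrix n n ℂ}
    (h : ∀ i j, (star U * A * U) i j = (star U * B * U) i j) : A = B := by
  rw [← conj_back hU A, ← conj_back hU B, Matrix.ext h]

theorem conj_mul (hU : U * star U = 1) (A B : Matrix n n ℂ) :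
    star U * (A * B) * U = (star U * A * U) * (star U * B * U) := by
  calc _ = star U * A * (U * star U) * B * U := by simp only [hU, Matrix.mul_assoc, Matrix.one_mul]
    _ = _ := by simp only [Matrix.mul_assoc]

theorem conj_Dg (hU : U * star U = 1) (d : n → ℝ) :
    star U * Dg U d * U = Matrix.diagonal (fun i => (d i : ℂ)) := conj_back' hU _

theorem Sch_Sch (hU : U * star U = 1) (k l : n → n → ℝ) (B : Matrix n n ℂ) :
    Sch U k (Sch U l B) = Sch U (fun i j => k i j * l i j) B :=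
  conj_ext hU fun i j => by simp [conj_Sch hU, mul_assoc]

theorem Sch_one (hU : U * star U = 1) (B : Matrix n n ℂ) : Sch U (fun _ _ => 1) B = B :=
  conj_ext hU fun i j => by simp [conj_Sch hU]

theorem Sch_congr {k l : n → n → ℝ} (h : ∀ i j, k i j = l i j) (B : Matrix n n ℂ) :
    Sch U k B = Sch U l B := by rw [show k = l from funext fun i => funext (h i)]

theorem Sch_add (hU : U * star U = 1) (k l : n → n → ℝ) (B : Matrix n n ℂ) :
    Sch U (fun i j => k i j + l i j) B = Sch U k B + Sch U l B :=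
  conj_ext hU fun i j => by simp [conj_Sch hU, Matrix.mul_add, Matrix.add_mul, add_mul]

theorem Sch_sub (hU : U * star U = 1) (k l : n → n → ℝ) (B : Matrix n n ℂ) :
    Sch U (fun i j => k i j - l i j) B = Sch U k B - Sch U l B :=
  conj_ext hU fun i j => by simp [conj_Sch hU, Matrix.mul_sub, Matrix.sub_mul, sub_mul]

theorem Sch_const_mul (hU : U * star U = 1) (c : ℝ) (k : n → n → ℝ) (B : Matrix n n ℂ) :
    Sch U (fun i j => c * k i j) B = c • Sch U k B :=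
  conj_ext hU fun i j => by
    rw [Matrix.mul_smul, Matrix.smul_mul, Matrix.smul_apply, conj_Sch hU, conj_Sch hU]
    simp [mul_assoc]

theorem Sch_real_smul (k : n → n → ℝ) (c : ℝ) (B : Matrix n n ℂ) :
    Sch U k (c • B) = c • Sch U k B := (Sch U k).map_smul_of_tower c B

theorem Dg_mul (hU : U * star U = 1) (d : n → ℝ) (B : Matrix n n ℂ) :
    Dg U d * B = Sch U (fun i _ => d i) B :=
  conj_ext hU fun i j => by rw [conj_mul hU, conj_Dg hU, conj_Sch hU, diagonal_mul]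

theorem mul_Dg (hU : U * star U = 1) (d : n → ℝ) (B : Matrix n n ℂ) :
    B * Dg U d = Sch U (fun _ j => d j) B :=
  conj_ext hU fun i j => by rw [conj_mul hU, conj_Dg hU, conj_Sch hU, mul_diagonal, mul_comm]

theorem lie_Dg (hU : U * star U = 1) (d : n → ℝ) (B : Matrix n n ℂ) :
    ⁅Dg U d, B⁆ = Sch U (fun i j => d i - d j) B := by
  rw [Ring.lie_def, Dg_mul hU, mul_Dg hU, Sch_sub hU]

theorem Sch_Dg (hU : U * star U = 1) (k : n → n → ℝ) (d : n → ℝ) :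
    Sch U k (Dg U d) = Dg U (fun i => k i i * d i) :=
  conj_ext hU fun i j => by
    rw [conj_Sch hU, conj_Dg hU, conj_Dg hU]
    by_cases h : i = j
    · subst h; simp
    · simp [h]

theorem Dg_one (hU : U * star U = 1) : Dg U (fun _ => 1) = 1 := by simp [Dg, hU]

theorem Dg_smul (c : ℝ) (d : n → ℝ) : Dg U (fun i => c * d i) = c • Dg U d := by
  rw [Dg, Dg, ← Matrix.smul_mul, ← Matrix.mul_smul]
  congr 2
  ext i j
  by_cases h : i = j
  · subst h; simp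
  · simp [h]

theorem star_Sch (hU : U * star U = 1) (k : n → n → ℝ) (B : Matrix n n ℂ) :
    star (Sch U k B) = Sch U (fun i j => k j i) (star B) :=
  conj_ext hU fun i j => by
    have h : ∀ A : Matrix n n ℂ, (star U * star A * U) i j = star ((star U * A * U) j i) := by
      intro A
      rw [← Matrix.star_apply, star_mul, star_mul, star_star, Matrix.mul_assoc]
    rw [conj_Sch hU, h, h, conj_Sch hU]
    simp

theorem Sch_herm (hU : U * star U = 1) {k : n → n → ℝ} (hk : ∀ i j, k i j = k j i)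
    {B : Matrix n n ℂ} (hB : B.IsHermitian) : (Sch U k B).IsHermitian := by
  change star (Sch U k B) = _
  rw [star_Sch hU, show star B = B from hB]
  exact Sch_congr (fun i j => hk j i) B

theorem Dg_herm (d : n → ℝ) : (Dg U d).IsHermitian := by
  change star (Dg U d) = _
  simp only [Dg, star_mul, star_star, Matrix.mul_assoc]
  congr 2
  change (diagonal _)ᴴ = _
  simp [diagonal_conjTranspose]

theorem Sch_inj (hU : U * star U = 1) {k : n → n → ℝ} (hk : ∀ i j, k i j ≠ 0) {A B : Matrix n n ℂ}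
    (h : Sch U k A = Sch U k B) : A = B := by
  have h1 : ∀ C, Sch U (fun i j => (k i j)⁻¹) (Sch U k C) = C := fun C => by
    rw [Sch_Sch hU, Sch_congr (l := fun _ _ => 1) (fun i j => inv_mul_cancel₀ (hk i j)), Sch_one hU]
  rw [← h1 A, h, h1]

theorem trace_Sch (hU : U * star U = 1) (k : n → n → ℝ) {Y : Matrix n n ℂ} (hY : Y.IsHermitian)
    (X : Matrix n n ℂ) : (Y * Sch U k X).trace.re =
      ∑ i, ∑ j, k i j * ((starRingEnd ℂ) ((star U * Y * U) i j) * (star U * X * U) i j).re := by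
  have h1 : (Y * Sch U k X).trace = (star U * (Y * Sch U k X) * U).trace := by
    rw [trace_mul_comm _ U, ← Matrix.mul_assoc, hU, Matrix.one_mul]
  have h2 : (star U * Y * U).IsHermitian := isHermitian_conjTranspose_mul_mul U hY
  rw [h1, conj_mul hU, trace_mul_comm, Matrix.trace, Complex.re_sum]
  refine Finset.sum_congr rfl fun i _ => ?_
  rw [diag_apply, mul_apply, Complex.re_sum]
  refine Finset.sum_congr rfl fun j _ => ?_
  rw [conj_Sch hU, ← h2.apply j i, mul_assoc, Complex.re_ofReal_mul, mul_comm (_ : ℂ)]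
  rfl

theorem Sch_comp_mem (hU : U * star U = 1) (W : Submodule ℝ (Matrix n n ℂ)) (μ : n → n → ℝ)
    (hW : ∀ B ∈ W, Sch U μ B ∈ W) (φ : ℝ → ℝ) {B : Matrix n n ℂ} (hB : B ∈ W) :
    Sch U (fun i j => φ (μ i j)) B ∈ W := by
  classical
  have h1 : ∀ p : Polynomial ℝ, Sch U (fun i j => p.eval (μ i j)) B ∈ W := by
    intro p
    induction p using Polynomial.induction_on with
    | C a =>
      have := Sch_const_mul hU a (fun _ _ => 1) B
      simp only [mul_one, Sch_one hU] at this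
      simp only [Polynomial.eval_C, this]
      exact W.smul_mem _ hB
    | add p q hp hq =>
      simp only [Polynomial.eval_add, Sch_add hU]
      exact W.add_mem hp hq
    | monomial m a ih =>
      have := hW _ ih
      rw [Sch_Sch hU] at this
      rw [Sch_congr (l := fun i j => μ i j * (Polynomial.C a * Polynomial.X ^ m).eval (μ i j))
        fun i j => by simp; ring]
      exact this
  set s : Finset ℝ := Finset.univ.image fun ij : n × n => μ ij.1 ij.2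
  have h2 := h1 (Lagrange.interpolate s id φ)
  have h3 : ∀ i j, (Lagrange.interpolate s id φ).eval (μ i j) = φ (μ i j) := fun i j =>
    Lagrange.eval_interpolate_at_node (s := s) (v := id) φ (Set.injOn_id _)
      (Finset.mem_image.2 ⟨(i, j), Finset.mem_univ _, rfl⟩)
  simpa only [h3] using h2

theorem exists_Dg {A : Matrix n n ℂ} (hA : A.IsHermitian) :
    ∃ (U : Matrix n n ℂ) (d : n → ℝ), U * star U = 1 ∧ A = Dg U d :=
  ⟨hA.eigenvectorUnitary, hA.eigenvalues, Unitary.coe_mul_star_self _, hA.spectral_theorem⟩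

theorem posDef_Dg (hU : U * star U = 1) (d : n → ℝ) : (Dg U d).PosDef ↔ ∀ i, 0 < d i := by
  have hu : IsUnit U := ⟨⟨U, star U, hU, unit_comm hU⟩, rfl⟩
  rw [Dg, hu.posDef_star_right_conjugate_iff, posDef_diagonal_iff]
  simp

theorem exp_Dg (hU : U * star U = 1) (d : n → ℝ) :
    exp (Dg U d) = Dg U (fun i => Real.exp (d i)) := by
  have := Matrix.exp_units_conj ⟨U, star U, hU, unit_comm hU⟩ (diagonal fun i => (d i : ℂ))
  have h2 : exp (fun i => (d i : ℂ)) = fun i => (Real.exp (d i) : ℂ) := by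
    funext i
    rw [Pi.coe_exp, ← Complex.exp_eq_exp_ℂ, Complex.ofReal_exp]
  rw [Matrix.exp_diagonal, h2] at this
  exact this

/-- Divided differences of the exponential. -/
noncomputable def ddExp (x y : ℝ) : ℝ :=
  if x = y then Real.exp x else (Real.exp x - Real.exp y) / (x - y)

theorem ddExp_pos (x y : ℝ) : 0 < ddExp x y := by
  unfold ddExp
  split_ifs with h
  · positivity
  · rcases lt_or_gt_of_ne h with h | h
    · exact div_pos_of_neg_of_neg (sub_neg.2 (Real.exp_lt_exp.2 h)) (sub_neg.2 h)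
    · exact div_pos (sub_pos.2 (Real.exp_lt_exp.2 h)) (sub_pos.2 h)

theorem ddExp_comm (x y : ℝ) : ddExp x y = ddExp y x := by
  unfold ddExp
  by_cases h : x = y
  · simp [h]
  · rw [if_neg h, if_neg (Ne.symm h), ← neg_sub (Real.exp y), ← neg_sub y, neg_div_neg_eq]

section
open scoped Matrix.Norms.L2Operator

theorem fderiv_exp_commute {H Z : Matrix n n ℂ} (h : Commute H Z) :
    fderiv ℂ exp H Z = exp H * Z := by
  have h1 : HasDerivAt (fun t : ℂ => H + t • Z) Z 0 := by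
    simpa using ((hasDerivAt_id (0 : ℂ)).smul_const Z).const_add H
  have h2 := HasFDerivAt.comp_hasDerivAt_of_eq (0 : ℂ)
    (exp_analytic (𝕂 := ℂ) H).differentiableAt.hasFDerivAt h1 (by simp)
  have h3 : HasDerivAt (fun t : ℂ => exp H * exp (t • Z)) (exp H * (exp ((0 : ℂ) • Z) * Z)) 0 :=
    (hasDerivAt_exp_smul_const Z (0 : ℂ)).const_mul _
  have h4 : (exp ∘ fun t : ℂ => H + t • Z) = fun t : ℂ => exp H * exp (t • Z) := by
    funext t
    exact Matrix.exp_add_of_commute _ _ (h.smul_right t)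
  rw [h4] at h2
  simpa using h2.unique h3

theorem fderiv_exp_lie (H Y : Matrix n n ℂ) :
    fderiv ℂ exp H (Y * H - H * Y) = Y * exp H - exp H * Y := by
  have h1 : ∀ A : Matrix n n ℂ, HasDerivAt (fun t : ℂ => exp (t • Y) * A * exp (t • -Y))
      (Y * A - A * Y) 0 := fun A => by
    have := ((hasDerivAt_exp_smul_const Y (0 : ℂ)).mul_const A).mul
      (hasDerivAt_exp_smul_const (-Y) (0 : ℂ))
    refine HasDerivAt.congr_deriv this ?_
    simp [sub_eq_add_neg]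
  have h2 := HasFDerivAt.comp_hasDerivAt_of_eq (0 : ℂ)
    (exp_analytic (𝕂 := ℂ) H).differentiableAt.hasFDerivAt (h1 H) (by simp)
  have h4 : (exp ∘ fun t : ℂ => exp (t • Y) * H * exp (t • -Y)) =
      fun t : ℂ => exp (t • Y) * exp H * exp (t • -Y) := by
    funext t
    simp only [Function.comp, smul_neg, Matrix.exp_neg]
    exact Matrix.exp_conj _ _ (Matrix.isUnit_exp _)
  rw [h4] at h2
  exact h2.unique (h1 _)

theorem fderiv_exp_Dg (hU : U * star U = 1) (x : n → ℝ) (B : Matrix n n ℂ) :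
    fderiv ℂ exp (Dg U x) B = Sch U (fun i j => ddExp (x i) (x j)) B := by
  set B0 := Sch U (fun i j => if x i = x j then 1 else 0) B
  set Y := Sch U (fun i j => (x j - x i)⁻¹) B
  have h0 : Commute (Dg U x) B0 := by
    change _ * _ = _ * _
    rw [Dg_mul hU, mul_Dg hU, Sch_Sch hU, Sch_Sch hU]
    exact Sch_congr (fun i j => by by_cases h : x i = x j <;> simp [h]) B
  have h1 : B = B0 + (Y * Dg U x - Dg U x * Y) := by
    rw [Dg_mul hU, mul_Dg hU, Sch_Sch hU, Sch_Sch hU, ← Sch_sub hU, ← Sch_add hU]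
    conv_lhs => rw [← Sch_one hU B]
    refine Sch_congr (fun i j => ?_) B
    by_cases h : x i = x j
    · simp [h]
    · have : x j - x i ≠ 0 := sub_ne_zero.2 (Ne.symm h)
      simp only [h, if_false]
      field_simp
      ring
  conv_lhs => rw [h1]
  rw [map_add, fderiv_exp_commute h0, fderiv_exp_lie, exp_Dg hU, Dg_mul hU, Dg_mul hU, mul_Dg hU,
    Sch_Sch hU, Sch_Sch hU, Sch_Sch hU, ← Sch_sub hU, ← Sch_add hU]
  refine Sch_congr (fun i j => ?_) B
  by_cases h : x i = x j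
  · simp [h, ddExp]
  · have : x j - x i ≠ 0 := sub_ne_zero.2 (Ne.symm h)
    have : x i - x j ≠ 0 := sub_ne_zero.2 h
    simp only [h, if_false, ddExp]
    field_simp
    ring

end

end Pool.Agent.Work.MP_2482e4_mp
end

-- merged part: Pool.Agent.Work.MP_2482e4_mp.ExpLog
section
open scoped ComplexOrder Topology ContDiff Matrix.Norms.L2Operator
open Matrix NormedSpace Filter

namespace Pool.Agent.Work.MP_2482e4_mp

variable {E : Type} [NormedAddCommGroup E] [NormedSpace ℝ E] [FiniteDimensional ℝ E]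
variable {n : Type} [Fintype n] [DecidableEq n]

/-- `ι` as a continuous map. -/
noncomputable def iL (ι : E →ₗ[ℝ] Matrix n n ℂ) : E →L[ℝ] Matrix n n ℂ :=
  LinearMap.toContinuousLinearMap ι

/-- A left inverse of `ι`. -/
noncomputable def jL (ι : E →ₗ[ℝ] Matrix n n ℂ) : Matrix n n ℂ →L[ℝ] E :=
  LinearMap.toContinuousLinearMap ι.leftInverse

/-- The trace as a real functional. -/
noncomputable def trL (ι : E →ₗ[ℝ] Matrix n n ℂ) : E →L[ℝ] ℝ :=
  LinearMap.toContinuousLinearMap (Complex.reLm ∘ₗ (Matrix.traceLinearMap n ℝ ℂ) ∘ₗ ι)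

/-- The exponential on `E`. -/
noncomputable def ex (ι : E →ₗ[ℝ] Matrix n n ℂ) (x : E) : E := jL ι (exp (ι x))

/-- The logarithm on `E`. -/
noncomputable def lg (ι : E →ₗ[ℝ] Matrix n n ℂ) : E → E := Function.invFun (ex ι)

variable {ι : E →ₗ[ℝ] Matrix n n ℂ} {U : Matrix n n ℂ}

@[simp] theorem iL_apply (x : E) : iL ι x = ι x := rfl

theorem trL_apply (x : E) : trL ι x = (ι x).trace.re := rfl

omit [FiniteDimensional ℝ E] [Fintype n] [DecidableEq n] in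
theorem herm_ι (hι : IsHermModel ι) (x : E) : (ι x).IsHermitian := (hι.2 _).2 ⟨x, rfl⟩

theorem jL_ι (hι : IsHermModel ι) (x : E) : jL ι (ι x) = x :=
  LinearMap.leftInverse_apply_of_inj (LinearMap.ker_eq_bot.2 hι.1) x

theorem ι_jL (hι : IsHermModel ι) {A : Matrix n n ℂ} (hA : A.IsHermitian) : ι (jL ι A) = A := by
  obtain ⟨x, rfl⟩ := (hι.2 A).1 hA
  rw [jL_ι hι]

theorem trace_ι (hι : IsHermModel ι) (x : E) : (ι x).trace = trL ι x := by
  rw [trL_apply]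
  have h : star (ι x).trace = (ι x).trace := by
    rw [← trace_conjTranspose, (herm_ι hι x).eq]
  exact (Complex.conj_eq_iff_re.1 h).symm

theorem trL_iff (hι : IsHermModel ι) (x : E) : (ι x).trace = 0 ↔ trL ι x = 0 := by
  rw [trace_ι hι]; exact Complex.ofReal_eq_zero

theorem ι_ex (hι : IsHermModel ι) (x : E) : ι (ex ι x) = exp (ι x) :=
  ι_jL hι (herm_ι hι x).exp

theorem ι_ex_Dg (hι : IsHermModel ι) (hU : U * star U = 1) {x : E} {d : n → ℝ}
    (hx : ι x = Dg U d) : ι (ex ι x) = Dg U (fun i => Real.exp (d i)) := by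
  rw [ι_ex hι, hx, exp_Dg hU]

theorem ex_posDef (hι : IsHermModel ι) (x : E) : (ι (ex ι x)).PosDef := by
  obtain ⟨U, d, hU, hx⟩ := exists_Dg (herm_ι hι x)
  rw [ι_ex_Dg hι hU hx, posDef_Dg hU]
  exact fun i => Real.exp_pos _

theorem exp_ι_cd (x : E) : ContDiffAt ℝ ω (fun y => exp (ι y)) x :=
  (exp_analytic (𝕂 := ℝ) (iL ι x)).contDiffAt.comp x (iL ι).contDiff.contDiffAt

theorem ex_cd (x : E) : ContDiffAt ℝ ω (ex ι) x :=
  (jL ι).contDiff.contDiffAt.comp x (exp_ι_cd x)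

theorem exp_ι_hasFDerivAt (x : E) : HasFDerivAt (fun y => exp (ι y))
    (((fderiv ℂ exp (ι x)).restrictScalars ℝ).comp (iL ι)) x :=
  ((exp_analytic (𝕂 := ℂ) (iL ι x)).differentiableAt.hasFDerivAt.restrictScalars ℝ).comp x
    (iL ι).hasFDerivAt

theorem ι_fderiv_ex (hι : IsHermModel ι) (hU : U * star U = 1) {x : E} {d : n → ℝ}
    (hx : ι x = Dg U d) (v : E) :
    ι (fderiv ℝ (ex ι) x v) = Sch U (fun i j => ddExp (d i) (d j)) (ι v) := by
  have h1 : HasFDerivAt (ex ι) _ x := (jL ι).hasFDerivAt.comp x (exp_ι_hasFDerivAt x)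
  rw [h1.fderiv]
  simp only [ContinuousLinearMap.comp_apply, ContinuousLinearMap.coe_restrictScalars', iL_apply]
  rw [hx, fderiv_exp_Dg hU]
  exact ι_jL hι (Sch_herm hU (fun i j => ddExp_comm _ _) (herm_ι hι v))

theorem ex_inj (hι : IsHermModel ι) : Function.Injective (ex ι) := by
  intro x y h
  have h1 : exp (ι x) = exp (ι y) := by rw [← ι_ex hι, ← ι_ex hι, h]
  apply hι.1
  rw [← CFC.log_exp (ι x) (herm_ι hι x), h1, CFC.log_exp (ι y) (herm_ι hι y)]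

theorem lg_ex (hι : IsHermModel ι) (x : E) : lg ι (ex ι x) = x :=
  Function.leftInverse_invFun (ex_inj hι) x

theorem ι_lg_Dg (hι : IsHermModel ι) (hU : U * star U = 1) {q : E} {d : n → ℝ}
    (hq : ι q = Dg U d) (hd : ∀ i, 0 < d i) :
    ι (lg ι q) = Dg U (fun i => Real.log (d i)) ∧ ex ι (lg ι q) = q := by
  have h1 : ι (jL ι (Dg U fun i => Real.log (d i))) = _ := ι_jL hι (Dg_herm _)
  have h2 : ex ι (jL ι (Dg U fun i => Real.log (d i))) = q := by
    apply hι.1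
    rw [ι_ex_Dg hι hU h1, hq]
    simp [Real.exp_log (hd _)]
  rw [← h2, lg_ex hι]
  exact ⟨h1, rfl⟩

theorem exists_Dg_pos {q : E} (hq : (ι q).PosDef) :
    ∃ (U : Matrix n n ℂ) (d : n → ℝ), U * star U = 1 ∧ ι q = Dg U d ∧ ∀ i, 0 < d i := by
  obtain ⟨U, d, hU, hx⟩ := exists_Dg hq.isHermitian
  exact ⟨U, d, hU, hx, (posDef_Dg hU d).1 (hx ▸ hq)⟩

theorem ex_lg (hι : IsHermModel ι) {q : E} (hq : (ι q).PosDef) : ex ι (lg ι q) = q := by
  obtain ⟨U, d, hU, hx, hd⟩ := exists_Dg_pos hq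
  exact (ι_lg_Dg hι hU hx hd).2

theorem lg_cd_aux (hι : IsHermModel ι) (x : E) :
    ContDiffAt ℝ ω (lg ι) (ex ι x) ∧ ∀ᶠ q in 𝓝 (ex ι x), (ι q).PosDef := by
  have : CompleteSpace E := FiniteDimensional.complete ℝ E
  obtain ⟨U, d, hU, hx⟩ := exists_Dg (herm_ι hι x)
  have hinj : Function.Injective (fderiv ℝ (ex ι) x).toLinearMap := by
    intro v w h
    apply hι.1
    refine Sch_inj hU (fun i j => (ddExp_pos (d i) (d j)).ne') ?_
    rw [← ι_fderiv_ex hι hU hx, ← ι_fderiv_ex hι hU hx]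
    exact congrArg ι h
  set e := (LinearEquiv.ofInjectiveEndo _ hinj).toContinuousLinearEquiv
  have hd : HasFDerivAt (ex ι) (e : E →L[ℝ] E) x :=
    ((ex_cd x).differentiableAt (by simp)).hasFDerivAt
  have hs := (ex_cd x).hasStrictFDerivAt' hd (by simp)
  constructor
  · exact ((ex_cd x).to_localInverse hd (by simp)).congr_of_eventuallyEq
      (hs.localInverse_unique (Eventually.of_forall (lg_ex hι)))
  · filter_upwards [hs.eventually_right_inverse] with q hq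
    rw [← hq]; exact ex_posDef hι _

theorem lg_cd (hι : IsHermModel ι) {q : E} (hq : (ι q).PosDef) : ContDiffAt ℝ ω (lg ι) q := by
  have := (lg_cd_aux hι (lg ι q)).1
  rwa [ex_lg hι hq] at this

theorem posDef_near (hι : IsHermModel ι) {q : E} (hq : (ι q).PosDef) :
    ∀ᶠ p in 𝓝 q, (ι p).PosDef := by
  have := (lg_cd_aux hι (lg ι q)).2
  rwa [ex_lg hι hq] at this

theorem fderiv_ex_lg (hι : IsHermModel ι) {q : E} (hq : (ι q).PosDef) (v : E) :
    fderiv ℝ (ex ι) (lg ι q) (fderiv ℝ (lg ι) q v) = v := by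
  have h1 := ((ex_cd (ι := ι) (lg ι q)).differentiableAt (by simp)).hasFDerivAt.comp q
    ((lg_cd hι hq).differentiableAt (by simp)).hasFDerivAt
  have h2 : HasFDerivAt (ex ι ∘ lg ι) (ContinuousLinearMap.id ℝ E) q :=
    (hasFDerivAt_id q).congr_of_eventuallyEq ((posDef_near hι hq).mono fun p hp => ex_lg hι hp)
  exact congrArg (fun L : E →L[ℝ] E => L v) (h1.unique h2)

theorem ι_fderiv_lg (hι : IsHermModel ι) (hU : U * star U = 1) {q : E} {d : n → ℝ}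
    (hq : ι q = Dg U d) (hd : ∀ i, 0 < d i) (v : E) :
    ι (fderiv ℝ (lg ι) q v) =
      Sch U (fun i j => (ddExp (Real.log (d i)) (Real.log (d j)))⁻¹) (ι v) := by
  refine Sch_inj hU (fun i j => (ddExp_pos (Real.log (d i)) (Real.log (d j))).ne') ?_
  rw [← ι_fderiv_ex hι hU (ι_lg_Dg hι hU hq hd).1,
    fderiv_ex_lg hι (hq ▸ (posDef_Dg hU d).2 hd), Sch_Sch hU,
    Sch_congr (l := fun _ _ => 1) (fun i j => mul_inv_cancel₀ (ddExp_pos _ _).ne'), Sch_one hU]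

end Pool.Agent.Work.MP_2482e4_mp
end

-- merged part: Pool.Agent.Work.MP_2482e4_mp.Geo
section
open scoped Topology ContDiff
open Filter Module

namespace Pool.Agent.Work.MP_2482e4_mp

variable {E : Type} [NormedAddCommGroup E] [NormedSpace ℝ E]

theorem fderiv_tangent_zero {E' : Type*} [NormedAddCommGroup E'] [NormedSpace ℝ E'] {N : Set E}
    {p v : E} {φ : E → E'} (h0 : ∀ᶠ q in 𝓝[N] p, φ q = 0) (hv : v ∈ tangent N p) :
    fderiv ℝ φ p v = 0 := by
  by_cases hφ : DifferentiableAt ℝ φ p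
  swap
  · rw [fderiv_zero_of_not_differentiableAt hφ]; rfl
  obtain ⟨γ, hγ0, hγN, hγ⟩ := hv
  have ht : Tendsto γ (𝓝 0) (𝓝[N] p) :=
    tendsto_nhdsWithin_iff.2 ⟨hγ0 ▸ hγ.continuousAt, hγN⟩
  have h1 : HasDerivAt (φ ∘ γ) (fderiv ℝ φ p v) 0 :=
    HasFDerivAt.comp_hasDerivAt_of_eq 0 hφ.hasFDerivAt hγ hγ0.symm
  have h2 : HasDerivAt (φ ∘ γ) 0 0 :=
    (hasDerivAt_const (0 : ℝ) (0 : E')).congr_of_eventuallyEq (ht.eventually h0)
  exact h1.unique h2

section chart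
variable {Φ : OpenPartialHomeomorph E E}

theorem chart_cd (h : ContDiffOn ℝ ∞ Φ Φ.source) {q : E} (hq : q ∈ Φ.source) :
    ContDiffAt ℝ ∞ Φ q := h.contDiffAt (Φ.open_source.mem_nhds hq)

theorem chart_cd' (h : ContDiffOn ℝ ∞ Φ.symm Φ.target) {q : E} (hq : q ∈ Φ.target) :
    ContDiffAt ℝ ∞ Φ.symm q := h.contDiffAt (Φ.open_target.mem_nhds hq)

theorem chart_BA (h : ContDiffOn ℝ ∞ Φ Φ.source) (h' : ContDiffOn ℝ ∞ Φ.symm Φ.target) {q : E}
    (hq : q ∈ Φ.source) (v : E) : fderiv ℝ Φ.symm (Φ q) (fderiv ℝ Φ q v) = v := by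
  have h1 := ((chart_cd' h' (Φ.map_source hq)).differentiableAt (by simp)).hasFDerivAt.comp q
    ((chart_cd h hq).differentiableAt (by simp)).hasFDerivAt
  have h2 : HasFDerivAt (Φ.symm ∘ Φ) (ContinuousLinearMap.id ℝ E) q :=
    (hasFDerivAt_id q).congr_of_eventuallyEq (Φ.eventually_left_inverse hq)
  exact congrArg (fun L : E →L[ℝ] E => L v) (h1.unique h2)

theorem chart_AB (h : ContDiffOn ℝ ∞ Φ Φ.source) (h' : ContDiffOn ℝ ∞ Φ.symm Φ.target) {q : E}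
    (hq : q ∈ Φ.source) (v : E) : fderiv ℝ Φ q (fderiv ℝ Φ.symm (Φ q) v) = v := by
  have := chart_BA (Φ := Φ.symm) h' h (Φ.map_source hq) v
  simpa [Φ.left_inv hq] using this

theorem tangent_iff [FiniteDimensional ℝ E] {N : Set E} {F : Submodule ℝ E}
    (h : ContDiffOn ℝ ∞ Φ Φ.source) (h' : ContDiffOn ℝ ∞ Φ.symm Φ.target)
    (hN : ∀ q ∈ Φ.source, q ∈ N ↔ Φ q ∈ F) {q : E} (hq : q ∈ Φ.source) (hqN : q ∈ N) (v : E) :
    v ∈ tangent N q ↔ fderiv ℝ Φ q v ∈ F := by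
  constructor
  · intro hv
    obtain ⟨Q, hQ⟩ : ∃ Q : E →L[ℝ] E, ∀ x, Q x = 0 ↔ x ∈ F := by
      obtain ⟨G, hG⟩ := F.exists_isCompl
      refine ⟨LinearMap.toContinuousLinearMap (G.projection F hG.symm), fun x => ?_⟩
      simp
    have h1 := fderiv_tangent_zero (φ := Q ∘ Φ) (N := N) (p := q) (by
      filter_upwards [self_mem_nhdsWithin, mem_nhdsWithin_of_mem_nhds (Φ.open_source.mem_nhds hq)]
        with x hx hx'
      exact (hQ _).2 ((hN x hx').1 hx)) hv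
    rw [(Q.hasFDerivAt.comp q ((chart_cd h hq).differentiableAt (by simp)).hasFDerivAt).fderiv]
      at h1
    exact (hQ _).1 h1
  · intro hv
    have hl : HasDerivAt (fun t : ℝ => Φ q + t • fderiv ℝ Φ q v) (fderiv ℝ Φ q v) 0 := by
      simpa using ((hasDerivAt_id (0 : ℝ)).smul_const (fderiv ℝ Φ q v)).const_add (Φ q)
    have ht : ∀ᶠ t in 𝓝 (0 : ℝ), Φ q + t • fderiv ℝ Φ q v ∈ Φ.target :=
      hl.continuousAt.eventually (Φ.open_target.mem_nhds (by simpa using Φ.map_source hq))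
    refine ⟨fun t => Φ.symm (Φ q + t • fderiv ℝ Φ q v), by simp [Φ.left_inv hq], ?_, ?_⟩
    · filter_upwards [ht] with t ht
      rw [hN _ (Φ.map_target ht), Φ.right_inv ht]
      exact F.add_mem ((hN q hq).1 hqN) (F.smul_mem _ hv)
    · have := HasFDerivAt.comp_hasDerivAt_of_eq 0
        ((chart_cd' h' (Φ.map_source hq)).differentiableAt (by simp)).hasFDerivAt hl (by simp)
      rw [chart_BA h h' hq] at this
      exact this

end chart

/-- Traceless vectors orthogonal to `V` for the form `b`. -/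
def orth (τ : E →L[ℝ] ℝ) (b : E →L[ℝ] E →L[ℝ] ℝ) (V : Submodule ℝ E) : Submodule ℝ E where
  carrier := {Y | τ Y = 0 ∧ ∀ X ∈ V, b Y X = 0}
  zero_mem' := by simp
  add_mem' := by
    rintro x y ⟨hx, hx'⟩ ⟨hy, hy'⟩
    exact ⟨by simp [hx, hy], fun X hX => by simp [hx' X hX, hy' X hX]⟩
  smul_mem' := by
    rintro c x ⟨hx, hx'⟩
    exact ⟨by simp [hx], fun X hX => by simp [hx' X hX]⟩

theorem mem_orth {τ : E →L[ℝ] ℝ} {b : E →L[ℝ] E →L[ℝ] ℝ} {V : Submodule ℝ E} {Y : E} :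
    Y ∈ orth τ b V ↔ τ Y = 0 ∧ ∀ X ∈ V, b Y X = 0 := Iff.rfl

variable [FiniteDimensional ℝ E]

theorem finrank_orth_le (τ : E →L[ℝ] ℝ) (b b' : E →L[ℝ] E →L[ℝ] ℝ) (V : Submodule ℝ E)
    (hb' : ∀ X, X ≠ 0 → 0 < b' X X) : finrank ℝ (orth τ b'.flip (orth τ b V)) ≤ finrank ℝ V := by
  set U := orth τ b V
  set D := orth τ b'.flip U
  have h1 : finrank ℝ D + finrank ℝ U ≤ finrank ℝ τ.ker := by
    have hd : D ⊓ U = ⊥ := by
      rw [eq_bot_iff]
      rintro x ⟨hx, hx'⟩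
      by_contra h
      have := hb' x h
      have h2 := hx.2 x hx'
      simp only [ContinuousLinearMap.flip_apply] at h2
      linarith
    have := Submodule.finrank_sup_add_finrank_inf_eq D U
    rw [hd, finrank_bot, add_zero] at this
    rw [← this]
    exact Submodule.finrank_mono (sup_le (fun x hx => hx.1) (fun x hx => hx.1))
  have h2 : finrank ℝ τ.ker ≤ finrank ℝ U + finrank ℝ V := by
    let φ : τ.ker →ₗ[ℝ] Module.Dual ℝ V :=
      { toFun := fun Y => (b Y).toLinearMap ∘ₗ V.subtype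
        map_add' := fun x y => by ext; simp
        map_smul' := fun c x => by ext; simp }
    have h3 := φ.finrank_range_add_finrank_ker
    have h4 : finrank ℝ φ.range ≤ finrank ℝ V := by
      rw [← Subspace.dual_finrank_eq (V := V)]; exact Submodule.finrank_le _
    have h5 : finrank ℝ φ.ker ≤ finrank ℝ U := by
      rw [← Submodule.finrank_map_subtype_eq]
      refine Submodule.finrank_mono ?_
      rintro _ ⟨Y, hY, rfl⟩
      exact ⟨Y.2, fun X hX => congrArg (fun L : Module.Dual ℝ V => L ⟨X, hX⟩) hY⟩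
    omega
  omega

theorem exists_rep (τ : E →L[ℝ] ℝ) (b : E →L[ℝ] E →L[ℝ] ℝ) (hb : ∀ X, X ≠ 0 → 0 < b X X)
    (om : E →L[ℝ] ℝ) : ∃ W, τ W = 0 ∧ ∀ Y, τ Y = 0 → b Y W = om Y := by
  let φ : τ.ker →ₗ[ℝ] Module.Dual ℝ τ.ker :=
    { toFun := fun W => (b.flip W).toLinearMap ∘ₗ τ.ker.subtype
      map_add' := fun x y => by ext; simp
      map_smul' := fun c x => by ext; simp }
  have hinj : Function.Injective φ := by
    rw [injective_iff_map_eq_zero]
    intro W hW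
    by_contra h
    have h1 := hb W (fun h' => h (Subtype.ext h'))
    have h2 : b W W = 0 := congrArg (fun L : Module.Dual ℝ τ.ker => L W) hW
    linarith
  obtain ⟨W, hW⟩ := (LinearMap.injective_iff_surjective_of_finrank_eq_finrank
    Subspace.dual_finrank_eq.symm).1 hinj (om.toLinearMap ∘ₗ τ.ker.subtype)
  exact ⟨W, W.2, fun Y hY => congrArg (fun L : Module.Dual ℝ τ.ker => L ⟨Y, hY⟩) hW⟩

theorem orth_orth (τ : E →L[ℝ] ℝ) (b : E →L[ℝ] E →L[ℝ] ℝ) (V : Submodule ℝ E)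
    (hb : ∀ X, X ≠ 0 → 0 < b X X) (hV : ∀ X ∈ V, τ X = 0) : orth τ b.flip (orth τ b V) = V :=
  (Submodule.eq_of_le_of_finrank_le (fun X hX => mem_orth.2 ⟨hV X hX, fun _ hY => (mem_orth.1 hY).2 X hX⟩)
    (finrank_orth_le τ b b V hb)).symm

theorem coercive_near {g : E → E →L[ℝ] E →L[ℝ] ℝ} {ρ : E} (hg : ContDiffAt ℝ ∞ g ρ)
    (hb : ∀ X, X ≠ 0 → 0 < g ρ X X) :
    ∃ c : ℝ, 0 < c ∧ ∀ᶠ q in 𝓝 ρ, ∀ X, c * ‖X‖ ^ 2 ≤ g q X X := by
  obtain ⟨c, hc, h1⟩ : ∃ c : ℝ, 0 < c ∧ ∀ X, c * ‖X‖ ^ 2 ≤ g ρ X X := by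
    rcases (Metric.sphere (0 : E) 1).eq_empty_or_nonempty with he | hne
    · refine ⟨1, one_pos, fun X => ?_⟩
      by_cases hX : X = 0
      · simp [hX]
      · exfalso
        have : ‖X‖⁻¹ • X ∈ Metric.sphere (0 : E) 1 := by
          simp [norm_smul, inv_mul_cancel₀ (norm_ne_zero_iff.2 hX)]
        rw [he] at this; exact this
    · obtain ⟨X0, hX0, hmin⟩ := (isCompact_sphere (0 : E) 1).exists_isMinOn hne
        (f := fun X => g ρ X X) (by fun_prop)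
      have hX0' : X0 ≠ 0 := by
        rintro rfl; simp at hX0
      refine ⟨g ρ X0 X0, hb _ hX0', fun X => ?_⟩
      by_cases hX : X = 0
      · simp [hX]
      · have hn := norm_pos_iff.2 hX
        have h2 : ‖X‖⁻¹ • X ∈ Metric.sphere (0 : E) 1 := by
          simp [norm_smul, inv_mul_cancel₀ hn.ne']
        have h3 : g ρ X0 X0 ≤ g ρ (‖X‖⁻¹ • X) (‖X‖⁻¹ • X) := hmin h2
        simp only [map_smul, smul_apply, smul_eq_mul] at h3
        calc g ρ X0 X0 * ‖X‖ ^ 2 ≤ ‖X‖⁻¹ * (‖X‖⁻¹ * g ρ X X) * ‖X‖ ^ 2 := by gcongr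
          _ = _ := by field_simp
  refine ⟨c / 2, by positivity, ?_⟩
  have hg' : Tendsto (fun q => ‖g q - g ρ‖) (𝓝 ρ) (𝓝 0) :=
    (tendsto_iff_norm_sub_tendsto_zero (f := g) (b := g ρ)).1 hg.continuousAt.tendsto
  filter_upwards [hg'.eventually (gt_mem_nhds (show 0 < c / 2 by positivity))] with q hq X
  have h2 : |(g q - g ρ) X X| ≤ ‖g q - g ρ‖ * ‖X‖ * ‖X‖ := (g q - g ρ).le_opNorm₂ X X
  have h3 : ‖g q - g ρ‖ * ‖X‖ * ‖X‖ ≤ c / 2 * ‖X‖ * ‖X‖ := by gcongr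
  have h4 := (abs_le.1 (h2.trans h3)).1
  simp only [sub_apply] at h4
  have := h1 X
  nlinarith only [h4, this]

omit [FiniteDimensional ℝ E] in
theorem bracket_closed {E' : Type*} [NormedAddCommGroup E'] [NormedSpace ℝ E'] {M : Set E}
    {σ0 : E} {h : E → E'} (hh : ∀ᶠ σ in 𝓝 σ0, ContDiffAt ℝ 2 h σ)
    (H1 : ∀ᶠ σ in 𝓝[M] σ0, ∀ v, fderiv ℝ h σ v = 0 → v ∈ tangent M σ) (L1 L2 : E →L[ℝ] E)
    (h1 : ∀ᶠ σ in 𝓝[M] σ0, fderiv ℝ h σ (L1 σ) = 0)
    (h2 : ∀ᶠ σ in 𝓝[M] σ0, fderiv ℝ h σ (L2 σ) = 0) :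
    ∀ᶠ σ in 𝓝[M] σ0, fderiv ℝ h σ (L2 (L1 σ) - L1 (L2 σ)) = 0 := by
  filter_upwards [mem_nhdsWithin_of_mem_nhds hh, H1, h1, h2, eventually_eventually_nhdsWithin.2 h1,
    eventually_eventually_nhdsWithin.2 h2] with σ hσ hT a1 a2 b1 b2
  have key := VectorField.fderiv_apply_lieBracket (V := L1) (W := L2) hσ (by simp)
    L2.differentiableAt L1.differentiableAt
  rw [fderiv_tangent_zero b2 (hT _ a1), fderiv_tangent_zero b1 (hT _ a2)] at key
  simpa [VectorField.lieBracket] using key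

end Pool.Agent.Work.MP_2482e4_mp
end

-- merged part: Pool.Agent.Work.MP_2482e4_mp.Auto
section
open scoped Topology ContDiff
open Filter Module

namespace Pool.Agent.Work.MP_2482e4_mp

variable {E : Type} [NormedAddCommGroup E] [NormedSpace ℝ E] [FiniteDimensional ℝ E]
variable {n : Type} [Fintype n] [DecidableEq n]

omit [FiniteDimensional ℝ E] in
theorem fderiv_bound {E' : Type*} [NormedAddCommGroup E'] [NormedSpace ℝ E'] {f : E → E'} {p : E}
    (hf : ContDiffAt ℝ ∞ f p) : ∃ K : ℝ, 0 ≤ K ∧ ∀ᶠ q in 𝓝 p, ‖fderiv ℝ f q‖ ≤ K := by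
  obtain ⟨K, t, ht, hK⟩ := (hf.of_le (by simp : (1 : WithTop ℕ∞) ≤ ∞)).exists_lipschitzOnWith
  refine ⟨K, K.2, ?_⟩
  filter_upwards [eventually_eventually_nhds.2 ht] with q hq
  exact norm_fderiv_le_of_lipschitzOn ℝ hq hK

omit [FiniteDimensional ℝ E] in
theorem tangent_trace {τ : E →L[ℝ] ℝ} {N : Set E} (hN1 : ∀ q ∈ N, τ q = 1) {q v : E}
    (hv : v ∈ tangent N q) : τ v = 0 := by
  have := fderiv_tangent_zero (φ := fun x => τ x - 1) (N := N) (p := q) (by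
    filter_upwards [self_mem_nhdsWithin] with x hx
    rw [hN1 x hx, sub_self]) hv
  rwa [fderiv_sub_const, τ.fderiv] at this

theorem cdAt_clm {E' : Type*} [NormedAddCommGroup E'] [NormedSpace ℝ E'] {m : WithTop ℕ∞}
    {f : E' → E →L[ℝ] ℝ} {q : E'} (h : ∀ Y, ContDiffAt ℝ m (fun x => f x Y) q) :
    ContDiffAt ℝ m f q := by
  let b := Module.finBasis ℝ E
  have h1 : f = fun x => ∑ i, f x (b i) • LinearMap.toContinuousLinearMap (b.coord i) := by
    funext x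
    ext Y
    conv_lhs => rw [← b.sum_repr Y, map_sum]
    simp [mul_comm]
  rw [h1]
  exact ContDiffAt.sum fun i _ => (h _).smul contDiffAt_const

theorem cd_flip {g : E → E →L[ℝ] E →L[ℝ] ℝ} {Z : E → E} {q : E} (hg : ContDiffAt ℝ ∞ g q)
    (hZ : ContDiffAt ℝ ∞ Z q) : ContDiffAt ℝ ∞ (fun x => (g x).flip (Z x)) q :=
  cdAt_clm fun _ => (hg.clm_apply contDiffAt_const).clm_apply hZ

omit [DecidableEq n] in
theorem isEDeriv_of {ι : E →ₗ[ℝ] Matrix n n ℂ} {τ : E →L[ℝ] ℝ}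
    (hτ : ∀ X, (ι X).trace = 0 ↔ τ X = 0) {g : E → E →L[ℝ] E →L[ℝ] ℝ} {X Z : E → E} {q W : E}
    (hg : ContDiffAt ℝ ∞ g q) (hZ : ContDiffAt ℝ ∞ Z q) (hW : τ W = 0)
    (h : ∀ Y, τ Y = 0 → g q Y W = fderiv ℝ (fun x => (g x).flip (Z x)) q (X q) Y) :
    IsEDeriv ι g q X Z W := by
  refine ⟨(hτ W).2 hW, fun Y hY => ?_⟩
  have h1 := ((cd_flip hg hZ).differentiableAt (by simp)).hasFDerivAt.clm_apply
    (hY.1.differentiableAt (by simp)).hasFDerivAt
  have h2 : (fun q => g q (Y q) (Z q)) = fun x => (g x).flip (Z x) (Y x) := rfl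
  rw [h2, h1.fderiv, h _ ((hτ _).1 hY.2.self_of_nhds)]
  simp

omit [DecidableEq n] in
theorem tangent_eq_near {ι : E →ₗ[ℝ] Matrix n n ℂ} {τ : E →L[ℝ] ℝ}
    (hτ : ∀ X, (ι X).trace = 0 ↔ τ X = 0) {g : E → E →L[ℝ] E →L[ℝ] ℝ} {N : Set E} {ρ : E}
    {V : Submodule ℝ E} (hN1 : ∀ q ∈ N, τ q = 1) (hg : ∀ q ∈ N, ContDiffAt ℝ ∞ g q)
    (hpos : ∀ q ∈ N, ∀ X, X ≠ 0 → 0 < g q X X)
    {Φ : OpenPartialHomeomorph E E} {F : Submodule ℝ E} (hρs : ρ ∈ Φ.source)
    (hΦ : ContDiffOn ℝ ∞ Φ Φ.source) (hΦ' : ContDiffOn ℝ ∞ Φ.symm Φ.target)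
    (hN : ∀ q ∈ Φ.source, q ∈ N ↔ Φ q ∈ F)
    (hauto : IsEAutoparallel ι g N) (hρ : ρ ∈ N) (hV : tangent N ρ = V) :
    ∀ᶠ q in 𝓝[N] ρ, tangent N q = orth τ (g q).flip (orth τ (g ρ) V) := by
  classical
  set U := orth τ (g ρ) V with hU
  set B : E → E →L[ℝ] E := fun q => fderiv ℝ Φ.symm (Φ q) with hB
  set Z : E → E → E := fun w q => B q w - τ (B q w) • ρ with hZ
  have hBcd : ∀ q ∈ Φ.source, ∀ w, ContDiffAt ℝ ∞ (fun x => B x w) q := by
    intro q hq w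
    have h1 : ContDiffAt ℝ ∞ (fderiv ℝ Φ.symm) (Φ q) :=
      (chart_cd' hΦ' (Φ.map_source hq)).fderiv_right (by simp)
    exact (h1.comp q (chart_cd hΦ hq)).clm_apply contDiffAt_const
  have hZcd : ∀ q ∈ Φ.source, ∀ w, ContDiffAt ℝ ∞ (Z w) q := fun q hq w =>
    (hBcd q hq w).sub ((τ.contDiff.contDiffAt.comp q (hBcd q hq w)).smul contDiffAt_const)
  have hZf : ∀ q ∈ Φ.source, ∀ w, IsField ι q (Z w) := fun q hq w =>
    ⟨hZcd q hq w, Eventually.of_forall fun x => (hτ _).2 (by simp [hZ, hN1 ρ hρ])⟩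
  have hBt : ∀ q ∈ Φ.source, q ∈ N → ∀ w ∈ F, B q w ∈ tangent N q := fun q hq hqN w hw => by
    rw [tangent_iff hΦ hΦ' hN hq hqN, chart_AB hΦ hΦ' hq]; exact hw
  have hZB : ∀ q ∈ Φ.source, q ∈ N → ∀ w ∈ F, Z w q = B q w := fun q hq hqN w hw => by
    simp [hZ, tangent_trace hN1 (hBt q hq hqN w hw)]
  have hZt : ∀ q ∈ Φ.source, ∀ w ∈ F, TangentTo N q (Z w) := fun q hq w hw => by
    filter_upwards [self_mem_nhdsWithin, mem_nhdsWithin_of_mem_nhds (Φ.open_source.mem_nhds hq)]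
      with x hx hx'
    rw [hZB x hx' hx w hw]; exact hBt x hx' hx w hw
  let bF := Module.finBasis ℝ F
  let bU := Module.finBasis ℝ U
  set G : Fin (finrank ℝ F) → E → E →L[ℝ] ℝ := fun i x => (g x).flip (Z (bF i) x) with hG
  have hGcd : ∀ q ∈ Φ.source, q ∈ N → ∀ i, ContDiffAt ℝ ∞ (G i) q := fun q hq hqN i =>
    cd_flip (hg q hqN) (hZcd q hq _)
  choose K hK0 hK using fun i => fderiv_bound (hGcd ρ hρs hρ i)
  obtain ⟨KA, hKA0, hKA⟩ := fderiv_bound (chart_cd hΦ hρs)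
  obtain ⟨KB, hKB0, hKB⟩ := fderiv_bound (chart_cd' hΦ' (Φ.map_source hρs))
  obtain ⟨c, hc, hco⟩ := coercive_near (hg ρ hρ) (hpos ρ hρ)
  obtain ⟨CF, hCF0, hCF⟩ : ∃ C : ℝ, 0 ≤ C ∧ ∀ (w : F) i, |bF.repr w i| ≤ C * ‖w‖ := by
    refine ⟨‖LinearMap.toContinuousLinearMap bF.equivFun.toLinearMap‖,
      ContinuousLinearMap.opNorm_nonneg _, fun w i => ?_⟩
    have := (LinearMap.toContinuousLinearMap bF.equivFun.toLinearMap).le_opNorm w
    refine le_trans ?_ this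
    exact norm_le_pi_norm (bF.equivFun w) i
  have hO : ∀ᶠ q in 𝓝 ρ, q ∈ Φ.source ∧ (∀ i, ‖fderiv ℝ (G i) q‖ ≤ K i) ∧ ‖fderiv ℝ Φ q‖ ≤ KA ∧
      ∀ X, c * ‖X‖ ^ 2 ≤ g q X X :=
    (show ∀ᶠ q in 𝓝 ρ, q ∈ Φ.source from Φ.open_source.mem_nhds hρs).and
      ((eventually_all.2 hK).and (hKA.and hco))
  have hO' := ((Φ.tendsto_symm hρs).eventually hO).and (hKB.and
    (show ∀ᶠ z in 𝓝 (Φ ρ), z ∈ Φ.target from Φ.open_target.mem_nhds (Φ.map_source hρs)))
  obtain ⟨r, hr, hball⟩ := Metric.eventually_nhds_iff_ball.1 hO'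
  have hev : ∀ᶠ q in 𝓝 ρ, q ∈ Φ.source ∧ Φ q ∈ Metric.ball (Φ ρ) r :=
    (show ∀ᶠ q in 𝓝 ρ, q ∈ Φ.source from Φ.open_source.mem_nhds hρs).and
      ((Φ.continuousAt hρs).eventually (Metric.ball_mem_nhds _ hr))
  filter_upwards [self_mem_nhdsWithin, mem_nhdsWithin_of_mem_nhds hev] with q1 hq1N hq1
  set u := Φ q1 - Φ ρ with hu
  have huF : u ∈ F := F.sub_mem ((hN _ hq1.1).1 hq1N) ((hN _ hρs).1 hρ)
  set z : ℝ → E := fun t => Φ ρ + t • u with hz
  have hzb : ∀ t ∈ Set.Icc (0 : ℝ) 1, z t ∈ Metric.ball (Φ ρ) r := by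
    intro t ht
    have h1 := hq1.2
    rw [Metric.mem_ball, dist_eq_norm] at h1 ⊢
    simp only [hz, add_sub_cancel_left, norm_smul, Real.norm_of_nonneg ht.1]
    exact (mul_le_of_le_one_left (norm_nonneg _) ht.2).trans_lt h1
  set γ : ℝ → E := fun t => Φ.symm (z t) with hγ
  have hγs : ∀ t ∈ Set.Icc (0 : ℝ) 1, γ t ∈ Φ.source := fun t ht => (hball _ (hzb t ht)).1.1
  have hΦγ : ∀ t ∈ Set.Icc (0 : ℝ) 1, Φ (γ t) = z t := fun t ht =>
    Φ.right_inv (hball _ (hzb t ht)).2.2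
  have hγN : ∀ t ∈ Set.Icc (0 : ℝ) 1, γ t ∈ N := fun t ht => by
    rw [hN _ (hγs t ht), hΦγ t ht]
    exact F.add_mem ((hN _ hρs).1 hρ) (F.smul_mem _ huF)
  have hγd : ∀ t ∈ Set.Icc (0 : ℝ) 1, HasDerivAt γ (B (γ t) u) t := fun t ht => by
    have hl : HasDerivAt z u t := by
      simpa [hz] using ((hasDerivAt_id t).smul_const u).const_add (Φ ρ)
    have := ((chart_cd' hΦ' (hball _ (hzb t ht)).2.2).differentiableAt
      (by simp)).hasFDerivAt.comp_hasDerivAt t hl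
    simp only [hB, hΦγ t ht]
    exact this
  set y : ℝ → (Fin (finrank ℝ F) × Fin (finrank ℝ U) → ℝ) :=
    fun t ij => G ij.1 (γ t) (bU ij.2) with hy
  set y' : ℝ → (Fin (finrank ℝ F) × Fin (finrank ℝ U) → ℝ) :=
    fun t ij => fderiv ℝ (G ij.1) (γ t) (B (γ t) u) (bU ij.2) with hy'
  have hyd : ∀ t ∈ Set.Icc (0 : ℝ) 1, HasDerivAt y (y' t) t := fun t ht => by
    rw [hasDerivAt_pi]
    intro ij
    have h1 := ((hGcd _ (hγs t ht) (hγN t ht) ij.1).differentiableAt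
      (by simp)).hasFDerivAt.comp_hasDerivAt t (hγd t ht)
    simpa using h1.clm_apply (hasDerivAt_const t (bU ij.2 : E))
  have hlin : ∀ q ∈ Φ.source, q ∈ N → ∀ (w : F) (Y : E),
      g q Y (B q w) = ∑ a, bF.repr w a * G a q Y := by
    intro q hq hqN w Y
    conv_lhs => rw [← bF.sum_repr w]
    simp only [AddSubmonoidClass.coe_finsetSum, SetLike.val_smul, map_sum, map_smul, smul_eq_mul,
      hG, ContinuousLinearMap.flip_apply]
    exact Finset.sum_congr rfl fun a _ => by rw [hZB q hq hqN _ (bF a).2]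
  set C : ℝ := finrank ℝ F * (CF * (KA * ((∑ i, K i) * (KB * ‖u‖) / c))) with hC
  have hKs : ∀ i, K i ≤ ∑ i, K i := fun i =>
    Finset.single_le_sum (fun i _ => hK0 i) (Finset.mem_univ i)
  have hKs0 : 0 ≤ ∑ i, K i := Finset.sum_nonneg fun i _ => hK0 i
  have hbound : ∀ t ∈ Set.Icc (0 : ℝ) 1, ‖y' t‖ ≤ C * ‖y t‖ := by
    intro t ht
    refine (pi_norm_le_iff_of_nonneg (by positivity)).2 fun ij => ?_
    obtain ⟨⟨hq, hk, hka, hcq⟩, hkb, -⟩ := hball _ (hzb t ht)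
    have hqN := hγN t ht
    obtain ⟨W, hW0, hW⟩ := exists_rep τ (g (γ t)) (hpos _ hqN)
      (fderiv ℝ (G ij.1) (γ t) (B (γ t) u))
    have hWt : W ∈ tangent N (γ t) := hauto _ hqN (Z u) (Z (bF ij.1)) (hZf _ hq _) (hZf _ hq _)
      (hZt _ hq _ huF) (hZt _ hq _ (bF ij.1).2) W
      (isEDeriv_of hτ (hg _ hqN) (hZcd _ hq _) hW0 fun Y hY => by
        rw [hW Y hY, hZB _ hq hqN _ huF])
    have hv : ‖B (γ t) u‖ ≤ KB * ‖u‖ := by
      refine ((B (γ t)).le_opNorm u).trans (mul_le_mul_of_nonneg_right ?_ (norm_nonneg _))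
      simp only [hB, hΦγ t ht]; exact hkb
    have hWn : ‖W‖ ≤ (∑ i, K i) * (KB * ‖u‖) / c := by
      have h1 := hcq W
      rw [hW W hW0] at h1
      have h2 := (le_abs_self _).trans
        ((fderiv ℝ (G ij.1) (γ t)).le_opNorm₂ (B (γ t) u) W)
      have h3 : ‖fderiv ℝ (G ij.1) (γ t)‖ * ‖B (γ t) u‖ * ‖W‖ ≤
          (∑ i, K i) * (KB * ‖u‖) * ‖W‖ := by
        gcongr
        exact (hk _).trans (hKs _)
      rw [le_div_iff₀ hc]
      rcases (norm_nonneg W).eq_or_lt with h0 | h0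
      · rw [← h0]; simp only [zero_mul]; positivity
      · have : ‖W‖ * c * ‖W‖ ≤ (∑ i, K i) * (KB * ‖u‖) * ‖W‖ := by linarith only [h1, h2, h3]
        exact le_of_mul_le_mul_right this h0
    set w' : F := ⟨fderiv ℝ Φ (γ t) W, (tangent_iff hΦ hΦ' hN hq hqN W).1 hWt⟩ with hw'
    have hw'n : ‖w'‖ ≤ KA * ((∑ i, K i) * (KB * ‖u‖) / c) := by
      refine ((fderiv ℝ Φ (γ t)).le_opNorm W).trans ?_
      gcongr
    have hBW : B (γ t) w' = W := chart_BA hΦ hΦ' hq W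
    have h4 : y' t ij = ∑ a, bF.repr w' a * y t (a, ij.2) := by
      simp only [hy', hy]
      rw [← hW _ (bU ij.2).2.1, ← hlin _ hq hqN, hBW]
    rw [h4]
    refine (norm_sum_le _ _).trans ?_
    calc ∑ a, ‖bF.repr w' a * y t (a, ij.2)‖
        ≤ ∑ _a : Fin (finrank ℝ F), CF * (KA * ((∑ i, K i) * (KB * ‖u‖) / c)) * ‖y t‖ := by
          refine Finset.sum_le_sum fun a _ => ?_
          rw [norm_mul]
          refine mul_le_mul ((hCF w' a).trans ?_) (norm_le_pi_norm _ _) (norm_nonneg _)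
            (by positivity)
          gcongr
      _ = C * ‖y t‖ := by simp [hC]; ring
  have hγ0 : γ 0 = ρ := by simp [hγ, hz, Φ.left_inv hρs]
  have hγ1 : γ 1 = q1 := by simp [hγ, hz, hu, Φ.left_inv hq1.1]
  have hy0 : y 0 = 0 := by
    funext ij
    simp only [hy, hG, hγ0, ContinuousLinearMap.flip_apply, Pi.zero_apply]
    refine (bU ij.2).2.2 _ ?_
    rw [hZB _ hρs hρ _ (bF _).2, ← SetLike.mem_coe, ← hV]
    exact hBt _ hρs hρ _ (bF _).2
  have hy1 := eq_zero_of_abs_deriv_le_mul_abs_self_of_eq_zero_right (f := y) (f' := y') (K := C)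
    (a := 0) (b := 1) (fun t ht => (hyd t ht).continuousAt.continuousWithinAt)
    (fun t ht => (hyd t ⟨ht.1, ht.2.le⟩).hasDerivWithinAt) hy0
    (fun t ht => hbound t ⟨ht.1, ht.2.le⟩) 1 ⟨zero_le_one, le_rfl⟩
  -- conclusion by counting dimensions
  have htan : ∀ q ∈ Φ.source, q ∈ N → tangent N q = F.map (B q).toLinearMap := by
    intro q hq hqN
    ext v
    constructor
    · intro hv
      exact ⟨_, (tangent_iff hΦ hΦ' hN hq hqN v).1 hv, chart_BA hΦ hΦ' hq v⟩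
    · rintro ⟨w, hw, rfl⟩
      exact hBt q hq hqN w hw
  have hdim : ∀ q ∈ Φ.source, finrank ℝ (F.map (B q).toLinearMap) = finrank ℝ F := by
    intro q hq
    refine (LinearEquiv.finrank_eq (Submodule.equivMapOfInjective _ ?_ F)).symm
    exact Function.LeftInverse.injective (g := fderiv ℝ Φ q) (chart_AB hΦ hΦ' hq)
  have hVF : V = F.map (B ρ).toLinearMap := SetLike.coe_injective (hV.symm.trans (htan _ hρs hρ))
  rw [htan _ hq1.1 hq1N]
  congr 1
  refine Submodule.eq_of_le_of_finrank_le ?_ ?_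
  · rintro _ ⟨w, hw, rfl⟩
    refine mem_orth.2 ⟨tangent_trace hN1 (hBt _ hq1.1 hq1N w hw), fun Y hY => ?_⟩
    have h1 := hlin _ hq1.1 hq1N ⟨w, hw⟩ Y
    change g q1 Y (B q1 w) = 0
    rw [h1]
    refine Finset.sum_eq_zero fun a _ => ?_
    have h2 : Y = ∑ j, bU.repr ⟨Y, hY⟩ j • (bU j : E) := by
      have := congrArg (fun x : U => (x : E)) (bU.sum_repr ⟨Y, hY⟩)
      simp only [AddSubmonoidClass.coe_finsetSum, SetLike.val_smul] at this
      exact this.symm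
    have h3 : ∀ j, G a q1 (bU j) = 0 := fun j => by
      have := congrFun hy1 (a, j)
      simpa [hy, hγ1] using this
    rw [h2]
    simp [h3]
  · rw [hdim _ hq1.1, ← hdim _ hρs, ← hVF]
    exact finrank_orth_le τ _ _ V (hpos _ hq1N)

end Pool.Agent.Work.MP_2482e4_mp
end

-- merged part: Pool.Agent.Work.MP_2482e4_mp.Suff
section
open scoped Topology ContDiff
open Filter Module

namespace Pool.Agent.Work.MP_2482e4_mp

variable {E : Type} [NormedAddCommGroup E] [NormedSpace ℝ E] [FiniteDimensional ℝ E]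
variable {n : Type} [Fintype n] [DecidableEq n]

omit [DecidableEq n] in
theorem admissible_of {ι : E →ₗ[ℝ] Matrix n n ℂ} {τ : E →L[ℝ] ℝ}
    (hτ : ∀ X, (ι X).trace = 0 ↔ τ X = 0) {g : E → E →L[ℝ] E →L[ℝ] ℝ} {ρ : E}
    {V : Submodule ℝ E} (hV : ∀ X ∈ V, τ X = 0)
    (hpos : ∀ q ∈ states ι, ∀ X, X ≠ 0 → 0 < g q X X) {Ψ : E → E} (hΨ : ContDiffAt ℝ ω Ψ 0)
    (hΨ0 : Ψ 0 = ρ) (hd0 : ∀ v ∈ V, fderiv ℝ Ψ 0 v = v)
    (hev : ∀ᶠ x in 𝓝 (0 : E), Ψ x ∈ states ι ∧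
      ∀ v, fderiv ℝ Ψ x v ∈ orth τ (g (Ψ x)).flip (orth τ (g ρ) V)) :
    Admissible ι g ρ V := by
  haveI : CompleteSpace E := FiniteDimensional.complete ℝ E
  obtain ⟨G, hG⟩ := V.exists_isCompl
  set π : E →L[ℝ] E := LinearMap.toContinuousLinearMap (V.projection G hG) with hπ
  have hπV : ∀ x, π x ∈ V := fun x => Submodule.projection_apply_mem hG x
  have hπs : ∀ x ∈ V, π x = x := fun x hx => Submodule.projection_apply_of_mem_left hG hx
  set Θ : E → E := fun x => Ψ (π x) + (x - π x) with hΘ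
  have hΨ' : ContDiffAt ℝ ω Ψ (π 0) := by rw [map_zero]; exact hΨ
  have hΘc : ContDiffAt ℝ ω Θ 0 :=
    (hΨ'.comp 0 π.contDiff.contDiffAt).add (contDiffAt_id.sub π.contDiff.contDiffAt)
  have hΘd : ∀ x, DifferentiableAt ℝ Ψ (π x) → HasFDerivAt Θ
      ((fderiv ℝ Ψ (π x)).comp π + (ContinuousLinearMap.id ℝ E - π)) x := fun x hx =>
    (hx.hasFDerivAt.comp x π.hasFDerivAt).add ((hasFDerivAt_id x).sub π.hasFDerivAt)
  have hΘ0 : HasFDerivAt Θ ((ContinuousLinearEquiv.refl ℝ E : E ≃L[ℝ] E) : E →L[ℝ] E) 0 := by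
    convert hΘd 0 (hΨ'.differentiableAt (by simp)) using 1
    ext v
    simp [hd0 _ (hπV v)]
  set e := hΘc.toOpenPartialHomeomorph Θ hΘ0 (by simp) with he
  have he0 : (0 : E) ∈ e.source := hΘc.mem_toOpenPartialHomeomorph_source hΘ0 (by simp)
  have hinv : ContDiffAt ℝ ω e.symm (Θ 0) := hΘc.to_localInverse hΘ0 (by simp)
  have hπt : Tendsto π (𝓝 0) (𝓝 0) := by simpa using π.continuous.tendsto 0
  obtain ⟨O, hO, hOo, hO0⟩ := eventually_nhds_iff.1
    ((hΘc.eventually (by simp)).and ((hΘc.continuousAt.eventually (hinv.eventually (by simp))).and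
      ((hπt.eventually (hΨ.eventually (by simp))).and hev)))
  set Φ := (e.restrOpen O hOo).symm with hΦdef
  have htgt : ∀ x, x ∈ Φ.target ↔ x ∈ e.source ∧ x ∈ O := fun x => Iff.rfl
  have hsymm : (Φ.symm : E → E) = Θ := rfl
  have hΦ' : ContDiffOn ℝ ∞ Φ.symm Φ.target := fun x hx =>
    ((hO x ((htgt x).1 hx).2).1.of_le le_top).contDiffWithinAt
  have hΦ : ContDiffOn ℝ ∞ Φ Φ.source := fun q hq => by
    have h1 := (hO _ ((htgt _).1 (Φ.map_source hq)).2).2.1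
    rw [← hsymm, Φ.left_inv hq] at h1
    exact (h1.of_le le_top).contDiffWithinAt
  set N : Set E := {q | q ∈ Φ.source ∧ Φ q ∈ V} with hN
  have hNi : ∀ q ∈ Φ.source, q ∈ N ↔ Φ q ∈ V := fun q hq => ⟨fun h => h.2, fun h => ⟨hq, h⟩⟩
  have hΨq : ∀ q ∈ N, Ψ (Φ q) = q := fun q hq => by
    have h1 := Φ.left_inv hq.1
    rw [hsymm] at h1
    simpa [hΘ, hπs _ hq.2] using h1
  have hst : N ⊆ states ι := fun q hq => by
    rw [← hΨq q hq]; exact (hO _ ((htgt _).1 (Φ.map_source hq.1)).2).2.2.2.1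
  have htan : ∀ q ∈ N, tangent N q = orth τ (g q).flip (orth τ (g ρ) V) := by
    intro q hq
    have h1 : tangent N q = V.map (fderiv ℝ Φ.symm (Φ q)).toLinearMap := by
      ext v
      rw [tangent_iff hΦ hΦ' hNi hq.1 hq]
      constructor
      · intro hv
        exact ⟨_, hv, chart_BA hΦ hΦ' hq.1 v⟩
      · rintro ⟨w, hw, rfl⟩
        change fderiv ℝ Φ q (fderiv ℝ Φ.symm (Φ q) w) ∈ V
        rw [chart_AB hΦ hΦ' hq.1]; exact hw
    rw [h1]
    congr 1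
    obtain ⟨-, -, h2, -, h3⟩ := hO _ ((htgt _).1 (Φ.map_source hq.1)).2
    refine Submodule.eq_of_le_of_finrank_le ?_ ?_
    · rintro _ ⟨w, hw, rfl⟩
      change fderiv ℝ Φ.symm (Φ q) w ∈ _
      rw [hsymm, (hΘd _ (h2.differentiableAt (by simp))).fderiv]
      have h4 := h3 w
      rw [hΨq q hq] at h4
      simpa [hπs _ hw, hπs _ hq.2] using h4
    · rw [← (LinearEquiv.finrank_eq (Submodule.equivMapOfInjective _
        (Function.LeftInverse.injective (g := fderiv ℝ Φ q) (chart_AB hΦ hΦ' hq.1)) V))]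
      exact finrank_orth_le τ _ _ V (hpos _ (hst hq))
  have h0t : (0 : E) ∈ Φ.target := (htgt 0).2 ⟨he0, hO0⟩
  have hρ : Φ.symm 0 = ρ := by rw [hsymm]; simp [hΘ, hΨ0]
  have hρN : ρ ∈ N := by
    rw [← hρ]
    exact ⟨Φ.map_target h0t, by rw [Φ.right_inv h0t]; exact V.zero_mem⟩
  refine ⟨N, hst, fun p hp => ⟨Φ, V, hp.1, hΦ, hΦ', hNi⟩, ?_, hρN, ?_⟩
  · intro p hp X Z _ _ hXt hZt W hW
    rw [htan p hp]
    refine mem_orth.2 ⟨(hτ W).1 hW.1, fun Y hY => ?_⟩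
    have h1 := hW.2 (fun _ => Y) ⟨contDiffAt_const, Eventually.of_forall fun _ => (hτ Y).2 hY.1⟩
    rw [fderiv_tangent_zero (N := N) ?_ (hXt.self_of_nhdsWithin hp)] at h1
    · simpa using h1.symm
    · filter_upwards [hZt, self_mem_nhdsWithin] with q hq hqN
      rw [htan q hqN] at hq
      exact hq.2 Y hY
  · rw [htan ρ hρN, orth_orth τ _ V (hpos _ (hst hρN)) hV]

end Pool.Agent.Work.MP_2482e4_mp
end

-- merged part: Pool.Agent.Work.MP_2482e4_mp.Rep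
section
open scoped ComplexOrder Topology ContDiff Matrix.Norms.L2Operator
open Matrix NormedSpace Filter

namespace Pool.Agent.Work.MP_2482e4_mp

variable {E : Type} [NormedAddCommGroup E] [NormedSpace ℝ E] [FiniteDimensional ℝ E]
variable {n : Type} [Fintype n] [DecidableEq n]
variable {ι : E →ₗ[ℝ] Matrix n n ℂ} {U : Matrix n n ℂ} {f : ℝ → ℝ} {g : E → E →L[ℝ] E →L[ℝ] ℝ}

omit [FiniteDimensional ℝ E] in
theorem petz_rep (hι : IsHermModel ι) (hg : IsPetz ι f g) (hU : U * star U = 1) {q : E}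
    {d : n → ℝ} (hq : ι q = Dg U d) (hd : ∀ i, 0 < d i) (Y X : E) :
    g q Y X = (ι Y * Sch U (fun i j => (d j * f (d i / d j))⁻¹) (ι X)).trace.re := by
  rw [hg q Y X U d hU hd hq, trace_Sch hU _ (herm_ι hι Y), petzSum]
  simp only [div_eq_inv_mul]

theorem petz_pos (hι : IsHermModel ι) (hg : IsPetz ι f g) (hf : ∀ t, 0 < t → 0 < f t) {q : E}
    (hq : (ι q).PosDef) (X : E) (hX : X ≠ 0) : 0 < g q X X := by
  obtain ⟨U, d, hU, hx, hd⟩ := exists_Dg_pos hq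
  rw [hg q X X U d hU hd hx, petzSum]
  have hm : ∀ i j, 0 < d j * f (d i / d j) := fun i j =>
    mul_pos (hd j) (hf _ (div_pos (hd i) (hd j)))
  have hn : ∀ z : ℂ, ((starRingEnd ℂ) z * z).re = Complex.normSq z := fun z => by
    simp [Complex.normSq_apply]
  obtain ⟨i, j, hij⟩ : ∃ i j, (star U * ι X * U) i j ≠ 0 := by
    by_contra h
    push Not at h
    apply hX
    apply hι.1
    rw [map_zero]
    exact conj_ext hU fun i j => by simp [h i j]
  simp only [hn]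
  refine Finset.sum_pos' (fun a _ => Finset.sum_nonneg fun b _ =>
    div_nonneg (Complex.normSq_nonneg _) (hm a b).le) ⟨i, Finset.mem_univ _, ?_⟩
  exact Finset.sum_pos' (fun b _ => div_nonneg (Complex.normSq_nonneg _) (hm i b).le)
    ⟨j, Finset.mem_univ _, div_pos (Complex.normSq_pos.2 hij) (hm i j)⟩

/-- `eRep` as a real subspace. -/
def eRepS (ι : E →ₗ[ℝ] Matrix n n ℂ) (g : E → E →L[ℝ] E →L[ℝ] ℝ) (ρ : E) (V : Submodule ℝ E) :
    Submodule ℝ (Matrix n n ℂ) where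
  carrier := eRep ι g ρ V
  zero_mem' := ⟨isHermitian_zero, 0, V.zero_mem, fun Y _ => by simp⟩
  add_mem' := by
    rintro A B ⟨hA, X, hX, h⟩ ⟨hB, X', hX', h'⟩
    exact ⟨hA.add hB, X + X', V.add_mem hX hX', fun Y hY => by
      simp [h Y hY, h' Y hY, Matrix.mul_add]⟩
  smul_mem' := by
    rintro c A ⟨hA, X, hX, h⟩
    refine ⟨?_, c • X, V.smul_mem c hX, fun Y hY => by simp [h Y hY]⟩
    change (c • A)ᴴ = _
    rw [conjTranspose_smul, hA.eq, star_trivial]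

omit [FiniteDimensional ℝ E] in
theorem one_mem_eRep (ρ : E) (V : Submodule ℝ E) : (1 : Matrix n n ℂ) ∈ eRep ι g ρ V :=
  ⟨isHermitian_one, 0, V.zero_mem, fun Y hY => by simp [hY]⟩

theorem mem_D_iff (hι : IsHermModel ι) {ρ : E} {V : Submodule ℝ E}
    (hpos : ∀ X, X ≠ 0 → 0 < g ρ X X) (hV : ∀ X ∈ V, trL ι X = 0) {q X : E} {A : Matrix n n ℂ}
    (hA : A.IsHermitian) (hX : trL ι X = 0)
    (h : ∀ Y, trL ι Y = 0 → g q Y X = (ι Y * A).trace.re) :
    X ∈ orth (trL ι) (g q).flip (orth (trL ι) (g ρ) V) ↔ A ∈ eRep ι g ρ V := by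
  constructor
  · intro hD
    obtain ⟨X0, h0, h1⟩ := exists_rep (trL ι) (g ρ) hpos (LinearMap.toContinuousLinearMap
      (Complex.reLm ∘ₗ (Matrix.traceLinearMap n ℝ ℂ) ∘ₗ LinearMap.mulRight ℝ A ∘ₗ ι))
    refine ⟨hA, X0, ?_, fun Y hY => h1 Y ((trL_iff hι Y).1 hY)⟩
    rw [← orth_orth (trL ι) (g ρ) V hpos hV]
    refine mem_orth.2 ⟨h0, fun Y hY => ?_⟩
    have h2 := hD.2 Y hY
    rw [ContinuousLinearMap.flip_apply] at h2 ⊢
    rw [h1 Y hY.1, ← h2, h Y hY.1]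
    rfl
  · rintro ⟨-, X0, hX0, h0⟩
    refine mem_orth.2 ⟨hX, fun Y hY => ?_⟩
    rw [ContinuousLinearMap.flip_apply, h Y hY.1, ← h0 Y ((trL_iff hι Y).2 hY.1)]
    exact hY.2 X0 hX0

/-- Normalisation to trace one. -/
noncomputable def nrm (ι : E →ₗ[ℝ] Matrix n n ℂ) (q : E) : E := (trL ι q)⁻¹ • q

theorem trL_pos [Nonempty n] {q : E} (hq : (ι q).PosDef) : 0 < trL ι q := by
  have := hq.trace_pos
  exact (Complex.pos_iff.1 this).1

theorem nrm_of_states (hι : IsHermModel ι) {q : E} (hq : q ∈ states ι) : trL ι q = 1 := by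
  have := hq.2
  rw [trace_ι hι] at this
  exact_mod_cast this

theorem nrm_smul {q : E} (hq : trL ι q = 1) {c : ℝ} (hc : c ≠ 0) : nrm ι (c • q) = q := by
  simp [nrm, hq, smul_smul, hc]

theorem smul_posDef {q : E} (hq : (ι q).PosDef) {c : ℝ} (hc : 0 < c) : (ι (c • q)).PosDef := by
  obtain ⟨U, d, hU, hx, hd⟩ := exists_Dg_pos hq
  rw [map_smul, hx, ← Dg_smul, posDef_Dg hU]
  exact fun i => mul_pos hc (hd i)

theorem nrm_states [Nonempty n] (hι : IsHermModel ι) {q : E} (hq : (ι q).PosDef) :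
    nrm ι q ∈ states ι := by
  refine ⟨smul_posDef hq (inv_pos.2 (trL_pos hq)), ?_⟩
  rw [trace_ι hι, nrm, map_smul, smul_eq_mul, inv_mul_cancel₀ (trL_pos hq).ne']
  simp

theorem nrm_cd {q : E} (hq : trL ι q ≠ 0) : ContDiffAt ℝ ω (nrm ι) q :=
  ((trL ι).contDiff.contDiffAt.inv hq).smul contDiffAt_id

theorem fderiv_nrm {q : E} (hq : trL ι q ≠ 0) (X : E) :
    fderiv ℝ (nrm ι) q X = (trL ι q)⁻¹ • X - ((trL ι q)⁻¹ ^ 2 * trL ι X) • q := by
  have h1 : HasFDerivAt (nrm ι) _ q :=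
    (((hasDerivAt_inv hq).hasFDerivAt.comp q (trL ι).hasFDerivAt)).smul (hasFDerivAt_id q)
  rw [h1.fderiv]
  simp [sub_eq_add_neg, mul_comm]

theorem nrm_rep [Nonempty n] (hι : IsHermModel ι) (hg : IsPetz ι f g) (hU : U * star U = 1) {q : E}
    {d : n → ℝ} (hq : ι q = Dg U d) (hd : ∀ i, 0 < d i) (X : E) :
    trL ι (fderiv ℝ (nrm ι) q X) = 0 ∧ ∀ Y, trL ι Y = 0 → g (nrm ι q) Y (fderiv ℝ (nrm ι) q X) =
      (ι Y * Sch U (fun i j => (d j * f (d i / d j))⁻¹) (ι X)).trace.re := by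
  have hT := trL_pos (hq ▸ (posDef_Dg hU d).2 hd : (ι q).PosDef)
  rw [fderiv_nrm hT.ne']
  constructor
  · simp only [map_sub, map_smul, smul_eq_mul]
    field_simp
    ring
  · intro Y hY
    have h1 : ι (nrm ι q) = Dg U fun i => (trL ι q)⁻¹ * d i := by rw [nrm, map_smul, hq, Dg_smul]
    rw [petz_rep hι hg hU h1 (fun i => mul_pos (inv_pos.2 hT) (hd i))]
    have h2 : ∀ i j, ((trL ι q)⁻¹ * d j * f ((trL ι q)⁻¹ * d i / ((trL ι q)⁻¹ * d j)))⁻¹ =
        trL ι q * (d j * f (d i / d j))⁻¹ := fun i j => by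
      rw [mul_div_mul_left _ _ (inv_pos.2 hT).ne', mul_assoc, mul_inv, inv_inv]
    rw [Sch_congr h2, Sch_const_mul hU, map_sub, map_smul, map_smul, map_sub, Sch_real_smul,
      Sch_real_smul, hq, Sch_Dg hU]
    have h3 : (Dg U fun i => (d i * f (d i / d i))⁻¹ * d i) = (f 1)⁻¹ • (1 : Matrix n n ℂ) := by
      rw [← Dg_one hU, ← Dg_smul]
      congr 1
      funext i
      rw [div_self (hd i).ne']
      have := (hd i).ne'
      by_cases h : f 1 = 0
      · simp [h]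
      · field_simp
    rw [h3, smul_sub, smul_smul, mul_inv_cancel₀ hT.ne', one_smul]
    simp [Matrix.mul_sub, (trL_iff hι Y).2 hY]

theorem nrm_D_iff [Nonempty n] (hι : IsHermModel ι) (hg : IsPetz ι f g)
    (hfs : ∀ t, 0 < t → f t = t * f t⁻¹) {ρ : E} {V : Submodule ℝ E}
    (hpos : ∀ X, X ≠ 0 → 0 < g ρ X X) (hV : ∀ X ∈ V, trL ι X = 0) (hU : U * star U = 1) {q : E}
    {d : n → ℝ} (hq : ι q = Dg U d) (hd : ∀ i, 0 < d i) (X : E) :
    fderiv ℝ (nrm ι) q X ∈ orth (trL ι) (g (nrm ι q)).flip (orth (trL ι) (g ρ) V) ↔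
      Sch U (fun i j => (d j * f (d i / d j))⁻¹) (ι X) ∈ eRep ι g ρ V := by
  refine mem_D_iff hι hpos hV (Sch_herm hU (fun i j => ?_) (herm_ι hι X))
    (nrm_rep hι hg hU hq hd X).1 (nrm_rep hι hg hU hq hd X).2
  rw [hfs _ (div_pos (hd i) (hd j)), inv_div, ← mul_assoc, mul_div_cancel₀ _ (hd j).ne']

theorem mem_V_iff [Nonempty n] (hι : IsHermModel ι) (hg : IsPetz ι f g)
    (hfs : ∀ t, 0 < t → f t = t * f t⁻¹) {ρ : E} {V : Submodule ℝ E}
    (hpos : ∀ X, X ≠ 0 → 0 < g ρ X X) (hV : ∀ X ∈ V, trL ι X = 0) (hU : U * star U = 1)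
    {d : n → ℝ} (hq : ι ρ = Dg U d) (hd : ∀ i, 0 < d i) (hρ : trL ι ρ = 1) {X : E}
    (hX : trL ι X = 0) :
    X ∈ V ↔ Sch U (fun i j => (d j * f (d i / d j))⁻¹) (ι X) ∈ eRep ι g ρ V := by
  have h := nrm_D_iff hι hg hfs hpos hV hU hq hd X
  have h1 : nrm ι ρ = ρ := by simp [nrm, hρ]
  rw [fderiv_nrm (by simp [hρ]), h1, orth_orth _ _ V hpos hV] at h
  simpa [hρ, hX] using h

theorem tangent_cone {N : Set E} (hN1 : ∀ q ∈ N, trL ι q = 1) {q X : E} (hq : 0 < trL ι q)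
    (h : fderiv ℝ (nrm ι) q X ∈ tangent N (nrm ι q)) :
    ∃ γ : ℝ → E, γ 0 = q ∧ (∀ᶠ t in 𝓝 (0 : ℝ), ∃ c : ℝ, 0 < c ∧ ∃ p ∈ N, γ t = c • p) ∧
      HasDerivAt γ X 0 := by
  obtain ⟨γ, h0, hN, hd⟩ := h
  have hs : HasDerivAt (fun t : ℝ => trL ι q + t * trL ι X) (trL ι X) 0 := by
    simpa using ((hasDerivAt_id (0 : ℝ)).mul_const (trL ι X)).const_add (trL ι q)
  refine ⟨fun t => (trL ι q + t * trL ι X) • γ t, ?_, ?_, ?_⟩
  · simp [h0, nrm, smul_smul, hq.ne']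
  · filter_upwards [hN, hs.continuousAt.eventually (lt_mem_nhds (by simpa using hq))] with t ht ht'
    exact ⟨_, ht', _, ht, rfl⟩
  · refine (hs.smul hd).congr_deriv ?_
    rw [fderiv_nrm hq.ne', h0, nrm]
    simp only [zero_mul, add_zero, smul_sub, smul_smul]
    have := hq.ne'
    rw [mul_inv_cancel₀ this, one_smul, sub_add, ← sub_smul, sub_eq_self]
    refine smul_eq_zero_of_left ?_ _
    field_simp
    ring

end Pool.Agent.Work.MP_2482e4_mp
end

-- merged part: Pool.Agent.Work.MP_2482e4_mp.Pow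
section
open scoped ComplexOrder Topology ContDiff Matrix.Norms.L2Operator
open Matrix NormedSpace Filter

namespace Pool.Agent.Work.MP_2482e4_mp

theorem fK_id {κ : ℝ} (hκ : 0 < κ) (x y : ℝ) :
    Real.exp y * fKappa κ (Real.exp x / Real.exp y) * ddExp (κ * x) (κ * y) =
      ddExp x y * (Real.exp (κ * x) + Real.exp (κ * y)) / 2 := by
  by_cases h : x = y
  · subst h
    simp [fKappa, ddExp, (Real.exp_pos x).ne']
    ring
  · have h1 : Real.exp x / Real.exp y ≠ 1 := by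
      rw [Ne, div_eq_one_iff_eq (Real.exp_pos y).ne', Real.exp_eq_exp]; exact h
    have h2 : κ * x ≠ κ * y := fun h' => h (mul_left_cancel₀ hκ.ne' h')
    have h3 : (Real.exp x / Real.exp y) ^ κ = Real.exp (κ * x) / Real.exp (κ * y) := by
      rw [← Real.exp_sub, ← Real.exp_mul, ← Real.exp_sub]; congr 1; ring
    have h4 : Real.exp (κ * x) - Real.exp (κ * y) ≠ 0 := by
      rw [sub_ne_zero, Ne, Real.exp_eq_exp]; exact h2
    have h5 : x - y ≠ 0 := sub_ne_zero.2 h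
    have h6 := (Real.exp_pos y).ne'
    have h7 := (Real.exp_pos (κ * y)).ne'
    simp only [fKappa, ddExp, if_neg h, if_neg h1, if_neg h2, h3, ← mul_sub]
    rw [div_sub_one h7, div_add_one h7, div_sub_one h6]
    field_simp

theorem fK_pos {κ : ℝ} (hκ : 0 < κ) (t : ℝ) (ht : 0 < t) : 0 < fKappa κ t := by
  have h := fK_id hκ (Real.log t) 0
  rw [Real.exp_log ht, Real.exp_zero, one_mul, div_one] at h
  have h1 := ddExp_pos (κ * Real.log t) (κ * 0)
  have h2 := ddExp_pos (Real.log t) 0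
  exact (mul_pos_iff_of_pos_right h1).1 (h ▸ by positivity)

theorem fK_symm {κ : ℝ} (hκ : 0 < κ) (t : ℝ) (ht : 0 < t) : fKappa κ t = t * fKappa κ t⁻¹ := by
  have h := fK_id hκ (Real.log t) 0
  have h' := fK_id hκ 0 (Real.log t)
  rw [Real.exp_log ht, Real.exp_zero, one_mul, div_one] at h
  rw [Real.exp_log ht, Real.exp_zero, one_div, ddExp_comm, ddExp_comm 0, add_comm, ← h] at h'
  exact (mul_right_cancel₀ (ddExp_pos _ _).ne' h').symm

variable {E : Type} [NormedAddCommGroup E] [NormedSpace ℝ E] [FiniteDimensional ℝ E]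
variable {n : Type} [Fintype n] [DecidableEq n]
variable {ι : E →ₗ[ℝ] Matrix n n ℂ} {U : Matrix n n ℂ} {g : E → E →L[ℝ] E →L[ℝ] ℝ}

/-- The power `q ^ κ`. -/
noncomputable def pw (ι : E →ₗ[ℝ] Matrix n n ℂ) (κ : ℝ) (q : E) : E := ex ι (κ • lg ι q)

theorem pw_posDef (hι : IsHermModel ι) (κ : ℝ) (q : E) : (ι (pw ι κ q)).PosDef := ex_posDef hι _

theorem pw_cd (hι : IsHermModel ι) (κ : ℝ) {q : E} (hq : (ι q).PosDef) :
    ContDiffAt ℝ ω (pw ι κ) q :=
  (ex_cd _).comp q ((lg_cd hι hq).const_smul κ)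

theorem pw_pw (hι : IsHermModel ι) {κ κ' : ℝ} (h : κ * κ' = 1) {q : E} (hq : (ι q).PosDef) :
    pw ι κ (pw ι κ' q) = q := by
  rw [pw, pw, lg_ex hι, smul_smul, h, one_smul, ex_lg hι hq]

theorem ι_smul_lg (hι : IsHermModel ι) (hU : U * star U = 1) (κ : ℝ) {q : E} {d : n → ℝ}
    (hq : ι q = Dg U d) (hd : ∀ i, 0 < d i) :
    ι (κ • lg ι q) = Dg U fun i => κ * Real.log (d i) := by
  rw [map_smul, (ι_lg_Dg hι hU hq hd).1, Dg_smul]

theorem ι_pw (hι : IsHermModel ι) (hU : U * star U = 1) (κ : ℝ) {q : E} {d : n → ℝ}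
    (hq : ι q = Dg U d) (hd : ∀ i, 0 < d i) :
    ι (pw ι κ q) = Dg U fun i => Real.exp (κ * Real.log (d i)) :=
  ι_ex_Dg hι hU (ι_smul_lg hι hU κ hq hd)

theorem ι_fderiv_pw (hι : IsHermModel ι) (hU : U * star U = 1) (κ : ℝ) {q : E} {d : n → ℝ}
    (hq : ι q = Dg U d) (hd : ∀ i, 0 < d i) (v : E) :
    ι (fderiv ℝ (pw ι κ) q v) = Sch U (fun i j => κ * (ddExp (κ * Real.log (d i))
      (κ * Real.log (d j)) * (ddExp (Real.log (d i)) (Real.log (d j)))⁻¹)) (ι v) := by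
  have h1 : HasFDerivAt (pw ι κ) _ q :=
    ((ex_cd (ι := ι) (κ • lg ι q)).differentiableAt (by simp)).hasFDerivAt.comp q
      (((lg_cd hι (hq ▸ (posDef_Dg hU d).2 hd)).differentiableAt
        (by simp)).hasFDerivAt.const_smul κ)
  rw [h1.fderiv, ContinuousLinearMap.comp_apply, ι_fderiv_ex hι hU (ι_smul_lg hι hU κ hq hd),
    _root_.smul_apply, map_smul, ι_fderiv_lg hι hU hq hd, Sch_real_smul, Sch_Sch hU,
    Sch_const_mul hU]

theorem fderiv_pw_pw (hι : IsHermModel ι) {κ κ' : ℝ} (h : κ * κ' = 1) {q : E} (hq : (ι q).PosDef)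
    (v : E) : fderiv ℝ (pw ι κ) (pw ι κ' q) (fderiv ℝ (pw ι κ') q v) = v := by
  have h1 := ((pw_cd hι κ (pw_posDef hι κ' q)).differentiableAt (by simp)).hasFDerivAt.comp q
    ((pw_cd hι κ' hq).differentiableAt (by simp)).hasFDerivAt
  have h2 : HasFDerivAt (pw ι κ ∘ pw ι κ') (ContinuousLinearMap.id ℝ E) q :=
    (hasFDerivAt_id q).congr_of_eventuallyEq ((posDef_near hι hq).mono fun p hp => pw_pw hι h hp)
  exact congrArg (fun L : E →L[ℝ] E => L v) (h1.unique h2)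

/-- The state attached to `σ = q ^ κ`. -/
noncomputable def psi (ι : E →ₗ[ℝ] Matrix n n ℂ) (κ : ℝ) (σ : E) : E := nrm ι (pw ι κ⁻¹ σ)

theorem psi_cd [Nonempty n] (hι : IsHermModel ι) (κ : ℝ) {σ : E} (hσ : (ι σ).PosDef) :
    ContDiffAt ℝ ω (psi ι κ) σ :=
  (nrm_cd (trL_pos (pw_posDef hι _ σ)).ne').comp σ (pw_cd hι _ hσ)

theorem fderiv_psi [Nonempty n] (hι : IsHermModel ι) (κ : ℝ) {σ : E} (hσ : (ι σ).PosDef) (w : E) :
    fderiv ℝ (psi ι κ) σ w = fderiv ℝ (nrm ι) (pw ι κ⁻¹ σ) (fderiv ℝ (pw ι κ⁻¹) σ w) := by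
  have h1 : HasFDerivAt (psi ι κ) _ σ :=
    ((nrm_cd (trL_pos (pw_posDef hι _ σ)).ne').differentiableAt (by simp)).hasFDerivAt.comp σ
      ((pw_cd hι _ hσ).differentiableAt (by simp)).hasFDerivAt
  rw [h1.fderiv]; rfl

theorem lyap (hU : U * star U = 1) (s : n → ℝ) (A : Matrix n n ℂ) :
    A * Dg U s + Dg U s * A = Sch U (fun i j => s i + s j) A := by
  rw [Dg_mul hU, mul_Dg hU, Sch_add hU, add_comm]

theorem lyap_inj {S A B : Matrix n n ℂ} (hS : S.PosDef) (h : A * S + S * A = B * S + S * B) :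
    A = B := by
  obtain ⟨U, s, hU, rfl⟩ := exists_Dg hS.isHermitian
  have hs := (posDef_Dg hU s).1 hS
  rw [lyap hU, lyap hU] at h
  exact Sch_inj hU (fun i j => (add_pos (hs i) (hs j)).ne') h

theorem psi_rep (hι : IsHermModel ι) {κ : ℝ} (hκ : 0 < κ) (hU : U * star U = 1) {σ : E}
    {s : n → ℝ} (hσ : ι σ = Dg U s) (hs : ∀ i, 0 < s i) (w : E) :
    Sch U (fun i j => (Real.exp (κ⁻¹ * Real.log (s j)) * fKappa κ
      (Real.exp (κ⁻¹ * Real.log (s i)) / Real.exp (κ⁻¹ * Real.log (s j))))⁻¹)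
      (ι (fderiv ℝ (pw ι κ⁻¹) σ w)) = (2 * κ⁻¹) • Sch U (fun i j => (s i + s j)⁻¹) (ι w) := by
  rw [ι_fderiv_pw hι hU _ hσ hs, Sch_Sch hU, ← Sch_const_mul hU]
  refine Sch_congr (fun i j => ?_) _
  have h := fK_id hκ (κ⁻¹ * Real.log (s i)) (κ⁻¹ * Real.log (s j))
  simp only [mul_inv_cancel_left₀ hκ.ne', Real.exp_log (hs _)] at h
  have h1 := (ddExp_pos (Real.log (s i)) (Real.log (s j))).ne'
  have h2 := (ddExp_pos (κ⁻¹ * Real.log (s i)) (κ⁻¹ * Real.log (s j))).ne'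
  have h3 := (add_pos (hs i) (hs j)).ne'
  rw [eq_div_iff h1 |>.2 h]
  generalize ddExp (κ⁻¹ * Real.log (s i)) (κ⁻¹ * Real.log (s j)) = a at h2
  field_simp

theorem psi_D_iff [Nonempty n] (hι : IsHermModel ι) {κ : ℝ} (hκ : 0 < κ)
    (hg : IsPetz ι (fKappa κ) g) {ρ : E} {V : Submodule ℝ E} (hρ : (ι ρ).PosDef)
    (hV : ∀ X ∈ V, trL ι X = 0) {σ : E} (hσ : (ι σ).PosDef) (w : E) :
    fderiv ℝ (psi ι κ) σ w ∈ orth (trL ι) (g (psi ι κ σ)).flip (orth (trL ι) (g ρ) V) ↔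
      ∃ A ∈ eRep ι g ρ V, ι w = A * ι σ + ι σ * A := by
  obtain ⟨U, s, hU, hx, hs⟩ := exists_Dg_pos hσ
  rw [fderiv_psi hι κ hσ, psi, nrm_D_iff hι hg (fK_symm hκ) (petz_pos hι hg (fK_pos hκ) hρ) hV hU
    (ι_pw hι hU κ⁻¹ hx hs) (fun i => Real.exp_pos _), psi_rep hι hκ hU hx hs]
  have hc : 2 * κ⁻¹ ≠ 0 := by positivity
  have h1 := (eRepS ι g ρ V).smul_mem_iff (x := Sch U (fun i j => (s i + s j)⁻¹) (ι w)) hc
  refine h1.trans ⟨fun h => ⟨_, h, ?_⟩, ?_⟩
  · rw [hx, lyap hU, Sch_Sch hU, Sch_congr (l := fun _ _ => 1)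
      (fun i j => mul_inv_cancel₀ (add_pos (hs i) (hs j)).ne'), Sch_one hU]
  · rintro ⟨A, hA, h⟩
    rw [h, hx, lyap hU, Sch_Sch hU, Sch_congr (l := fun _ _ => 1)
      (fun i j => inv_mul_cancel₀ (add_pos (hs i) (hs j)).ne'), Sch_one hU]
    exact hA

theorem lie_cond [Nonempty n] (hι : IsHermModel ι) {κ : ℝ} (hκ : 0 < κ)
    (hg : IsPetz ι (fKappa κ) g) {ρ : E} {V : Submodule ℝ E} (hρ : ρ ∈ states ι)
    (hV : ∀ X ∈ V, trL ι X = 0) {k : Matrix n n ℂ} (hk : star k = -k) :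
    (∃ X ∈ V, ι X = ⁅k, ι ρ⁆) ↔ ∃ A ∈ eRep ι g ρ V,
      k * ι (pw ι κ ρ) + ι (pw ι κ ρ) * star k = A * ι (pw ι κ ρ) + ι (pw ι κ ρ) * A := by
  obtain ⟨U, d, hU, hx, hd⟩ := exists_Dg_pos hρ.1
  have hh : (⁅k, ι ρ⁆).IsHermitian := by
    change star _ = _
    rw [Ring.lie_def, star_sub, star_mul, star_mul, hk, show star (ι ρ) = ι ρ from herm_ι hι ρ]
    simp only [mul_neg, neg_mul]; abel
  have h0 : trL ι (jL ι ⁅k, ι ρ⁆) = 0 := by
    rw [← trL_iff hι, ι_jL hι hh, Ring.lie_def, trace_sub, trace_mul_comm, sub_self]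
  have h1 := mem_V_iff hι hg (fK_symm hκ) (petz_pos hι hg (fK_pos hκ) hρ.1) hV hU hx hd
    (nrm_of_states hι hρ) h0
  set s : n → ℝ := fun i => Real.exp (κ * Real.log (d i)) with hs
  have hsp : ∀ i, 0 < s i := fun i => Real.exp_pos _
  have h2 : Sch U (fun i j => (d j * fKappa κ (d i / d j))⁻¹) ⁅k, ι ρ⁆ =
      (2 * κ⁻¹) • Sch U (fun i j => (s i + s j)⁻¹ * (s j - s i)) k := by
    rw [Ring.lie_def, hx, Dg_mul hU, mul_Dg hU, ← Sch_sub hU, Sch_Sch hU, ← Sch_const_mul hU]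
    refine Sch_congr (fun i j => ?_) _
    have h := fK_id hκ (Real.log (d i)) (Real.log (d j))
    simp only [Real.exp_log (hd _)] at h
    have e : ∀ x y, Real.exp x - Real.exp y = ddExp x y * (x - y) := fun x y => by
      unfold ddExp
      split_ifs with hxy
      · simp [hxy]
      · rw [div_mul_cancel₀ _ (sub_ne_zero.2 hxy)]
    have e1 := e (Real.log (d j)) (Real.log (d i))
    simp only [Real.exp_log (hd _)] at e1
    have e2 : s j - s i = _ := e _ _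
    have h3 := (ddExp_pos (κ * Real.log (d i)) (κ * Real.log (d j))).ne'
    have h4 := (ddExp_pos (Real.log (d i)) (Real.log (d j))).ne'
    have h5 := (add_pos (hsp i) (hsp j)).ne'
    rw [eq_div_iff h3 |>.2 h, e1, e2, ddExp_comm (κ * Real.log (d j)),
      ddExp_comm (Real.log (d j))]
    change _ = _ * ((s i + s j)⁻¹ * _)
    have h6 : Real.exp (κ * Real.log (d i)) + Real.exp (κ * Real.log (d j)) = s i + s j := rfl
    rw [h6]
    field_simp
  rw [ι_jL hι hh, h2] at h1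
  have hc : 2 * κ⁻¹ ≠ 0 := by positivity
  have h3 := (eRepS ι g ρ V).smul_mem_iff
    (x := Sch U (fun i j => (s i + s j)⁻¹ * (s j - s i)) k) hc
  have h4 : k * Dg U s + Dg U s * star k = Sch U (fun i j => s j - s i) k := by
    rw [hk, mul_neg, Dg_mul hU, mul_Dg hU, Sch_sub hU, sub_eq_add_neg]
  rw [ι_pw hι hU κ hx hd, h4]
  constructor
  · rintro ⟨X, hX, h⟩
    refine ⟨_, h3.1 (h1.1 (by rw [← h, jL_ι hι]; exact hX)), ?_⟩
    rw [lyap hU, Sch_Sch hU]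
    exact Sch_congr (fun i j => (mul_inv_cancel_left₀ (add_pos (hsp i) (hsp j)).ne' _).symm) _
  · rintro ⟨A, hA, h⟩
    refine ⟨_, h1.2 (h3.2 ?_), ι_jL hι hh⟩
    rw [← Sch_Sch hU, h, lyap hU, Sch_Sch hU, Sch_congr (l := fun _ _ => 1)
      (fun i j => inv_mul_cancel₀ (add_pos (hsp i) (hsp j)).ne'), Sch_one hU]
    exact hA

end Pool.Agent.Work.MP_2482e4_mp
end

-- merged part: Pool.Agent.Work.MP_2482e4_mp.FamNec
section
open scoped ComplexOrder Topology ContDiff Matrix.Norms.L2Operator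
open Matrix NormedSpace Filter

namespace Pool.Agent.Work.MP_2482e4_mp

variable {E : Type} [NormedAddCommGroup E] [NormedSpace ℝ E] [FiniteDimensional ℝ E]
variable {n : Type} [Fintype n] [DecidableEq n]
variable {ι : E →ₗ[ℝ] Matrix n n ℂ} {U : Matrix n n ℂ} {g : E → E →L[ℝ] E →L[ℝ] ℝ}

/-- The linear vector field `σ ↦ X σ + σ X*`. -/
noncomputable def Lm (ι : E →ₗ[ℝ] Matrix n n ℂ) (X : Matrix n n ℂ) : E →L[ℝ] E :=
  (jL ι).comp (LinearMap.toContinuousLinearMap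
    ((LinearMap.mulLeft ℝ X + LinearMap.mulRight ℝ (star X)) ∘ₗ ι))

theorem ι_Lm (hι : IsHermModel ι) (X : Matrix n n ℂ) (σ : E) :
    ι (Lm ι X σ) = X * ι σ + ι σ * star X := by
  refine ι_jL hι ?_
  change star (X * ι σ + ι σ * star X) = X * ι σ + ι σ * star X
  rw [star_add, star_mul, star_mul, star_star, show star (ι σ) = ι σ from herm_ι hι σ, add_comm]

theorem Lm_lie (hι : IsHermModel ι) (X Y : Matrix n n ℂ) (σ : E) :
    Lm ι X (Lm ι Y σ) - Lm ι Y (Lm ι X σ) = Lm ι ⁅X, Y⁆ σ := by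
  apply hι.1
  simp only [map_sub, ι_Lm hι, Ring.lie_def, star_sub, star_mul]
  noncomm_ring

theorem star_lie {A B : Matrix n n ℂ} (hA : A.IsHermitian) (hB : B.IsHermitian) :
    star ⁅A, B⁆ = -⁅A, B⁆ := by
  rw [Ring.lie_def, star_sub, star_mul, star_mul, show star A = A from hA, show star B = B from hB,
    neg_sub]

theorem herm_lie {k C : Matrix n n ℂ} (hk : star k = -k) (hC : C.IsHermitian) :
    star ⁅k, C⁆ = ⁅k, C⁆ := by
  rw [Ring.lie_def, star_sub, star_mul, star_mul, hk, show star C = C from hC]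
  noncomm_ring

omit [FiniteDimensional ℝ E] in
theorem nonempty_of_states {ρ : E} (hρ : ρ ∈ states ι) : Nonempty n := by
  by_contra h
  have := not_nonempty_iff.1 h
  have h1 := hρ.2
  simp [Matrix.trace] at h1

theorem exists_Q (F : Submodule ℝ E) : ∃ Q : E →L[ℝ] E, (∀ x, Q x = 0 ↔ x ∈ F) ∧
    ∀ x, x - Q x ∈ F := by
  obtain ⟨G, hG⟩ := F.exists_isCompl
  refine ⟨LinearMap.toContinuousLinearMap (G.projection F hG.symm), fun x => by simp, fun x => ?_⟩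
  rw [LinearMap.coe_toContinuousLinearMap',
    ← eq_sub_of_add_eq (Submodule.projection_add_projection_eq_self hG x)]
  exact Submodule.projection_apply_mem hG x

theorem family_nec (hι : IsHermModel ι) {κ : ℝ} (hκ : 0 < κ) (hg : IsPetz ι (fKappa κ) g)
    (hsm : ∀ q, (ι q).PosDef → ContDiffAt ℝ ∞ g q) {ρ : E} (hρ : ρ ∈ states ι)
    {V : Submodule ℝ E} (hV : ∀ X ∈ V, trL ι X = 0) (h : Admissible ι g ρ V) :
    IsLieTriple (eRep ι g ρ V) ∧
      ∀ A ∈ eRep ι g ρ V, ∀ B ∈ eRep ι g ρ V, ∃ X ∈ V, ι X = ⁅⁅A, B⁆, ι ρ⁆ := by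
  have := nonempty_of_states hρ
  obtain ⟨N, hNs, hNm, hauto, hρN, hT⟩ := h
  obtain ⟨Φ, F, hρs, hΦ, hΦ', hN⟩ := hNm ρ hρN
  have hN1 : ∀ q ∈ N, trL ι q = 1 := fun q hq => nrm_of_states hι (hNs hq)
  have hA := tangent_eq_near (trL_iff hι) hN1 (fun q hq => hsm q (hNs hq).1)
    (fun q hq => petz_pos hι hg (fK_pos hκ) (hNs hq).1) hρs hΦ hΦ' hN hauto hρN hT
  obtain ⟨Q, hQ, -⟩ := exists_Q F
  set σ0 := pw ι κ ρ with hσ0
  have hσ0p : (ι σ0).PosDef := pw_posDef hι _ _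
  have hψ0 : psi ι κ σ0 = ρ := by
    rw [psi, pw_pw hι (inv_mul_cancel₀ hκ.ne') hρ.1, nrm, hN1 ρ hρN]; simp
  set M : Set E := {σ | (ι σ).PosDef ∧ psi ι κ σ ∈ N} with hM
  have hc : Tendsto (psi ι κ) (𝓝 σ0) (𝓝 ρ) := hψ0 ▸ (psi_cd hι κ hσ0p).continuousAt
  have hc' : Tendsto (psi ι κ) (𝓝[M] σ0) (𝓝[N] ρ) :=
    tendsto_nhdsWithin_iff.2 ⟨hc.mono_left nhdsWithin_le_nhds,
      eventually_mem_nhdsWithin.mono fun σ hσ => hσ.2⟩
  have hsrc : ∀ᶠ σ in 𝓝 σ0, psi ι κ σ ∈ Φ.source := hc.eventually (Φ.open_source.mem_nhds hρs)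
  set h : E → E := Q ∘ Φ ∘ psi ι κ with hh
  have hcd : ∀ᶠ σ in 𝓝 σ0, ContDiffAt ℝ 2 h σ := by
    filter_upwards [hsrc, posDef_near hι hσ0p] with σ h1 h2
    exact Q.contDiff.contDiffAt.comp σ (((chart_cd hΦ h1).of_le (WithTop.coe_le_coe.2 le_top)).comp σ
      ((psi_cd hι κ h2).of_le le_top))
  have hker : ∀ᶠ σ in 𝓝[M] σ0, ∀ w, fderiv ℝ h σ w = 0 ↔
      fderiv ℝ (psi ι κ) σ w ∈ tangent N (psi ι κ σ) := by
    filter_upwards [mem_nhdsWithin_of_mem_nhds hsrc, self_mem_nhdsWithin] with σ h1 h2 w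
    have h3 : HasFDerivAt h _ σ := Q.hasFDerivAt.comp σ
      (((chart_cd hΦ h1).differentiableAt (by simp)).hasFDerivAt.comp σ
        ((psi_cd hι κ h2.1).differentiableAt (by simp)).hasFDerivAt)
    rw [h3.fderiv, tangent_iff hΦ hΦ' hN h1 h2.2, ← hQ]
    rfl
  have hD : ∀ᶠ σ in 𝓝[M] σ0, ∀ w, fderiv ℝ h σ w = 0 ↔
      ∃ A ∈ eRep ι g ρ V, ι w = A * ι σ + ι σ * A := by
    filter_upwards [hker, hc'.eventually hA, self_mem_nhdsWithin] with σ h1 h2 h3 w
    rw [h1, h2, SetLike.mem_coe, psi_D_iff hι hκ hg hρ.1 hV h3.1]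
  have H1 : ∀ᶠ σ in 𝓝[M] σ0, ∀ w, fderiv ℝ h σ w = 0 → w ∈ tangent M σ := by
    filter_upwards [hker, self_mem_nhdsWithin] with σ h1 h2 w hw
    have h3 := (h1 w).1 hw
    rw [fderiv_psi hι κ h2.1] at h3
    obtain ⟨γ, h0, hγ, hd⟩ := tangent_cone hN1 (trL_pos (pw_posDef hι _ _)) h3
    refine ⟨pw ι κ ∘ γ, ?_, ?_, ?_⟩
    · rw [Function.comp, h0, pw_pw hι (mul_inv_cancel₀ hκ.ne') h2.1]
    · filter_upwards [hγ] with t ⟨c, hc, p, hp, ht⟩
      refine ⟨pw_posDef hι _ _, ?_⟩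
      rw [Function.comp, psi, ht, pw_pw hι (inv_mul_cancel₀ hκ.ne') (smul_posDef (hNs hp).1 hc),
        nrm_smul (hN1 p hp) hc.ne']
      exact hp
    · have := HasFDerivAt.comp_hasDerivAt_of_eq (0 : ℝ) ((pw_cd hι κ
        (pw_posDef hι κ⁻¹ σ)).differentiableAt (by simp)).hasFDerivAt hd h0.symm
      rwa [fderiv_pw_pw hι (mul_inv_cancel₀ hκ.ne') h2.1] at this
  have hL : ∀ A ∈ eRep ι g ρ V, ∀ᶠ σ in 𝓝[M] σ0, fderiv ℝ h σ (Lm ι A σ) = 0 := by
    intro A hA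
    filter_upwards [hD] with σ hσ
    exact (hσ _).2 ⟨A, hA, by rw [ι_Lm hι, show star A = A from hA.1]⟩
  have hbr : ∀ X Y, (∀ᶠ σ in 𝓝[M] σ0, fderiv ℝ h σ (Lm ι X σ) = 0) →
      (∀ᶠ σ in 𝓝[M] σ0, fderiv ℝ h σ (Lm ι Y σ) = 0) →
      ∀ᶠ σ in 𝓝[M] σ0, fderiv ℝ h σ (Lm ι ⁅X, Y⁆ σ) = 0 := by
    intro X Y hX hY
    simpa only [Lm_lie hι] using bracket_closed hcd H1 (Lm ι Y) (Lm ι X) hY hX
  have hσM : σ0 ∈ M := ⟨hσ0p, hψ0 ▸ hρN⟩
  have hD0 := hD.self_of_nhdsWithin hσM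
  constructor
  · intro A hA B hB C hC
    obtain ⟨A', hA', h1⟩ := (hD0 _).1
      ((hbr _ _ (hbr _ _ (hL A hA) (hL B hB)) (hL C hC)).self_of_nhdsWithin hσM)
    rw [ι_Lm hι, herm_lie (star_lie hA.1 hB.1) hC.1] at h1
    rw [lyap_inj hσ0p h1]
    exact hA'
  · intro A hA B hB
    obtain ⟨A', hA', h1⟩ := (hD0 _).1 ((hbr _ _ (hL A hA) (hL B hB)).self_of_nhdsWithin hσM)
    rw [ι_Lm hι] at h1
    exact (lie_cond hι hκ hg hρ hV (star_lie hA.1 hB.1)).2 ⟨A', hA', h1⟩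

end Pool.Agent.Work.MP_2482e4_mp
end

-- merged part: Pool.Agent.Work.MP_2482e4_mp.FamSuf
section
open scoped ComplexOrder Topology ContDiff Matrix.Norms.L2Operator
open Matrix NormedSpace Filter Module

namespace Pool.Agent.Work.MP_2482e4_mp

variable {n : Type} [Fintype n] [DecidableEq n] {U : Matrix n n ℂ}

/-- The map `X ↦ X S + S X*`. -/
def act (S : Matrix n n ℂ) : Matrix n n ℂ →ₗ[ℝ] Matrix n n ℂ where
  toFun X := X * S + S * star X
  map_add' X Y := by rw [star_add]; noncomm_ring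
  map_smul' c X := by simp [smul_add]

theorem ddExp_mul (x y : ℝ) : ddExp x y * Real.exp (-y) = ddExp (x - y) 0 := by
  unfold ddExp
  by_cases h : x = y
  · simp [h, ← Real.exp_add]
  · rw [if_neg h, if_neg (sub_ne_zero.2 h), div_mul_eq_mul_div, sub_mul, ← Real.exp_add,
      ← Real.exp_add]
    simp [sub_eq_add_neg]

theorem orbit_tangent {𝒜 : Submodule ℝ (Matrix n n ℂ)} (hH : ∀ A ∈ 𝒜, A.IsHermitian)
    (hL : IsLieTriple (𝒜 : Set (Matrix n n ℂ))) {S : Matrix n n ℂ} (hS : S.PosDef)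
    (h0 : ∀ A ∈ 𝒜, ∀ B ∈ 𝒜, ∃ C ∈ 𝒜, act S ⁅A, B⁆ = C * S + S * C)
    (hU : U * star U = 1) {c : n → ℝ} (ha : Dg U c ∈ 𝒜) {b : Matrix n n ℂ} (hb : b ∈ 𝒜) :
    ∃ C ∈ 𝒜, Sch U (fun i j => ddExp (c i) (c j)) b * S * exp (Dg U c) +
      exp (Dg U c) * S * Sch U (fun i j => ddExp (c i) (c j)) b =
      C * (exp (Dg U c) * S * exp (Dg U c)) + (exp (Dg U c) * S * exp (Dg U c)) * C := by
  set 𝔨 := Submodule.span ℝ {k | ∃ A ∈ 𝒜, ∃ B ∈ 𝒜, k = ⁅A, B⁆} with h𝔨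
  set W := 𝒜 ⊔ 𝔨 with hWdef
  have hW : ∀ B ∈ W, Sch U (fun i j => c i - c j) B ∈ W := by
    have h1 : W ≤ W.comap ((Sch U (fun i j => c i - c j)).restrictScalars ℝ) := by
      refine sup_le (fun B hB => ?_) (Submodule.span_le.2 ?_)
      · change Sch U _ B ∈ W
        rw [← lie_Dg hU]
        exact Submodule.mem_sup_right (Submodule.subset_span ⟨_, ha, _, hB, rfl⟩)
      · rintro _ ⟨A, hA, B, hB, rfl⟩
        change Sch U _ _ ∈ W
        rw [← lie_Dg hU, Ring.lie_def, ← neg_sub, ← Ring.lie_def]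
        exact Submodule.mem_sup_left (𝒜.neg_mem (hL A hA B hB _ ha))
    exact fun B hB => h1 hB
  set e := exp (Dg U c) with he
  have he' : e = Dg U fun i => Real.exp (c i) := exp_Dg hU c
  set e' := Dg U fun i => Real.exp (-c i) with he'd
  have hee : e * e' = 1 := by
    rw [he', Dg_mul hU, Sch_Dg hU, ← Dg_one hU]
    simp [← Real.exp_add]
  have hee' : e' * e = 1 := mul_eq_one_comm.1 hee
  have hse : star e = e := he' ▸ Dg_herm _
  have hse' : star e' = e' := Dg_herm _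
  set σ := e * S * e with hσ
  have hσp : σ.PosDef := by
    have hu : IsUnit e := ⟨⟨e, e', hee, hee'⟩, rfl⟩
    have := hu.posDef_star_right_conjugate_iff.2 hS
    rwa [hse] at this
  have hAd : ∀ X ∈ W, e' * X * e ∈ W := by
    intro X hX
    have := Sch_comp_mem hU W _ hW (fun x => Real.exp (-x)) hX
    rw [he', Dg_mul hU, mul_Dg hU, Sch_Sch hU]
    rwa [Sch_congr (l := fun i j => Real.exp (-(c i - c j))) fun i j => by
      rw [← Real.exp_add]; congr 1; ring]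
  have hW0 : W.map (act S) ≤ 𝒜.map (act S) := by
    rw [Submodule.map_le_iff_le_comap]
    refine sup_le (fun B hB => Submodule.mem_map_of_mem hB) (Submodule.span_le.2 ?_)
    rintro _ ⟨A, hA, B, hB, rfl⟩
    obtain ⟨C, hC, h⟩ := h0 A hA B hB
    refine ⟨C, hC, ?_⟩
    rw [h]
    change C * S + S * star C = _
    rw [show star C = C from hH C hC]
  have h1 : W.map (act σ) ≤ (W.map (act S)).map
      (LinearMap.mulLeft ℝ e ∘ₗ LinearMap.mulRight ℝ e) := by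
    rintro _ ⟨X, hX, rfl⟩
    refine ⟨_, ⟨_, hAd X hX, rfl⟩, ?_⟩
    change e * ((e' * X * e * S + S * star (e' * X * e)) * e) = X * σ + σ * star X
    rw [star_mul, star_mul, hse, hse', hσ]
    calc _ = (e * e') * X * e * S * e + e * S * e * star X * (e' * e) := by noncomm_ring
      _ = _ := by rw [hee, hee']; noncomm_ring
  have h2 : finrank ℝ (𝒜.map (act σ)) = finrank ℝ 𝒜 := by
    rw [← LinearMap.range_domRestrict]
    refine LinearMap.finrank_range_of_inj fun A B h => Subtype.ext (lyap_inj hσp ?_)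
    change A.1 * σ + σ * star A.1 = B.1 * σ + σ * star B.1 at h
    rwa [show star A.1 = A.1 from hH _ A.2, show star B.1 = B.1 from hH _ B.2] at h
  have h3 : 𝒜.map (act σ) = W.map (act σ) := by
    refine Submodule.eq_of_le_of_finrank_le (Submodule.map_mono le_sup_left) ?_
    rw [h2]
    exact (Submodule.finrank_mono h1).trans ((Submodule.finrank_map_le _ _).trans
      ((Submodule.finrank_mono hW0).trans (Submodule.finrank_map_le _ _)))
  set D := Sch U (fun i j => ddExp (c i) (c j)) b with hD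
  have hsD : star D = D := Sch_herm hU (fun i j => ddExp_comm _ _) (hH b hb)
  have hX : D * e' ∈ W := by
    have := Sch_comp_mem hU W _ hW (fun x => ddExp x 0) (Submodule.mem_sup_left hb)
    rw [mul_Dg hU, Sch_Sch hU]
    rwa [Sch_congr (l := fun i j => ddExp (c i - c j) 0) fun i j => by rw [mul_comm, ddExp_mul]]
  obtain ⟨C, hC, h4⟩ : act σ (D * e') ∈ 𝒜.map (act σ) := h3 ▸ Submodule.mem_map_of_mem hX
  refine ⟨C, hC, ?_⟩
  change C * σ + σ * star C = D * e' * σ + σ * star (D * e') at h4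
  rw [show star C = C from hH C hC, star_mul, hsD, hse'] at h4
  rw [h4, hσ]
  calc _ = D * (e' * e) * S * e + e * S * (e * e') * D := by rw [hee, hee']; noncomm_ring
    _ = _ := by noncomm_ring

variable {E : Type} [NormedAddCommGroup E] [NormedSpace ℝ E] [FiniteDimensional ℝ E]
variable {ι : E →ₗ[ℝ] Matrix n n ℂ} {g : E → E →L[ℝ] E →L[ℝ] ℝ}

theorem exists_section {V : Submodule ℝ E} {𝒜 : Submodule ℝ (Matrix n n ℂ)}
    (T : Matrix n n ℂ →L[ℝ] E) (hT : ∀ v ∈ V, ∃ A ∈ 𝒜, T A = v) :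
    ∃ C : E →L[ℝ] Matrix n n ℂ, (∀ x, C x ∈ 𝒜) ∧ ∀ v ∈ V, T (C v) = v := by
  obtain ⟨G, hG⟩ := V.exists_isCompl
  obtain ⟨r, hr⟩ := (T.toLinearMap.domRestrict 𝒜).rangeRestrict.exists_rightInverse_of_surjective
    (LinearMap.range_rangeRestrict _)
  have hle : V ≤ (T.toLinearMap.domRestrict 𝒜).range := fun v hv => by
    obtain ⟨A, hA, h⟩ := hT v hv
    exact ⟨⟨A, hA⟩, h⟩
  refine ⟨LinearMap.toContinuousLinearMap (𝒜.subtype ∘ₗ r ∘ₗ Submodule.inclusion hle ∘ₗ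
    V.projectionOnto G hG), fun x => (r _).2, fun v hv => ?_⟩
  have h1 := congrArg Subtype.val (LinearMap.congr_fun hr (Submodule.inclusion hle
    (V.projectionOnto G hG v)))
  refine h1.trans ?_
  exact Submodule.projection_apply_of_mem_left hG hv

theorem family_suf (hι : IsHermModel ι) {κ : ℝ} (hκ : 0 < κ) (hg : IsPetz ι (fKappa κ) g)
    {ρ : E} (hρ : ρ ∈ states ι) {V : Submodule ℝ E} (hV : ∀ X ∈ V, trL ι X = 0)
    (hL : IsLieTriple (eRep ι g ρ V))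
    (h0 : ∀ A ∈ eRep ι g ρ V, ∀ B ∈ eRep ι g ρ V, ∃ X ∈ V, ι X = ⁅⁅A, B⁆, ι ρ⁆) :
    Admissible ι g ρ V := by
  have := nonempty_of_states hρ
  set σ0 := pw ι κ ρ with hσ0
  have hσ0p : (ι σ0).PosDef := pw_posDef hι _ _
  have hρ1 := nrm_of_states hι hρ
  have hψ0 : psi ι κ σ0 = ρ := by
    rw [psi, pw_pw hι (inv_mul_cancel₀ hκ.ne') hρ.1, nrm, hρ1]; simp
  have hpos := petz_pos hι hg (fK_pos hκ) hρ.1
  set T : Matrix n n ℂ →L[ℝ] E := (fderiv ℝ (psi ι κ) σ0).comp ((jL ι).comp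
    (LinearMap.toContinuousLinearMap (act (ι σ0)))) with hT
  obtain ⟨C, hC, hCT⟩ := exists_section (V := V) (𝒜 := eRepS ι g ρ V) T fun v hv => by
    have h1 : fderiv ℝ (psi ι κ) σ0 (fderiv ℝ (pw ι κ) ρ v) = v := by
      rw [fderiv_psi hι κ hσ0p, fderiv_pw_pw hι (inv_mul_cancel₀ hκ.ne') hρ.1,
        pw_pw hι (inv_mul_cancel₀ hκ.ne') hρ.1, fderiv_nrm (by simp [hρ1])]
      simp [hρ1, hV v hv]
    obtain ⟨A, hA, h2⟩ := (psi_D_iff hι hκ hg hρ.1 hV hσ0p (fderiv ℝ (pw ι κ) ρ v)).1 (by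
      rw [h1, hψ0, orth_orth _ _ V hpos hV]; exact hv)
    refine ⟨A, hA, ?_⟩
    change fderiv ℝ (psi ι κ) σ0 (jL ι (A * ι σ0 + ι σ0 * star A)) = v
    rw [show star A = A from hA.1, ← h2, jL_ι hι, h1]
  set Γ : E → E := fun x => jL ι (exp (C x) * ι σ0 * exp (C x)) with hΓ
  have hecd : ∀ x, ContDiffAt ℝ ω (fun y => exp (C y)) x := fun x =>
    (exp_analytic (𝕂 := ℝ) (C x)).contDiffAt.comp x C.contDiff.contDiffAt
  have hed : ∀ x, HasFDerivAt (fun y => exp (C y))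
      (((fderiv ℂ exp (C x)).restrictScalars ℝ).comp C) x := fun x =>
    ((exp_analytic (𝕂 := ℂ) (C x)).differentiableAt.hasFDerivAt.restrictScalars ℝ).comp x
      C.hasFDerivAt
  have hΓcd : ∀ x, ContDiffAt ℝ ω Γ x := fun x =>
    (jL ι).contDiff.contDiffAt.comp x (((hecd x).mul contDiffAt_const).mul (hecd x))
  have hΓd : ∀ x v, fderiv ℝ Γ x v = jL ι (fderiv ℂ exp (C x) (C v) * ι σ0 * exp (C x) +
      exp (C x) * ι σ0 * fderiv ℂ exp (C x) (C v)) := fun x v => by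
    have h1 : HasFDerivAt Γ _ x :=
      (jL ι).hasFDerivAt.comp x (((hed x).mul_const' (ι σ0)).mul' (hed x))
    rw [h1.fderiv]
    simp [add_comm]
  have hΓp : ∀ x, (exp (C x) * ι σ0 * exp (C x)).PosDef := fun x => by
    have := (Matrix.isUnit_exp (C x)).posDef_star_right_conjugate_iff.2 hσ0p
    rwa [show star (exp (C x)) = exp (C x) from (hC x).1.exp] at this
  have hιΓ : ∀ x, ι (Γ x) = exp (C x) * ι σ0 * exp (C x) := fun x => ι_jL hι (hΓp x).1
  have hΓ0 : Γ 0 = σ0 := by simp [hΓ, jL_ι hι]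
  have hΨd : ∀ x v, fderiv ℝ (psi ι κ ∘ Γ) x v = fderiv ℝ (psi ι κ) (Γ x) (fderiv ℝ Γ x v) :=
    fun x v => by
      rw [fderiv_comp x ((psi_cd hι κ (hιΓ x ▸ hΓp x)).differentiableAt (by simp))
        ((hΓcd x).differentiableAt (by simp))]
      rfl
  refine admissible_of (trL_iff hι) hV (fun q hq => petz_pos hι hg (fK_pos hκ) hq.1)
    (Ψ := psi ι κ ∘ Γ) ((psi_cd hι κ (hιΓ 0 ▸ hΓp 0)).comp 0 (hΓcd 0)) (by simp [hΓ0, hψ0])
    (fun v hv => ?_) (Eventually.of_forall fun x => ⟨nrm_states hι (pw_posDef hι _ _), fun v => ?_⟩)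
  · rw [hΨd, hΓd, hΓ0, map_zero, fderiv_exp_commute (Commute.zero_left _), exp_zero]
    refine Eq.trans ?_ (hCT v hv)
    change _ = fderiv ℝ (psi ι κ) σ0 (jL ι (C v * ι σ0 + ι σ0 * star (C v)))
    rw [show star (C v) = C v from (hC v).1]
    simp
  · rw [hΨd, Function.comp, psi_D_iff hι hκ hg hρ.1 hV (hιΓ x ▸ hΓp x), hΓd, hιΓ]
    obtain ⟨U, c, hU, hc⟩ := exists_Dg (hC x).1
    obtain ⟨A, hA, h1⟩ := orbit_tangent (𝒜 := eRepS ι g ρ V) (fun A hA => hA.1) hL hσ0p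
      (fun A hA B hB => (lie_cond hι hκ hg hρ hV (star_lie hA.1 hB.1)).1 (h0 A hA B hB)) hU
      (hc ▸ hC x) (hC v)
    refine ⟨A, hA, ?_⟩
    rw [hc, fderiv_exp_Dg hU, h1]
    refine ι_jL hι ?_
    have h2 := (hΓp x).1
    rw [hc] at h2
    change star _ = _
    rw [star_add, star_mul, star_mul _ A, show star A = A from hA.1, show star _ = _ from h2, add_comm]

end Pool.Agent.Work.MP_2482e4_mp
end

-- merged part: Pool.Agent.Work.MP_2482e4_mp.FamSmooth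
section
open scoped ComplexOrder Topology ContDiff Matrix.Norms.L2Operator
open Matrix NormedSpace Filter Module

namespace Pool.Agent.Work.MP_2482e4_mp

variable {n : Type} [Fintype n] [DecidableEq n]
variable {E : Type} [NormedAddCommGroup E] [NormedSpace ℝ E] [FiniteDimensional ℝ E]
variable {ι : E →ₗ[ℝ] Matrix n n ℂ} {g : E → E →L[ℝ] E →L[ℝ] ℝ}

theorem cdAt_clm' {E' F : Type*} [NormedAddCommGroup E'] [NormedSpace ℝ E'] [NormedAddCommGroup F]
    [NormedSpace ℝ F] {m : WithTop ℕ∞} {f : E' → E →L[ℝ] F} {q : E'}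
    (h : ∀ Y, ContDiffAt ℝ m (fun x => f x Y) q) : ContDiffAt ℝ m f q := by
  let b := Module.finBasis ℝ E
  have h1 : f = fun x => ∑ i, (LinearMap.toContinuousLinearMap (b.coord i)).smulRight
      (f x (b i)) := by
    funext x
    ext Y
    conv_lhs => rw [← b.sum_repr Y, map_sum]
    simp
  rw [h1]
  exact ContDiffAt.sum fun i _ => contDiffAt_const.smulRight (h _)

theorem petz_smooth (hι : IsHermModel ι) {κ : ℝ} (hκ : 0 < κ) (hg : IsPetz ι (fKappa κ) g) (q : E)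
    (hq : (ι q).PosDef) : ContDiffAt ℝ ∞ g q := by
  have : CompleteSpace E := FiniteDimensional.complete ℝ E
  set Ly : E → E →L[ℝ] E := fun σ => Lm ι (ι σ) with hLy
  have hι' : ∀ σ a, ι (Ly σ a) = ι a * ι σ + ι σ * ι a := fun σ a => by
    rw [ι_Lm hι, show star (ι σ) = ι σ from herm_ι hι σ, add_comm]
  have hcd : ∀ σ, ContDiffAt ℝ ∞ Ly σ := fun σ => cdAt_clm' fun a => by
    have : (fun x => Ly x a) = fun x => Ly a x := funext fun x => hι.1 (by
      rw [hι', hι', add_comm])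
    rw [this]
    exact (Ly a).contDiff.contDiffAt
  have hinv : ∀ σ, (ι σ).PosDef → (Ly σ).IsInvertible := fun σ hσ => by
    have hinj : Function.Injective (Ly σ).toLinearMap := fun a b h =>
      hι.1 (lyap_inj hσ (by rw [← hι', ← hι']; exact congrArg ι h))
    exact ⟨(LinearEquiv.ofInjectiveEndo _ hinj).toContinuousLinearEquiv, rfl⟩
  refine cdAt_clm' fun Y => cdAt_clm' fun X => ?_
  set om : E →L[ℝ] ℝ := LinearMap.toContinuousLinearMap
    (Complex.reLm ∘ₗ (Matrix.traceLinearMap n ℝ ℂ) ∘ₗ LinearMap.mulLeft ℝ (ι Y) ∘ₗ ι) with hom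
  have h1 : ContDiffAt ℝ ∞ (fun p => om ((2 * κ⁻¹) •
      (Ly (pw ι κ p)).inverse (fderiv ℝ (pw ι κ) p X))) q := by
    have h2 : ContDiffAt ℝ ∞ (pw ι κ) q := (pw_cd hι κ hq).of_le le_top
    have h3 : ContDiffAt ℝ ∞ (fun p => (Ly (pw ι κ p)).inverse) q :=
      ContDiffAt.comp (g := ContinuousLinearMap.inverse) (f := fun p => Ly (pw ι κ p)) q
        (hinv _ (pw_posDef hι κ q)).contDiffAt_map_inverse ((hcd _).comp q h2)
    exact om.contDiff.contDiffAt.comp q ((h3.clm_apply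
      ((h2.fderiv_right (by simp)).clm_apply contDiffAt_const)).const_smul _)
  refine h1.congr_of_eventuallyEq ((posDef_near hι hq).mono fun p hp => ?_)
  obtain ⟨U, d, hU, hx, hd⟩ := exists_Dg_pos hp
  have hs := ι_pw hι hU κ hx hd
  have h4 := psi_rep hι hκ hU hs (fun i => Real.exp_pos _) (fderiv ℝ (pw ι κ) p X)
  have h5 := fderiv_pw_pw hι (inv_mul_cancel₀ hκ.ne') hp X
  simp only [Real.log_exp, inv_mul_cancel_left₀ hκ.ne', Real.exp_log (hd _), h5] at h4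
  change g p Y X = (ι Y * ι _).trace.re
  rw [petz_rep hι hg hU hx hd, h4, map_smul]
  congr 4
  set w := fderiv ℝ (pw ι κ) p X
  have h6 : Ly (pw ι κ p) ((Ly (pw ι κ p)).inverse w) = w :=
    ((hinv _ (pw_posDef hι κ p)).inverse_apply_eq.1 rfl).symm
  conv_lhs => rw [← h6, hι', hs, lyap hU, Sch_Sch hU]
  rw [Sch_congr (l := fun _ _ => 1) (fun i j => inv_mul_cancel₀ (by positivity)), Sch_one hU]

theorem family_iff {E : Type} [NormedAddCommGroup E] [NormedSpace ℝ E]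
    {ι : E →ₗ[ℝ] Matrix n n ℂ} {g : E → E →L[ℝ] E →L[ℝ] ℝ} (hι : IsHermModel ι) {κ : ℝ}
    (hκ : 0 < κ) (hg : IsPetz ι (fKappa κ) g) {ρ : E} (hρ : ρ ∈ states ι) {V : Submodule ℝ E}
    (hV : ∀ X ∈ V, (ι X).trace = 0) :
    Admissible ι g ρ V ↔ IsLieTriple (eRep ι g ρ V) ∧
      ∀ A ∈ eRep ι g ρ V, ∀ B ∈ eRep ι g ρ V, ∃ X ∈ V, ι X = ⁅⁅A, B⁆, ι ρ⁆ := by
  have : FiniteDimensional ℝ E := FiniteDimensional.of_injective ι hι.1
  have hV' : ∀ X ∈ V, trL ι X = 0 := fun X hX => (trL_iff hι X).1 (hV X hX)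
  exact ⟨family_nec hι hκ hg (petz_smooth hι hκ hg) hρ hV',
    fun h => family_suf hι hκ hg hρ hV' h.1 h.2⟩

end Pool.Agent.Work.MP_2482e4_mp
end
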