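import Pool.Agent.Work.MP_2482e4_mp.FamSmooth

open scoped ComplexOrder Topology ContDiff Matrix.Norms.L2Operator
open Matrix NormedSpace Filter Module

namespace Pool.Agent.Work.MP_2482e4_mp

variable {n : Type} [Fintype n] [DecidableEq n]
variable {E : Type} [NormedAddCommGroup E] [NormedSpace ℝ E] [FiniteDimensional ℝ E]
variable {ι : E →ₗ[ℝ] Matrix n n ℂ}

/-- Sanity check: the hypothesis `IsPetz ι (fKappa κ) g` can be satisfied. -/
theorem exists_petz (hι : IsHermModel ι) {κ : ℝ} (hκ : 0 < κ) :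
    ∃ g : E → E →L[ℝ] E →L[ℝ] ℝ, IsPetz ι (fKappa κ) g := by
  have : CompleteSpace E := FiniteDimensional.complete ℝ E
  set Ly : E → E →L[ℝ] E := fun σ => Lm ι (ι σ) with hLy
  have hι' : ∀ σ a, ι (Ly σ a) = ι a * ι σ + ι σ * ι a := fun σ a => by
    rw [ι_Lm hι, show star (ι σ) = ι σ from herm_ι hι σ, add_comm]
  have hinv : ∀ σ, (ι σ).PosDef → (Ly σ).IsInvertible := fun σ hσ => by
    have hinj : Function.Injective (Ly σ).toLinearMap := fun a b h =>
      hι.1 (lyap_inj hσ (by rw [← hι', ← hι']; exact congrArg ι h))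
    exact ⟨(LinearEquiv.ofInjectiveEndo _ hinj).toContinuousLinearEquiv, rfl⟩
  let β : E →ₗ[ℝ] E →L[ℝ] ℝ :=
    { toFun := fun Y => LinearMap.toContinuousLinearMap
        (Complex.reLm ∘ₗ (Matrix.traceLinearMap n ℝ ℂ) ∘ₗ LinearMap.mulLeft ℝ (ι Y) ∘ₗ ι)
      map_add' := fun x y => by ext; simp [Matrix.add_mul]
      map_smul' := fun c x => by ext; simp }
  let T : E → E →L[ℝ] E := fun p =>
    (2 * κ⁻¹) • (Ly (pw ι κ p)).inverse.comp (fderiv ℝ (pw ι κ) p)
  refine ⟨fun p => (ContinuousLinearMap.precomp ℝ (T p)).comp (LinearMap.toContinuousLinearMap β),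
    fun p Y X U d hU hd hx => ?_⟩
  have hp : (ι p).PosDef := hx ▸ (posDef_Dg hU d).2 hd
  have hs := ι_pw hι hU κ hx hd
  have h4 := psi_rep hι hκ hU hs (fun i => Real.exp_pos _) (fderiv ℝ (pw ι κ) p X)
  have h5 := fderiv_pw_pw hι (inv_mul_cancel₀ hκ.ne') hp X
  simp only [Real.log_exp, inv_mul_cancel_left₀ hκ.ne', Real.exp_log (hd _), h5] at h4
  change (ι Y * ι ((2 * κ⁻¹) • (Ly (pw ι κ p)).inverse (fderiv ℝ (pw ι κ) p X))).trace.re = _
  have h7 := trace_Sch hU (fun i j => (d j * fKappa κ (d i / d j))⁻¹) (herm_ι hι Y) (ι X)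
  simp only [petzSum, div_eq_inv_mul] at h7 ⊢
  simp only [div_eq_inv_mul] at h4
  rw [← h7, h4, map_smul]
  congr 4
  set w := fderiv ℝ (pw ι κ) p X
  have h6 : Ly (pw ι κ p) ((Ly (pw ι κ p)).inverse w) = w :=
    ((hinv _ (pw_posDef hι κ p)).inverse_apply_eq.1 rfl).symm
  conv_rhs => rw [← h6, hι', hs, lyap hU, Sch_Sch hU]
  rw [Sch_congr (l := fun _ _ => 1) (fun i j => inv_mul_cancel₀ (by positivity)), Sch_one hU]

end Pool.Agent.Work.MP_2482e4_mp
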