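import Pool.Agent.Work.MP_2482e4_mp.NecGen
import Pool.Agent.Work.MP_2482e4_mp.Defs2

open scoped ComplexOrder Topology ContDiff Matrix.Norms.L2Operator
open Matrix NormedSpace Filter Module

namespace Pool.Agent.Work.MP_2482e4_mp

theorem fH_id {κ : ℝ} (hκ : 0 < κ) (x y : ℝ) :
    Real.exp y * fHarm κ (Real.exp x / Real.exp y) *
      (ddExp (κ * x) (κ * y) * (Real.exp (κ * x) + Real.exp (κ * y))) =
      2 * (Real.exp (κ * x) * Real.exp (κ * y)) * ddExp x y := by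
  by_cases h : x = y
  · subst h
    simp [fHarm, ddExp, (Real.exp_pos x).ne']
    ring
  · have h1 : Real.exp x / Real.exp y ≠ 1 := by
      rw [Ne, div_eq_one_iff_eq (Real.exp_pos y).ne', Real.exp_eq_exp]; exact h
    have h2 : κ * x ≠ κ * y := fun h' => h (mul_left_cancel₀ hκ.ne' h')
    have h3 : (Real.exp x / Real.exp y) ^ κ = Real.exp (κ * x) / Real.exp (κ * y) := by
      rw [← Real.exp_sub, ← Real.exp_mul, ← Real.exp_sub]; congr 1; ring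
    have h3' : (Real.exp x / Real.exp y) ^ (2 * κ) = (Real.exp (κ * x) / Real.exp (κ * y)) ^ 2 := by
      rw [← h3, mul_comm, Real.rpow_mul (by positivity)]; simp
    have h4 : Real.exp (κ * x) - Real.exp (κ * y) ≠ 0 := by
      rw [sub_ne_zero, Ne, Real.exp_eq_exp]; exact h2
    have h5 : x - y ≠ 0 := sub_ne_zero.2 h
    have h6 := (Real.exp_pos y).ne'
    have h7 := (Real.exp_pos (κ * y)).ne'
    have h8 : Real.exp (κ * x) + Real.exp (κ * y) ≠ 0 := by positivity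
    have h9 : (Real.exp (κ * x) / Real.exp (κ * y)) ^ 2 - 1 = (Real.exp (κ * x) - Real.exp (κ * y)) *
        (Real.exp (κ * x) + Real.exp (κ * y)) / Real.exp (κ * y) ^ 2 := by
      field_simp
      ring
    simp only [fHarm, ddExp, if_neg h, if_neg h1, if_neg h2, h3, h3', h9, ← mul_sub]
    rw [div_sub_one h6]
    field_simp

theorem fH_pos {κ : ℝ} (hκ : 0 < κ) (t : ℝ) (ht : 0 < t) : 0 < fHarm κ t := by
  have h := fH_id hκ (Real.log t) 0
  rw [Real.exp_log ht, Real.exp_zero, one_mul, div_one] at h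
  have h1 := ddExp_pos (κ * Real.log t) (κ * 0)
  have h2 := ddExp_pos (Real.log t) 0
  have h3 : 0 < ddExp (κ * Real.log t) (κ * 0) * (Real.exp (κ * Real.log t) + Real.exp (κ * 0)) := by
    positivity
  exact (mul_pos_iff_of_pos_right h3).1 (h ▸ by positivity)

theorem fH_symm {κ : ℝ} (hκ : 0 < κ) (t : ℝ) (ht : 0 < t) : fHarm κ t = t * fHarm κ t⁻¹ := by
  have h := fH_id hκ (Real.log t) 0
  have h' := fH_id hκ 0 (Real.log t)
  rw [Real.exp_log ht, Real.exp_zero, one_mul, div_one] at h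
  rw [Real.exp_log ht, Real.exp_zero, one_div, ddExp_comm, ddExp_comm 0, add_comm,
    mul_comm (Real.exp (κ * 0)), ← h] at h'
  have h1 := ddExp_pos (κ * Real.log t) (κ * 0)
  exact (mul_right_cancel₀ (by positivity) h').symm

variable {n : Type} [Fintype n] [DecidableEq n]
variable {E : Type} [NormedAddCommGroup E] [NormedSpace ℝ E] [FiniteDimensional ℝ E]
variable {ι : E →ₗ[ℝ] Matrix n n ℂ} {g : E → E →L[ℝ] E →L[ℝ] ℝ} {U : Matrix n n ℂ}

theorem psiH_rep (hι : IsHermModel ι) {κ : ℝ} (hκ : 0 < κ) (hU : U * star U = 1) {σ : E}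
    {s : n → ℝ} (hσ : ι σ = Dg U s) (hs : ∀ i, 0 < s i) (w : E) :
    Sch U (fun i j => (Real.exp (κ⁻¹ * Real.log (s j)) * fHarm κ
      (Real.exp (κ⁻¹ * Real.log (s i)) / Real.exp (κ⁻¹ * Real.log (s j))))⁻¹)
      (ι (fderiv ℝ (pw ι κ⁻¹) σ w)) = (2 * κ)⁻¹ • ((ι σ)⁻¹ * ι w + ι w * (ι σ)⁻¹) := by
  rw [ι_fderiv_pw hι hU _ hσ hs, Sch_Sch hU, hσ, Dg_inv hU (fun i => (hs i).ne'), Dg_mul hU,
    mul_Dg hU, ← Sch_add hU, ← Sch_const_mul hU]
  refine Sch_congr (fun i j => ?_) _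
  have h := fH_id hκ (κ⁻¹ * Real.log (s i)) (κ⁻¹ * Real.log (s j))
  simp only [mul_inv_cancel_left₀ hκ.ne', Real.exp_log (hs _)] at h
  have h1 := (ddExp_pos (Real.log (s i)) (Real.log (s j))).ne'
  have h2 := (ddExp_pos (κ⁻¹ * Real.log (s i)) (κ⁻¹ * Real.log (s j))).ne'
  have h3 := (add_pos (hs i) (hs j)).ne'
  have h4 := (hs i).ne'
  have h5 := (hs j).ne'
  rw [eq_div_iff (mul_ne_zero h1 h3) |>.2 h]
  generalize ddExp (κ⁻¹ * Real.log (s i)) (κ⁻¹ * Real.log (s j)) = a at h2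
  field_simp
  ring

theorem psiH_nrm [Nonempty n] (hι : IsHermModel ι) {κ : ℝ} (hκ : 0 < κ)
    (hg : IsPetz ι (fHarm κ) g) {σ : E} (hσ : (ι σ).PosDef) (w : E) :
    trL ι (fderiv ℝ (psi ι κ) σ w) = 0 ∧ ∀ Y, trL ι Y = 0 →
      g (psi ι κ σ) Y (fderiv ℝ (psi ι κ) σ w) =
        (ι Y * ((2 * κ)⁻¹ • ((ι σ)⁻¹ * ι w + ι w * (ι σ)⁻¹))).trace.re := by
  obtain ⟨U, s, hU, hx, hs⟩ := exists_Dg_pos hσ
  have h := nrm_rep hι hg hU (ι_pw hι hU κ⁻¹ hx hs) (fun i => Real.exp_pos _)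
    (fderiv ℝ (pw ι κ⁻¹) σ w)
  rwa [psiH_rep hι hκ hU hx hs, ← fderiv_psi hι κ hσ] at h

theorem psiH_D_iff [Nonempty n] (hι : IsHermModel ι) {κ : ℝ} (hκ : 0 < κ)
    (hg : IsPetz ι (fHarm κ) g) {ρ : E} {V : Submodule ℝ E} (hρ : (ι ρ).PosDef)
    (hV : ∀ X ∈ V, trL ι X = 0) {σ : E} (hσ : (ι σ).PosDef) (w : E) :
    fderiv ℝ (psi ι κ) σ w ∈ orth (trL ι) (g (psi ι κ σ)).flip (orth (trL ι) (g ρ) V) ↔
      (ι σ)⁻¹ * ι w + ι w * (ι σ)⁻¹ ∈ eRepS ι g ρ V := by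
  obtain ⟨U, s, hU, hx, hs⟩ := exists_Dg_pos hσ
  rw [fderiv_psi hι κ hσ, psi, nrm_D_iff hι hg (fH_symm hκ) (petz_pos hι hg (fH_pos hκ) hρ) hV hU
    (ι_pw hι hU κ⁻¹ hx hs) (fun i => Real.exp_pos _), psiH_rep hι hκ hU hx hs]
  exact (eRepS ι g ρ V).smul_mem_iff (by positivity)

theorem harm_smooth (hι : IsHermModel ι) {κ : ℝ} (hκ : 0 < κ) (hg : IsPetz ι (fHarm κ) g) (q : E)
    (hq : (ι q).PosDef) : ContDiffAt ℝ ∞ g q := by
  refine cdAt_clm' fun Y => cdAt_clm' fun X => ?_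
  set om : Matrix n n ℂ →L[ℝ] ℝ := LinearMap.toContinuousLinearMap
    (Complex.reLm ∘ₗ (Matrix.traceLinearMap n ℝ ℂ) ∘ₗ LinearMap.mulLeft ℝ (ι Y)) with hom
  have h1 : ContDiffAt ℝ ∞ (fun p => om ((2 * κ)⁻¹ •
      (iL ι (pw ι (-κ) p) * iL ι (fderiv ℝ (pw ι κ) p X) +
        iL ι (fderiv ℝ (pw ι κ) p X) * iL ι (pw ι (-κ) p)))) q := by
    have h2 : ContDiffAt ℝ ∞ (fun p => iL ι (pw ι (-κ) p)) q :=
      (iL ι).contDiff.contDiffAt.comp q ((pw_cd hι _ hq).of_le le_top)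
    have h3 : ContDiffAt ℝ ∞ (fun p => iL ι (fderiv ℝ (pw ι κ) p X)) q :=
      (iL ι).contDiff.contDiffAt.comp q
        (((pw_cd hι κ hq).fderiv_right (m := ∞) le_top).clm_apply contDiffAt_const)
    exact om.contDiff.contDiffAt.comp q (((h2.mul h3).add (h3.mul h2)).const_smul _)
  refine h1.congr_of_eventuallyEq ((posDef_near hι hq).mono fun p hp => ?_)
  obtain ⟨U, d, hU, hx, hd⟩ := exists_Dg_pos hp
  have hs := ι_pw hι hU κ hx hd
  have h4 := psiH_rep hι hκ hU hs (fun i => Real.exp_pos _) (fderiv ℝ (pw ι κ) p X)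
  have h5 := fderiv_pw_pw hι (inv_mul_cancel₀ hκ.ne') hp X
  simp only [Real.log_exp, inv_mul_cancel_left₀ hκ.ne', Real.exp_log (hd _), h5] at h4
  have h6 : (ι (pw ι κ p))⁻¹ = ι (pw ι (-κ) p) := by
    rw [hs, ι_pw hι hU _ hx hd, Dg_inv hU (fun i => (Real.exp_pos _).ne')]
    simp [Real.exp_neg]
  change g p Y X = (ι Y * _).trace.re
  rw [petz_rep hι hg hU hx hd, h4, h6]
  rfl

/-- The map `Z ↦ S⁻¹ Z S + S Z* S⁻¹`. -/
noncomputable def tw (S : Matrix n n ℂ) : Matrix n n ℂ →ₗ[ℝ] Matrix n n ℂ where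
  toFun Z := S⁻¹ * Z * S + S * star Z * S⁻¹
  map_add' X Y := by rw [star_add]; noncomm_ring
  map_smul' c X := by simp [smul_add]

/-- `twist` as a real subspace. -/
noncomputable def twistS (S : Matrix n n ℂ) (𝒜 : Submodule ℝ (Matrix n n ℂ)) :
    Submodule ℝ (Matrix n n ℂ) where
  carrier := twist S 𝒜
  zero_mem' := ⟨isHermitian_zero, by simp⟩
  add_mem' := by
    rintro A B ⟨hA, h⟩ ⟨hB, h'⟩
    refine ⟨hA.add hB, ?_⟩
    rw [SetLike.mem_coe]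
    convert 𝒜.add_mem h h' using 1
    noncomm_ring
  smul_mem' := by
    rintro c A ⟨hA, h⟩
    refine ⟨?_, ?_⟩
    · change (c • A)ᴴ = _
      rw [conjTranspose_smul, hA.eq, star_trivial]
    · simpa [smul_add] using 𝒜.smul_mem c h

theorem mem_twistS {S B : Matrix n n ℂ} {𝒜 : Submodule ℝ (Matrix n n ℂ)} (hB : B.IsHermitian) :
    B ∈ twistS S 𝒜 ↔ tw S B ∈ 𝒜 := by
  change _ ↔ S⁻¹ * B * S + S * star B * S⁻¹ ∈ 𝒜
  rw [show star B = B from hB, add_comm]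
  exact ⟨fun h => h.2, fun h => ⟨hB, h⟩⟩

theorem tw_skew {S k : Matrix n n ℂ} (hk : star k = -k) :
    tw S k = -(S * k * S⁻¹ - S⁻¹ * k * S) := by
  change S⁻¹ * k * S + S * star k * S⁻¹ = _
  rw [hk]
  noncomm_ring

theorem harm_key (hU : U * star U = 1) {S : Matrix n n ℂ} (hS : IsUnit S.det) (c : n → ℝ)
    {C : Matrix n n ℂ} (hC : C.IsHermitian) :
    (S * exp (Dg U c) * S)⁻¹ * (S * Sch U (fun i j => ddExp (c i) (c j)) C * S) +
      (S * Sch U (fun i j => ddExp (c i) (c j)) C * S) * (S * exp (Dg U c) * S)⁻¹ =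
      tw S (Sch U (fun i j => ddExp (-(c i - c j)) 0) C) := by
  set D := Sch U (fun i j => ddExp (c i) (c j)) C with hD
  have hsD : star D = D := Sch_herm hU (fun i j => ddExp_comm _ _) hC
  set e' := Dg U fun i => Real.exp (-c i) with he'
  have h1 : (exp (Dg U c))⁻¹ = e' := by
    rw [exp_Dg hU, Dg_inv hU (fun i => (Real.exp_pos _).ne')]
    simp [he', Real.exp_neg]
  have h2 : Sch U (fun i j => ddExp (-(c i - c j)) 0) C = e' * D := by
    rw [Dg_mul hU, Sch_Sch hU]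
    exact Sch_congr (fun i j => by rw [neg_sub, ← ddExp_mul, ddExp_comm, mul_comm]) _
  rw [h2, Matrix.mul_inv_rev, Matrix.mul_inv_rev, h1]
  change _ = S⁻¹ * (e' * D) * S + S * star (e' * D) * S⁻¹
  rw [star_mul, hsD, show star e' = e' from Dg_herm _]
  calc _ = S⁻¹ * e' * (S⁻¹ * S) * D * S + S * D * (S * S⁻¹) * e' * S⁻¹ := by noncomm_ring
    _ = _ := by rw [Matrix.nonsing_inv_mul _ hS, Matrix.mul_nonsing_inv _ hS]; noncomm_ring

/-- The curve family `x ↦ S exp (C x) S`. -/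
noncomputable def Gam (ι : E →ₗ[ℝ] Matrix n n ℂ) (S : Matrix n n ℂ) (C : E →L[ℝ] Matrix n n ℂ)
    (x : E) : E := jL ι (S * exp (C x) * S)

theorem Gam_cd (S : Matrix n n ℂ) (C : E →L[ℝ] Matrix n n ℂ) (x : E) :
    ContDiffAt ℝ ω (Gam ι S C) x :=
  (jL ι).contDiff.contDiffAt.comp x ((contDiffAt_const.mul
    ((exp_analytic (𝕂 := ℝ) (C x)).contDiffAt.comp x C.contDiff.contDiffAt)).mul contDiffAt_const)

theorem fderiv_Gam (S : Matrix n n ℂ) (C : E →L[ℝ] Matrix n n ℂ) (x v : E) :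
    fderiv ℝ (Gam ι S C) x v = jL ι (S * fderiv ℂ exp (C x) (C v) * S) := by
  have hed : HasFDerivAt (fun y => exp (C y))
      (((fderiv ℂ exp (C x)).restrictScalars ℝ).comp C) x :=
    ((exp_analytic (𝕂 := ℂ) (C x)).differentiableAt.hasFDerivAt.restrictScalars ℝ).comp x
      C.hasFDerivAt
  have h1 : HasFDerivAt (Gam ι S C) _ x :=
    (jL ι).hasFDerivAt.comp x ((hed.const_mul S).mul_const' S)
  rw [h1.fderiv]
  simp

theorem Gam_facts (hι : IsHermModel ι) {S : Matrix n n ℂ} (hS : S.PosDef)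
    {C : E →L[ℝ] Matrix n n ℂ} (hC : ∀ x, (C x).IsHermitian) (x : E) :
    (ι (Gam ι S C x)).PosDef ∧ ∀ (U : Matrix n n ℂ) (c : n → ℝ), U * star U = 1 → C x = Dg U c →
      ∀ v, (ι (Gam ι S C x))⁻¹ * ι (fderiv ℝ (Gam ι S C) x v) +
        ι (fderiv ℝ (Gam ι S C) x v) * (ι (Gam ι S C x))⁻¹ =
        tw S (Sch U (fun i j => ddExp (-(c i - c j)) 0) (C v)) := by
  have hp : (S * exp (C x) * S).PosDef := by
    obtain ⟨U, c, hU, hc⟩ := exists_Dg (hC x)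
    have h1 : (exp (C x)).PosDef := by
      rw [hc, exp_Dg hU, posDef_Dg hU]; exact fun i => Real.exp_pos _
    have := hS.isUnit.posDef_star_right_conjugate_iff.2 h1
    rwa [show star S = S from hS.1] at this
  have h1 : ι (Gam ι S C x) = S * exp (C x) * S := ι_jL hι hp.1
  refine ⟨h1 ▸ hp, fun U c hU hc v => ?_⟩
  have h2 : (S * Sch U (fun i j => ddExp (c i) (c j)) (C v) * S).IsHermitian := by
    have := isHermitian_conjTranspose_mul_mul S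
      (Sch_herm hU (k := fun i j => ddExp (c i) (c j)) (fun i j => ddExp_comm _ _) (hC v))
    rwa [hS.1.eq] at this
  rw [h1, fderiv_Gam, hc, fderiv_exp_Dg hU, ι_jL hι h2,
    harm_key hU ((isUnit_iff_isUnit_det S).1 hS.isUnit) c (hC v)]

theorem fderiv_psi_Gam [Nonempty n] (hι : IsHermModel ι) (κ : ℝ) {S : Matrix n n ℂ} (hS : S.PosDef)
    {C : E →L[ℝ] Matrix n n ℂ} (hC : ∀ x, (C x).IsHermitian) (x v : E) :
    fderiv ℝ (psi ι κ ∘ Gam ι S C) x v =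
      fderiv ℝ (psi ι κ) (Gam ι S C x) (fderiv ℝ (Gam ι S C) x v) := by
  rw [fderiv_comp x ((psi_cd hι κ (Gam_facts hι hS hC x).1).differentiableAt (by simp))
    ((Gam_cd S C x).differentiableAt (by simp))]
  rfl

theorem harm_suf (hι : IsHermModel ι) {κ : ℝ} (hκ : 0 < κ) (hg : IsPetz ι (fHarm κ) g)
    {ρ : E} (hρ : ρ ∈ states ι) {V : Submodule ℝ E} (hV : ∀ X ∈ V, trL ι X = 0)
    {S : Matrix n n ℂ} (hS : S.PosDef) (hSS : S * S = ι (pw ι κ ρ))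
    (hL : IsLieTriple (twist S (eRep ι g ρ V)))
    (h0 : ∀ B ∈ twist S (eRep ι g ρ V), ∀ C ∈ twist S (eRep ι g ρ V),
      S * ⁅B, C⁆ * S⁻¹ - S⁻¹ * ⁅B, C⁆ * S ∈ eRep ι g ρ V) :
    Admissible ι g ρ V := by
  have := nonempty_of_states hρ
  have hSd := (isUnit_iff_isUnit_det S).1 hS.isUnit
  set σ0 := pw ι κ ρ with hσ0
  have hσ0p : (ι σ0).PosDef := pw_posDef hι _ _
  have hρ1 := nrm_of_states hι hρ
  have hψ0 : psi ι κ σ0 = ρ := by
    rw [psi, pw_pw hι (inv_mul_cancel₀ hκ.ne') hρ.1, nrm, hρ1]; simp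
  have hpos := petz_pos hι hg (fH_pos hκ) hρ.1
  set ℬ := twistS S (eRepS ι g ρ V) with hℬ
  set T : Matrix n n ℂ →L[ℝ] E := (fderiv ℝ (psi ι κ) σ0).comp ((jL ι).comp
    (LinearMap.toContinuousLinearMap (LinearMap.mulRight ℝ S ∘ₗ LinearMap.mulLeft ℝ S))) with hT
  obtain ⟨C, hC, hCT⟩ := exists_section (V := V) (𝒜 := ℬ) T fun v hv => by
    set w := fderiv ℝ (pw ι κ) ρ v with hw
    have h1 : fderiv ℝ (psi ι κ) σ0 w = v := by
      rw [fderiv_psi hι κ hσ0p, fderiv_pw_pw hι (inv_mul_cancel₀ hκ.ne') hρ.1,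
        pw_pw hι (inv_mul_cancel₀ hκ.ne') hρ.1, fderiv_nrm (by simp [hρ1])]
      simp [hρ1, hV v hv]
    have h2 := (psiH_D_iff hι hκ hg hρ.1 hV hσ0p w).1 (by
      rw [h1, hψ0, orth_orth _ _ V hpos hV]; exact hv)
    have h3 : S * (S⁻¹ * ι w * S⁻¹) * S = ι w := by
      calc _ = (S * S⁻¹) * ι w * (S⁻¹ * S) := by noncomm_ring
        _ = _ := by rw [Matrix.nonsing_inv_mul _ hSd, Matrix.mul_nonsing_inv _ hSd]; simp
    refine ⟨S⁻¹ * ι w * S⁻¹, ⟨?_, ?_⟩, ?_⟩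
    · have := isHermitian_conjTranspose_mul_mul S⁻¹ (herm_ι hι w)
      rwa [hS.1.inv.eq] at this
    · rw [SetLike.mem_coe]
      convert h2 using 1
      rw [← hSS, Matrix.mul_inv_rev]
      calc _ = (S * S⁻¹) * ι w * (S⁻¹ * S⁻¹) + S⁻¹ * S⁻¹ * ι w * (S⁻¹ * S) := by noncomm_ring
        _ = _ := by
          rw [Matrix.nonsing_inv_mul _ hSd, Matrix.mul_nonsing_inv _ hSd]; noncomm_ring
    · change fderiv ℝ (psi ι κ) σ0 (jL ι (S * (S⁻¹ * ι w * S⁻¹) * S)) = v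
      rw [h3, jL_ι hι, h1]
  have hCh : ∀ x, (C x).IsHermitian := fun x => (hC x).1
  have hΓ0 : Gam ι S C 0 = σ0 := by simp [Gam, hSS, jL_ι hι]
  refine admissible_of (trL_iff hι) hV (fun q hq => petz_pos hι hg (fH_pos hκ) hq.1)
    (Ψ := psi ι κ ∘ Gam ι S C) ((psi_cd hι κ (Gam_facts hι hS hCh 0).1).comp 0 (Gam_cd S C 0))
    (by simp [hΓ0, hψ0])
    (fun v hv => ?_) (Eventually.of_forall fun x => ⟨nrm_states hι (pw_posDef hι _ _), fun v => ?_⟩)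
  · rw [fderiv_psi_Gam hι κ hS hCh, fderiv_Gam, hΓ0, map_zero,
      fderiv_exp_commute (Commute.zero_left _), exp_zero, one_mul]
    exact hCT v hv
  · obtain ⟨U, c, hU, hc⟩ := exists_Dg (hCh x)
    rw [fderiv_psi_Gam hι κ hS hCh, Function.comp,
      psiH_D_iff hι hκ hg hρ.1 hV (Gam_facts hι hS hCh x).1, (Gam_facts hι hS hCh x).2 U c hU hc]
    set W := ℬ ⊔ Submodule.span ℝ {k | ∃ A ∈ ℬ, ∃ B ∈ ℬ, k = ⁅A, B⁆} with hWdef
    have hW : ∀ B ∈ W, Sch U (fun i j => c i - c j) B ∈ W := by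
      have h1 : W ≤ W.comap ((Sch U (fun i j => c i - c j)).restrictScalars ℝ) := by
        refine sup_le (fun B hB => ?_) (Submodule.span_le.2 ?_)
        · change Sch U _ B ∈ W
          rw [← lie_Dg hU]
          exact Submodule.mem_sup_right (Submodule.subset_span ⟨_, hc ▸ hC x, _, hB, rfl⟩)
        · rintro _ ⟨A, hA, B, hB, rfl⟩
          change Sch U _ _ ∈ W
          rw [← lie_Dg hU, Ring.lie_def, ← neg_sub, ← Ring.lie_def]
          exact Submodule.mem_sup_left (ℬ.neg_mem (hL A hA B hB _ (hc ▸ hC x)))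
      exact fun B hB => h1 hB
    have hW' : W ≤ (eRepS ι g ρ V).comap (tw S) := by
      refine sup_le (fun B hB => (mem_twistS hB.1).1 hB) (Submodule.span_le.2 ?_)
      rintro _ ⟨A, hA, B, hB, rfl⟩
      change tw S _ ∈ eRepS ι g ρ V
      rw [tw_skew (star_lie hA.1 hB.1)]
      exact neg_mem (h0 A hA B hB)
    exact hW' (Sch_comp_mem hU W _ hW (fun u => ddExp (-u) 0) (Submodule.mem_sup_left (hC v)))

theorem harm_nec (hι : IsHermModel ι) {κ : ℝ} (hκ : 0 < κ) (hg : IsPetz ι (fHarm κ) g)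
    {ρ : E} (hρ : ρ ∈ states ι) {V : Submodule ℝ E} (hV : ∀ X ∈ V, trL ι X = 0)
    {S : Matrix n n ℂ} (hS : S.PosDef) (hSS : S * S = ι (pw ι κ ρ)) (h : Admissible ι g ρ V) :
    IsLieTriple (twist S (eRep ι g ρ V)) ∧
      ∀ B ∈ twist S (eRep ι g ρ V), ∀ C ∈ twist S (eRep ι g ρ V),
        S * ⁅B, C⁆ * S⁻¹ - S⁻¹ * ⁅B, C⁆ * S ∈ eRep ι g ρ V := by
  have := nonempty_of_states hρ
  have hρ1 := nrm_of_states hι hρ
  set ℬ := twistS S (eRepS ι g ρ V) with hℬ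
  have hCh : ∀ x, (iL ι x).IsHermitian := herm_ι hι
  have htw : ∀ x, (tw S (ι x)).IsHermitian := fun x => by
    change star (S⁻¹ * ι x * S + S * star (ι x) * S⁻¹) = S⁻¹ * ι x * S + S * star (ι x) * S⁻¹
    simp only [star_add, star_mul, star_star, show star S = S from hS.1,
      show star S⁻¹ = S⁻¹ from hS.1.inv, mul_assoc, add_comm]
  set Λ : E →L[ℝ] E := (2 * κ)⁻¹ • (jL ι).comp (LinearMap.toContinuousLinearMap (tw S ∘ₗ ι))
    with hΛ
  have hιΛ : ∀ x, ι (Λ x) = (2 * κ)⁻¹ • tw S (ι x) := fun x => by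
    change ι ((2 * κ)⁻¹ • jL ι (tw S (ι x))) = _
    rw [map_smul, ι_jL hι (htw x)]
  have hev := nec_general hι hg (fH_pos hκ) (fH_symm hκ) (fun q hq => harm_smooth hι hκ hg q hq.1)
    hρ hV h (ℬ.comap ι) Λ
    (fun b hb => hιΛ b ▸ (eRepS ι g ρ V).smul_mem _ ((mem_twistS (herm_ι hι b)).1 hb))
    (Γ := psi ι κ ∘ Gam ι S (iL ι))
    (fun x => ((psi_cd hι κ (Gam_facts hι hS hCh x).1).comp x (Gam_cd S _ x)).differentiableAt
      (by simp))
    (by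
      have h1 : Gam ι S (iL ι) 0 = pw ι κ ρ := by simp [Gam, hSS, jL_ι hι]
      rw [Function.comp, h1, psi, pw_pw hι (inv_mul_cancel₀ hκ.ne') hρ.1, nrm, hρ1]; simp)
    (fun b => nrm_states hι (pw_posDef hι _ _))
    (fun b _ t => by
      obtain ⟨U, c, hU, hc⟩ := exists_Dg (hCh (t • b))
      have h1 := psiH_nrm hι hκ hg (Gam_facts hι hS hCh (t • b)).1
        (fderiv ℝ (Gam ι S (iL ι)) (t • b) b)
      have h2 : Commute (Dg U c) (ι b) := by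
        rw [← hc, iL_apply, map_smul]
        exact (Commute.refl _).smul_left t
      rw [(Gam_facts hι hS hCh (t • b)).2 U c hU hc, iL_apply,
        Sch_of_commute hU h2 (l := fun _ _ => 1) (fun i j h => by simp [h, ddExp]), Sch_one hU,
        ← hιΛ, ← fderiv_psi_Gam hι κ hS hCh] at h1
      exact h1)
  obtain ⟨ε, hε, hinj⟩ := ev_injOn
  have key : ∀ (U : Matrix n n ℂ) (c : n → ℝ), U * star U = 1 → Dg U c ∈ ℬ →
      ∃ s : ℝ, s ≠ 0 ∧ (∀ i j, |s * c i - s * c j| < ε) ∧ ∀ C ∈ ℬ,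
        tw S (Sch U (fun i j => ddExp (-(s * c i - s * c j)) 0) C) ∈ eRepS ι g ρ V ∧
        tw S (Sch U (fun i j => ddExp (s * c i - s * c j) 0) C) ∈ eRepS ι g ρ V := by
    intro U c hU hB
    have hs1 : Tendsto (fun s : ℝ => s • jL ι (Dg U c)) (𝓝 0) (𝓝 0) := by
      have : Continuous fun s : ℝ => s • jL ι (Dg U c) := by fun_prop
      simpa using this.tendsto 0
    have h1 : ∀ᶠ s : ℝ in 𝓝 0, ∀ C ∈ ℬ,
        tw S (Sch U (fun i j => ddExp (-(s * c i - s * c j)) 0) C) ∈ eRepS ι g ρ V := by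
      filter_upwards [hs1.eventually hev] with s hs C hC
      have h2 : iL ι (s • jL ι (Dg U c)) = Dg U fun i => s * c i := by
        rw [iL_apply, map_smul, ι_jL hι (Dg_herm _), Dg_smul]
      have h3 := hs (by
        change iL ι _ ∈ ℬ
        rw [h2, Dg_smul]; exact ℬ.smul_mem s hB) (jL ι C) (by
        change ι _ ∈ ℬ
        rw [ι_jL hι hC.1]; exact hC)
      rwa [fderiv_psi_Gam hι κ hS hCh, Function.comp,
        psiH_D_iff hι hκ hg hρ.1 hV (Gam_facts hι hS hCh _).1,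
        (Gam_facts hι hS hCh _).2 U _ hU h2, iL_apply, ι_jL hι hC.1] at h3
    have hn : Tendsto (fun s : ℝ => -s) (𝓝 0) (𝓝 0) := by simpa using continuous_neg.tendsto (0 : ℝ)
    have hs2 : ∀ᶠ s : ℝ in 𝓝 0, ∀ ij : n × n, |s * c ij.1 - s * c ij.2| < ε := by
      refine eventually_all.2 fun ij => ?_
      have : ContinuousAt (fun s : ℝ => |s * c ij.1 - s * c ij.2|) 0 := by fun_prop
      exact this.eventually (gt_mem_nhds (by simpa using hε))
    obtain ⟨s, ⟨⟨h2, h3⟩, h4⟩, hs0⟩ := (((h1.and (hn.eventually h1)).and hs2).filter_mono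
      (nhdsWithin_le_nhds (s := {0}ᶜ))).and self_mem_nhdsWithin |>.exists
    refine ⟨s, hs0, fun i j => h4 (i, j), fun C hC => ⟨h2 C hC, ?_⟩⟩
    have h5 := h3 C hC
    rwa [Sch_congr (l := fun i j => ddExp (s * c i - s * c j) 0) fun i j => by
      congr 1; ring] at h5
  have hsq : ∀ A ∈ ℬ, ∀ B ∈ ℬ, ⁅A, ⁅A, B⁆⁆ ∈ ℬ := by
    intro A hA B hB
    obtain ⟨U, c, hU, rfl⟩ := exists_Dg hA.1
    obtain ⟨s, hs, h1, h2⟩ := key U c hU hA
    refine sq_of_inv hU (w := fun u => ddExp u 0 + ddExp (-u) 0) (fun u => ?_) hinj hs h1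
      (fun C hC => ?_) hB
    · rcases abs_choice u with h | h <;> rw [h]
      rw [neg_neg, add_comm]
    · rw [mem_twistS (Sch_herm hU (fun i j => by rw [neg_sub, neg_sub, add_comm]) hC.1),
        Sch_add hU, map_add]
      exact add_mem (h2 C hC).2 (h2 C hC).1
  refine ⟨lieTriple_of_sq (𝒜 := ℬ) hsq, fun B hB C hC => ?_⟩
  obtain ⟨U, c, hU, hc⟩ := exists_Dg hB.1
  obtain ⟨s, hs, -, h2⟩ := key U c hU (hc ▸ hB)
  have h3 := Sch_comp_mem hU ℬ (fun i j => (c i - c j) * (c i - c j)) (fun A hA => by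
      rw [← Sch_Sch hU, ← lie_Dg hU, ← lie_Dg hU]; exact hsq _ (hc ▸ hB) A hA)
    (fun y => √y / (ddExp (-(s * √y)) 0 - ddExp (s * √y) 0)) hC
  have h4 := sub_mem (h2 _ h3).1 (h2 _ h3).2
  rw [← map_sub, ← Sch_sub hU, Sch_Sch hU, Sch_congr (l := fun i j => c i - c j), ← lie_Dg hU,
    ← hc, tw_skew (star_lie hB.1 hC.1)] at h4
  · exact (eRepS ι g ρ V).neg_mem_iff.1 h4
  · intro i j
    rw [Real.sqrt_mul_self_eq_abs, ← mul_sub]
    generalize c i - c j = δ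
    by_cases hδ : δ = 0
    · simp [hδ]
    · have h5 := od_ne (mul_ne_zero hs hδ)
      rcases abs_choice δ with h | h <;> rw [h]
      · field_simp
      · rw [mul_neg, neg_neg, ← neg_sub (ddExp (-(s * δ)) 0), neg_div_neg_eq]
        field_simp

theorem harm_iff {E : Type} [NormedAddCommGroup E] [NormedSpace ℝ E]
    {ι : E →ₗ[ℝ] Matrix n n ℂ} {g : E → E →L[ℝ] E →L[ℝ] ℝ} (hι : IsHermModel ι) {κ : ℝ}
    (hκ : 0 < κ) (hg : IsPetz ι (fHarm κ) g) {ρ : E} (hρ : ρ ∈ states ι) {V : Submodule ℝ E}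
    (hV : ∀ X ∈ V, (ι X).trace = 0) {S : Matrix n n ℂ}
    (hS : S = cfc (fun t : ℝ => t ^ (κ / 2)) (ι ρ)) :
    Admissible ι g ρ V ↔ IsLieTriple (twist S (eRep ι g ρ V)) ∧
      ∀ B ∈ twist S (eRep ι g ρ V), ∀ C ∈ twist S (eRep ι g ρ V),
        S * ⁅B, C⁆ * S⁻¹ - S⁻¹ * ⁅B, C⁆ * S ∈ eRep ι g ρ V := by
  have : FiniteDimensional ℝ E := FiniteDimensional.of_injective ι hι.1
  have hV' : ∀ X ∈ V, trL ι X = 0 := fun X hX => (trL_iff hι X).1 (hV X hX)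
  obtain ⟨U, d, hU, hx, hcfc⟩ := exists_Dg_cfc (herm_ι hι ρ)
  have hd := (posDef_Dg hU d).1 (hx ▸ hρ.1)
  rw [hcfc] at hS
  have hSp : S.PosDef := hS ▸ (posDef_Dg hU _).2 fun i => Real.rpow_pos_of_pos (hd i) _
  have hSS : S * S = ι (pw ι κ ρ) := by
    rw [hS, Dg_mul_Dg hU, ι_pw hι hU κ hx hd]
    congr 1
    funext i
    rw [← Real.rpow_add (hd i), add_halves, Real.rpow_def_of_pos (hd i), mul_comm]
  exact ⟨harm_nec hι hκ hg hρ hV' hSp hSS, fun h => harm_suf hι hκ hg hρ hV' hSp hSS h.1 h.2⟩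

end Pool.Agent.Work.MP_2482e4_mp
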